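import Pool.Agent.Helper57.NSDefs

/-!
Internal notions shared by the modules of `MP_8fc134_al`.
Monomials in `e` variables are elements of `Multiset (Fin e)`.
-/

namespace NS57

/-- the minimal elements of the complement of an order ideal `B ∋ 0` -/
def minNon {e : ℕ} (B : Finset (Multiset (Fin e))) : Finset (Multiset (Fin e)) :=
  (((Finset.univ : Finset (Fin e)) ×ˢ B).image fun p => p.1 ::ₘ p.2).filter
    fun M => M ∉ B ∧ ∀ x ∈ M, M.erase x ∈ B

/-- monomials of degree `≤ r - 1` in all variables, or of degree `≤ r` in the variables `D` -/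
def Good {e : ℕ} (r : ℕ) (D : Finset (Fin e)) (M : Multiset (Fin e)) : Prop :=
  M.card + 1 ≤ r ∨ (M.card ≤ r ∧ ∀ x ∈ M, x ∈ D)

/-- the good monomials have pairwise distinct residues -/
def Dist {e : ℕ} (r m : ℕ) (D : Finset (Fin e)) (a : Fin e → ZMod m) : Prop :=
  ∀ M N : Multiset (Fin e), Good r D M → Good r D N → (M.map a).sum = (N.map a).sum → M = N

/-- the order ideals coming from a semigroup -/
structure Tile (e m : ℕ) (B : Finset (Multiset (Fin e))) (a : Fin e → ZMod m) : Prop where
  down : ∀ M ∈ B, ∀ N ≤ M, N ∈ B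
  zero : 0 ∈ B
  one : ∀ i, {i} ∈ B
  card : B.card = m
  inj : ∀ M ∈ B, ∀ N ∈ B, (M.map a).sum = (N.map a).sum → M = N

end NS57
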