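import Pool.Agent.Helper57.NS.R2
import Pool.Agent.Helper43.NSLower

/-!
The constructions for `r = 2`.
-/

namespace NS57

open Finset
open scoped Pointwise

variable {e m s : ℕ}

theorem exists_sgp (hm : m = 1 + e + s) (a : Fin e → ZMod m) (B : Finset (Multiset (Fin e)))
    (hI : Ideal' B) (hcard : B.card ≤ m)
    (hsurj : ∀ c : ZMod m, ∃ M ∈ B, (M.map a).sum = c) (L : Fin e → ℕ) (hL : ∀ i, 2 ≤ L i)
    (hmin : ∀ M, M ∉ B → ∀ β ∈ B, (β.map a).sum = (M.map a).sum →
      (β.map L).sum + β.card ≤ (M.map L).sum)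
    (h3 : ∀ M ∈ B, M.card ≤ 3)
    (hcount : b 2 e + f 2 s ≤ ∑ j ∈ Ico 0 3, (U (deg B (j + 1))).card) :
    ∃ S : AddSubmonoid ℕ, (S : Set ℕ)ᶜ.Finite ∧ (minGens S).ncard = e + 1 ∧
      IsLeast {x | x ∈ S ∧ x ≠ 0} m ∧ ∀ R, Presents S R → b 2 e + f 2 s ≤ R.card + s := by
  have : NeZero m := ⟨by omega⟩
  set g : Fin e → ℕ := fun i => (a i).val + m * L i with hg
  have hcast : ∀ i, (g i : ZMod m) = a i := by
    intro i
    rw [hg]
    push_cast
    rw [ZMod.natCast_self, zero_mul, add_zero, ZMod.natCast_zmod_val]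
  have hcast' : (fun i => (g i : ZMod m)) = a := funext hcast
  have hinjOn : Set.InjOn (fun M : Multiset (Fin e) => (M.map a).sum) B := by
    apply injOn_of_surjOn_of_card_le (t := (univ : Finset (ZMod m)))
      (fun M : Multiset (Fin e) => (M.map a).sum)
    · intro M _; simp
    · intro c _
      obtain ⟨M, hM, h⟩ := hsurj c
      exact ⟨M, hM, h⟩
    · rw [card_univ, ZMod.card]; exact hcard
  have hBcard : B.card = m := by
    apply le_antisymm hcard
    have h1 : (univ : Finset (ZMod m)) ⊆ B.image fun M => (M.map a).sum := by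
      intro c _
      obtain ⟨M, hM, h⟩ := hsurj c
      exact mem_image.2 ⟨M, hM, h⟩
    have h2 := (card_le_card h1).trans card_image_le
    rwa [card_univ, ZMod.card] at h2
  have hT : Tile e m B a := ⟨hI.down, hI.zero, hI.one, hBcard, fun M hM N hN h => hinjOn hM hN h⟩
  -- value bounds
  have hlow : ∀ M : Multiset (Fin e), m * (M.map L).sum ≤ (M.map g).sum := by
    intro M
    induction M using Multiset.induction_on with
    | empty => simp
    | cons i M ih =>
      rw [Multiset.map_cons, Multiset.sum_cons, Multiset.map_cons, Multiset.sum_cons, mul_add]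
      have : m * L i ≤ g i := by rw [hg]; exact Nat.le_add_left _ _
      omega
  have hup : ∀ M : Multiset (Fin e), (M.map g).sum ≤ m * ((M.map L).sum + M.card) ∧
      (M ≠ 0 → (M.map g).sum < m * ((M.map L).sum + M.card)) := by
    intro M
    induction M using Multiset.induction_on with
    | empty => simp
    | cons i M ih =>
      rw [Multiset.map_cons, Multiset.sum_cons, Multiset.map_cons, Multiset.sum_cons,
        Multiset.card_cons]
      have h1 : g i < m * L i + m := by
        rw [hg]; have := ZMod.val_lt (a i); simp only; omega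
      have h2 : m * (L i + (M.map L).sum + (M.card + 1)) =
        (m * L i + m) + m * ((M.map L).sum + M.card) := by ring
      rw [h2]
      exact ⟨by omega, fun _ => by omega⟩
  have hmin' : ∀ M, M ∉ B → ∃ β ∈ B, ((β.map g).sum : ZMod m) = ((M.map g).sum : ZMod m) ∧
      (β.map g).sum < (M.map g).sum := by
    intro M hM
    have hres : ∀ M : Multiset (Fin e), (((M.map g).sum : ℕ) : ZMod m) = (M.map a).sum := by
      intro M
      rw [Nat.cast_multiset_sum, Multiset.map_map]
      congr 1
      exact Multiset.map_congr rfl fun i _ => hcast i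
    obtain ⟨β, hβ, h⟩ := hsurj (M.map a).sum
    refine ⟨β, hβ, by rw [hres, hres, h], ?_⟩
    have h1 := hmin M hM β hβ h
    have h2 := hlow M
    have hM0 : M ≠ 0 := fun h0 => hM (h0 ▸ hI.zero)
    by_cases hβ0 : β = 0
    · subst hβ0
      simp only [Multiset.map_zero, Multiset.sum_zero]
      obtain ⟨i, hi⟩ := Multiset.exists_mem_of_ne_zero hM0
      have h4 : g i ≤ (M.map g).sum := Multiset.single_le_sum (by simp) _ (Multiset.mem_map_of_mem g hi)
      have h5 : 0 < g i := by
        have := Nat.mul_pos (by omega : 0 < m) (by have := hL i; omega : 0 < L i)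
        rw [hg]; simp only; omega
      omega
    · have h3 := (hup β).2 hβ0
      have h4 : m * ((β.map L).sum + β.card) ≤ m * (M.map L).sum := Nat.mul_le_mul_left _ h1
      omega
  have hgm : ∀ i, m < g i := by
    intro i
    have : m * 2 ≤ m * L i := Nat.mul_le_mul_left _ (hL i)
    rw [hg]; simp only; omega
  obtain ⟨S, h1, h2, h4, h5⟩ := lower (by omega) g hgm B (by rw [hcast']; exact hT) hmin'
  refine ⟨S, h1, h2, h4, fun R hR => ?_⟩
  have h6 := h5 R hR
  have h7 := hI.count h3
  rw [hBcard] at h7
  omega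

/-- all quadratic monomials are minimal or in the ideal -/
theorem Ideal'.U_one {B : Finset (Multiset (Fin e))} (hI : Ideal' B) :
    b 2 e ≤ (U (deg B 1)).card := by
  rw [← card_allMon]
  apply card_le_card
  intro M hM
  rw [mem_allMon] at hM
  rw [mem_U]
  refine ⟨by rintro rfl; simp at hM, fun x hx => ?_⟩
  rw [hI.deg_one, mem_allMon, Multiset.card_erase_of_mem hx, hM]; rfl

/-- the generators: an enumeration of the residues outside `X`, `|X| = s + 1` -/
theorem exists_enum (hm : m = 1 + e + s) (X : Finset (ZMod m)) (_h0 : 0 ∈ X)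
    (hX : X.card = s + 1) : ∃ a : Fin e → ZMod m, Function.Injective a ∧ ∀ c, c ∉ X ↔ ∃ i, a i = c := by
  have : NeZero m := ⟨by omega⟩
  have hc : (univ \ X).card = e := by
    rw [card_sdiff_of_subset (subset_univ _), card_univ, ZMod.card]; omega
  set φ := (univ \ X).equivFinOfCardEq hc with hφ
  refine ⟨fun i => (φ.symm i : ZMod m), ?_, fun c => ⟨fun hcX => ?_, ?_⟩⟩
  · intro i j h
    exact φ.symm.injective (Subtype.ext h)
  · exact ⟨φ ⟨c, by simp [hcX]⟩, by simp⟩
  · rintro ⟨i, rfl⟩
    have := (φ.symm i).2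
    rw [mem_sdiff] at this
    exact this.2

/-- sizes of the parts of a Sidon set -/
theorem sidon_parts {A : Finset (ZMod m)} {d : ℕ} (h0 : 0 ∈ A) (hA : A.card = d + 1)
    (hAA : (A + A).card = (d + 2).choose 2) :
    Disjoint A (A.erase 0 + A.erase 0) ∧ (A.erase 0 + A.erase 0).card = b 2 d := by
  have h1 : (A.erase 0 + A.erase 0).card ≤ b 2 d := by
    have : A.erase 0 + A.erase 0 ⊆ (A.erase 0).sym2.image (Sym2.lift ⟨fun x y => x + y, fun x y => add_comm x y⟩) := by
      intro z hz
      obtain ⟨x, hx, y, hy, rfl⟩ := Finset.mem_add.1 hz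
      exact mem_image.2 ⟨s(x, y), by rw [mk_mem_sym2_iff]; exact ⟨hx, hy⟩, rfl⟩
    have h2 := (card_le_card this).trans card_image_le
    rw [card_sym2, card_erase_of_mem h0, hA] at h2
    rw [b_two]; exact h2
  have h2 : A + A ⊆ A ∪ (A.erase 0 + A.erase 0) := by
    intro z hz
    obtain ⟨x, hx, y, hy, rfl⟩ := Finset.mem_add.1 hz
    rw [mem_union]
    by_cases hx0 : x = 0
    · left; rw [hx0, zero_add]; exact hy
    by_cases hy0 : y = 0
    · left; rw [hy0, add_zero]; exact hx
    · right; exact Finset.add_mem_add (mem_erase.2 ⟨hx0, hx⟩) (mem_erase.2 ⟨hy0, hy⟩)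
  have h3 := card_le_card h2
  have h4 := card_union_le A (A.erase 0 + A.erase 0)
  have h5 : b 2 (d + 1) = b 2 d + b 1 (d + 1) := b_succ_succ _ _
  rw [b_one_left, b_two (d + 1)] at h5
  have h5' : (d + 2).choose 2 = b 2 d + (d + 1) := h5
  refine ⟨?_, by omega⟩
  rw [← card_union_eq_card_add_card]
  omega

/-- construction with a new variable `y` -/
theorem construct_y (hm : m = 1 + e + s) {d t : ℕ} (htd : t ≤ d) (hs : s = b 2 d + t)
    {A : Finset (ZMod m)} (h0 : 0 ∈ A) (hA : A.card = d + 1) (hAA : (A + A).card = (d + 2).choose 2)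
    {y : ZMod m} {T : Finset (ZMod m)} (hT : T ⊆ insert y A) (hT0 : 0 ∈ T) (hTc : T.card = t + 1)
    (hdis : Disjoint (T.image fun c => y + c) (A + A)) :
    ∃ S : AddSubmonoid ℕ, (S : Set ℕ)ᶜ.Finite ∧ (minGens S).ncard = e + 1 ∧
      IsLeast {x | x ∈ S ∧ x ≠ 0} m ∧ ∀ R, Presents S R → b 2 e + f 2 s ≤ R.card + s := by
  obtain ⟨k1, k2⟩ := sidon_parts h0 hA hAA
  have hsubAA : A.erase 0 + A.erase 0 ⊆ A + A := Finset.add_subset_add (erase_subset _ _) (erase_subset _ _)
  have hAsub : A ⊆ A + A := fun x hx => by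
    have := Finset.add_mem_add hx h0; rwa [add_zero] at this
  have hyAA : y ∉ A + A := by
    rw [disjoint_left] at hdis
    exact hdis (mem_image.2 ⟨0, hT0, add_zero y⟩)
  -- the nonlinear residues
  set Y := (T.erase 0).image fun c => y + c with hY
  have hYc : Y.card = t := by
    rw [hY, card_image_of_injective _ (add_right_injective y), card_erase_of_mem hT0, hTc]; rfl
  have hYdis : Disjoint Y (A + A) := by
    apply disjoint_of_subset_left _ hdis
    exact image_subset_image (erase_subset _ _)
  have hyY : y ∉ Y := by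
    rw [hY, mem_image]
    rintro ⟨c, hc, h⟩
    exact (mem_erase.1 hc).1 (by simpa using h)
  set X := insert 0 ((A.erase 0 + A.erase 0) ∪ Y) with hX
  have hXc : X.card = s + 1 := by
    rw [hX, card_insert_of_notMem, card_union_of_disjoint, k2, hYc, hs]
    · exact (disjoint_of_subset_left hsubAA hYdis.symm)
    · rw [mem_union, not_or]
      exact ⟨disjoint_left.1 k1 h0, fun h => disjoint_left.1 hYdis h (hAsub h0)⟩
  obtain ⟨a, ha, haX⟩ := exists_enum hm X (mem_insert_self _ _) hXc
  have hAex : ∀ x ∈ A, x ≠ 0 → ∃ i, a i = x := by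
    intro x hx hx0
    rw [← haX, hX, mem_insert, mem_union, not_or, not_or]
    exact ⟨hx0, disjoint_left.1 k1 hx, fun h => disjoint_left.1 hYdis h (hAsub hx)⟩
  obtain ⟨y0, hy0⟩ : ∃ i, a i = y := by
    rw [← haX, hX, mem_insert, mem_union, not_or, not_or]
    exact ⟨fun h => hyAA (h ▸ hAsub h0), fun h => hyAA (hsubAA h), hyY⟩
  have ha0 : ∀ i, a i ≠ 0 := by
    intro i h
    exact (haX 0).2 ⟨i, h⟩ (mem_insert_self _ _)
  set D : Finset (Fin e) := univ.filter fun i => a i ∈ A with hD
  set W : Finset (Fin e) := univ.filter fun i => a i ∈ T with hW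
  have hy0D : y0 ∉ D := by
    rw [hD, mem_filter, hy0]; exact fun h => hyAA (hAsub h.2)
  have hDimg : D.image a = A.erase 0 := by
    ext c
    rw [mem_image, mem_erase]
    constructor
    · rintro ⟨i, hi, rfl⟩; exact ⟨ha0 i, (mem_filter.1 hi).2⟩
    · rintro ⟨h1, h2⟩
      obtain ⟨i, rfl⟩ := hAex c h2 h1
      exact ⟨i, mem_filter.2 ⟨mem_univ _, h2⟩, rfl⟩
  have hDc : D.card = d := by
    rw [← card_image_of_injective _ ha, hDimg, card_erase_of_mem h0, hA]; rfl
  have hWimg : W.image a = T.erase 0 := by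
    ext c
    rw [mem_image, mem_erase]
    constructor
    · rintro ⟨i, hi, rfl⟩; exact ⟨ha0 i, (mem_filter.1 hi).2⟩
    · rintro ⟨h1, h2⟩
      rcases mem_insert.1 (hT h2) with rfl | h3
      · exact ⟨y0, mem_filter.2 ⟨mem_univ _, by rw [hy0]; exact h2⟩, hy0⟩
      · obtain ⟨i, rfl⟩ := hAex c h3 h1
        exact ⟨i, mem_filter.2 ⟨mem_univ _, h2⟩, rfl⟩
  have hWc : W.card = t := by
    rw [← card_image_of_injective _ ha, hWimg, card_erase_of_mem hT0, hTc]; rfl
  have hWD : ∀ c ∈ W, c ∈ D ∨ c = y0 := by
    intro c hc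
    rcases mem_insert.1 (hT (mem_filter.1 hc).2) with h | h
    · right; exact ha (by rw [h, hy0])
    · left; exact mem_filter.2 ⟨mem_univ _, h⟩
  -- the ideal
  set B : Finset (Multiset (Fin e)) :=
    allMon e 0 ∪ allMon e 1 ∪ monD D 2 ∪ W.image fun c => ({y0, c} : Multiset (Fin e)) with hB
  have hmemB : ∀ M, M ∈ B ↔ M.card = 0 ∨ M.card = 1 ∨ (M.card = 2 ∧ ∀ x ∈ M, x ∈ D) ∨
      ∃ c ∈ W, ({y0, c} : Multiset (Fin e)) = M := by
    intro M
    rw [hB, mem_union, mem_union, mem_union, mem_allMon, mem_allMon, mem_monD, mem_image, or_assoc,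
      or_assoc]
  have hle2 : ∀ M ∈ B, M.card ≤ 2 := by
    intro M hM
    rcases (hmemB M).1 hM with h | h | ⟨h, _⟩ | ⟨c, _, rfl⟩
    · omega
    · omega
    · omega
    · simp
  have hI : Ideal' B := by
    refine ⟨fun M hM N hN => ?_, (hmemB 0).2 (Or.inl rfl), fun i => (hmemB _).2 (Or.inr (Or.inl rfl))⟩
    have h1 := hle2 M hM
    have h2 := Multiset.card_le_card hN
    rcases Nat.lt_or_ge N.card 2 with h3 | h3
    · rw [hmemB]; omega
    · rw [Multiset.eq_of_le_of_card_le hN (by omega)]; exact hM
  have hcard : B.card ≤ m := by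
    have c1 := card_union_le (allMon e 0 ∪ allMon e 1 ∪ monD D 2) (W.image fun c => ({y0, c} : Multiset (Fin e)))
    have c2 := card_union_le (allMon e 0 ∪ allMon e 1) (monD D 2)
    have c3 := card_union_le (allMon e 0) (allMon e 1)
    have c4 : (W.image fun c => ({y0, c} : Multiset (Fin e))).card ≤ W.card := card_image_le
    rw [card_allMon, card_allMon, b_zero, b_one_left] at c3
    rw [card_monD, hDc] at c2
    rw [hB]
    omega
  have hsurj : ∀ c : ZMod m, ∃ M ∈ B, (M.map a).sum = c := by
    intro c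
    by_cases hc : c ∈ X
    · rw [hX, mem_insert, mem_union] at hc
      rcases hc with rfl | hc | hc
      · exact ⟨0, hI.zero, by simp⟩
      · obtain ⟨x, hx, x', hx', rfl⟩ := Finset.mem_add.1 hc
        rw [← hDimg, mem_image] at hx hx'
        obtain ⟨i, hi, rfl⟩ := hx
        obtain ⟨j, hj, rfl⟩ := hx'
        refine ⟨{i, j}, (hmemB _).2 (Or.inr (Or.inr (Or.inl ⟨by simp, ?_⟩))), by simp⟩
        intro z hz
        simp only [Multiset.insert_eq_cons, Multiset.mem_cons, Multiset.mem_singleton] at hz
        rcases hz with rfl | rfl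
        · exact hi
        · exact hj
      · obtain ⟨w, hw, rfl⟩ := mem_image.1 hc
        rw [← hWimg, mem_image] at hw
        obtain ⟨i, hi, rfl⟩ := hw
        exact ⟨{y0, i}, (hmemB _).2 (Or.inr (Or.inr (Or.inr ⟨i, hi, rfl⟩))), by simp [hy0]⟩
    · obtain ⟨i, hi⟩ := (haX c).1 hc
      exact ⟨{i}, hI.one i, by simpa using hi⟩
  set L : Fin e → ℕ := fun i => if i ∈ D then 100 else if i = y0 then 120 else 190 with hLdef
  have hLD : ∀ i ∈ D, L i = 100 := fun i hi => by simp [hLdef, hi]
  have hLy : L y0 = 120 := by simp [hLdef, hy0D]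
  have hLo : ∀ i, i ∉ D → i ≠ y0 → L i = 190 := fun i h1 h2 => by simp [hLdef, h1, h2]
  have hL100 : ∀ i, 100 ≤ L i := by
    intro i
    by_cases h1 : i ∈ D
    · rw [hLD i h1]
    · by_cases h2 : i = y0
      · rw [h2, hLy]; omega
      · rw [hLo i h1 h2]; omega
  have hL190 : ∀ i, L i ≤ 190 := by
    intro i
    by_cases h1 : i ∈ D
    · rw [hLD i h1]; omega
    · by_cases h2 : i = y0
      · rw [h2, hLy]; omega
      · rw [hLo i h1 h2]
  have hwt : ∀ M : Multiset (Fin e), 100 * M.card ≤ (M.map L).sum := by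
    intro M
    induction M using Multiset.induction_on with
    | empty => simp
    | cons i M ih =>
      rw [Multiset.map_cons, Multiset.sum_cons, Multiset.card_cons]
      have := hL100 i
      omega
  refine exists_sgp hm a B hI hcard hsurj L (fun i => by have := hL100 i; omega) ?_
    (fun M hM => (hle2 M hM).trans (by omega)) ?_
  · intro M hM β hβ hres
    have hM2 : 2 ≤ M.card := by
      by_contra h
      exact hM ((hmemB M).2 (by omega))
    have hwM := hwt M
    -- bound for `β`
    have hβb : (β.map L).sum + β.card ≤ 202 ∨ ∃ c ∈ W, β = {y0, c} := by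
      rcases (hmemB β).1 hβ with h | h | ⟨h, h'⟩ | ⟨c, hc, rfl⟩
      · left; rw [Multiset.card_eq_zero] at h; subst h; simp
      · left
        obtain ⟨i, rfl⟩ := Multiset.card_eq_one.1 h
        have := hL190 i
        simp only [Multiset.map_singleton, Multiset.sum_singleton, Multiset.card_singleton]
        omega
      · left
        obtain ⟨i, j, rfl⟩ := Multiset.card_eq_two.1 h
        have h1 := hLD i (h' i (by simp))
        have h2 := hLD j (h' j (by simp))
        simp [h1, h2]
      · right; exact ⟨c, hc, rfl⟩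
    have hWL : ∀ c ∈ W, L c ≤ 120 := by
      intro c hc
      rcases hWD c hc with h | h
      · rw [hLD c h]; omega
      · rw [h, hLy]
    rcases Nat.lt_or_ge 2 M.card with h3 | h3
    · rcases hβb with h | ⟨c, hc, rfl⟩
      · omega
      · have := hWL c hc
        simp only [Multiset.insert_eq_cons, Multiset.map_cons, Multiset.map_singleton,
          Multiset.sum_cons, Multiset.sum_singleton, Multiset.card_cons, Multiset.card_singleton]
        omega
    · obtain ⟨i, j, rfl⟩ := Multiset.card_eq_two.1 (le_antisymm h3 hM2)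
      -- classification
      have key : ∀ i j, ({i, j} : Multiset (Fin e)) ∉ B → (290 ≤ L i + L j) ∨ (i = y0 ∧ j ∉ W ∧ (j ∈ D ∨ j = y0)) ∨
          (j = y0 ∧ i ∉ W ∧ (i ∈ D ∨ i = y0)) := by
        intro i j hij
        have hijD : ¬ (i ∈ D ∧ j ∈ D) := by
          rintro ⟨h1, h2⟩
          apply hij
          rw [hmemB]
          refine Or.inr (Or.inr (Or.inl ⟨by simp, ?_⟩))
          intro z hz
          simp only [Multiset.insert_eq_cons, Multiset.mem_cons, Multiset.mem_singleton] at hz
          rcases hz with rfl | rfl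
          · exact h1
          · exact h2
        have hWi : ∀ c, ({i, j} : Multiset (Fin e)) = {y0, c} → c ∉ W := by
          intro c h hc
          exact hij ((hmemB _).2 (Or.inr (Or.inr (Or.inr ⟨c, hc, h.symm⟩))))
        by_cases h1 : i ∈ D <;> by_cases h2 : j ∈ D
        · exact absurd ⟨h1, h2⟩ hijD
        · by_cases h3 : j = y0
          · right; right
            exact ⟨h3, hWi i (by rw [h3]; exact Multiset.pair_comm _ _), Or.inl h1⟩
          · left; rw [hLD i h1, hLo j h2 h3]
        · by_cases h3 : i = y0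
          · right; left
            exact ⟨h3, hWi j (by rw [h3]), Or.inl h2⟩
          · left; rw [hLD j h2, hLo i h1 h3]
        · by_cases h3 : i = y0 <;> by_cases h4 : j = y0
          · right; left
            exact ⟨h3, hWi j (by rw [h3]), Or.inr h4⟩
          · left; rw [hLo j h2 h4]; have := hL100 i; omega
          · left; rw [hLo i h1 h3]; have := hL100 j; omega
          · left; rw [hLo i h1 h3, hLo j h2 h4]; omega
      have fin : ∀ j, j ∉ W → (j ∈ D ∨ j = y0) → (β.map a).sum = a y0 + a j →
          (β.map L).sum + β.card ≤ L y0 + L j := by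
        intro j hjW hj hres
        have h5 := hL100 j
        rcases hβb with h | ⟨c, hc, rfl⟩
        · rw [hLy]; omega
        · exfalso
          have h6 : a c = a j := by simpa [hy0] using hres
          exact hjW (ha h6 ▸ hc)
      simp only [Multiset.insert_eq_cons, Multiset.map_cons, Multiset.map_singleton,
        Multiset.sum_cons, Multiset.sum_singleton] at hres ⊢
      rcases key i j hM with h | ⟨rfl, h1, h2⟩ | ⟨rfl, h1, h2⟩
      · rcases hβb with h' | ⟨c, hc, rfl⟩
        · omega
        · have := hWL c hc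
          simp only [Multiset.insert_eq_cons, Multiset.map_cons, Multiset.map_singleton,
            Multiset.sum_cons, Multiset.sum_singleton, Multiset.card_cons, Multiset.card_singleton]
          omega
      · exact fin j h1 h2 hres
      · rw [add_comm (L i)]
        exact fin i h1 h2 (by rw [hres, add_comm])
  · -- counting
    have hdeg2 : ∀ M, M ∈ deg B 2 ↔ (M.card = 2 ∧ ∀ x ∈ M, x ∈ D) ∨ ∃ c ∈ W, ({y0, c} : Multiset (Fin e)) = M := by
      intro M
      rw [mem_deg, hmemB]
      constructor
      · rintro ⟨h1 | h1 | h1 | h1, h2⟩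
        · omega
        · omega
        · exact Or.inl h1
        · exact Or.inr h1
      · rintro (h1 | ⟨c, hc, rfl⟩)
        · exact ⟨Or.inr (Or.inr (Or.inl h1)), h1.1⟩
        · exact ⟨Or.inr (Or.inr (Or.inr ⟨c, hc, rfl⟩)), by simp⟩
    have hU2 : f 2 s ≤ (U (deg B 2)).card := by
      have hrec : f 2 (b 2 d + t) = b 3 d + f 1 t := f_rec (by rw [Nat.zero_add, b_one_left]; omega)
      rw [hs, hrec, f_one, ← b_two]
      have h1 : (monD D 3 ∪ (monD W 2).image fun N => y0 ::ₘ N) ⊆ U (deg B 2) := by
        intro M hM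
        rw [mem_union] at hM
        rcases hM with hM | hM
        · rw [mem_monD] at hM
          rw [mem_U]
          refine ⟨by rintro rfl; simp at hM, fun x hx => ?_⟩
          rw [hdeg2]
          left
          refine ⟨by rw [Multiset.card_erase_of_mem hx, hM.1]; rfl, fun z hz => hM.2 z (Multiset.mem_of_mem_erase hz)⟩
        · obtain ⟨N, hN, rfl⟩ := mem_image.1 hM
          rw [mem_monD] at hN
          obtain ⟨hN2, hNW⟩ := hN
          obtain ⟨u, v, rfl⟩ := Multiset.card_eq_two.1 hN2
          have hu : u ∈ W := hNW u (by simp)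
          have hv : v ∈ W := hNW v (by simp)
          -- `{u, v}` is in the ideal
          have huv : ({u, v} : Multiset (Fin e)) ∈ deg B 2 := by
            rw [hdeg2]
            rcases hWD u hu with h1 | h1
            · rcases hWD v hv with h2 | h2
              · left
                refine ⟨by simp, fun z hz => ?_⟩
                simp only [Multiset.insert_eq_cons, Multiset.mem_cons, Multiset.mem_singleton] at hz
                rcases hz with rfl | rfl
                · exact h1
                · exact h2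
              · right; exact ⟨u, hu, by rw [h2]; exact Multiset.pair_comm _ _⟩
            · right; exact ⟨v, hv, by rw [h1]⟩
          have hyu : (y0 ::ₘ {u} : Multiset (Fin e)) ∈ deg B 2 := by
            rw [hdeg2]; right; exact ⟨u, hu, rfl⟩
          have hyv : (y0 ::ₘ {v} : Multiset (Fin e)) ∈ deg B 2 := by
            rw [hdeg2]; right; exact ⟨v, hv, rfl⟩
          have e0 : (y0 ::ₘ {u, v} : Multiset (Fin e)) = u ::ₘ (y0 ::ₘ {v}) := by
            rw [Multiset.cons_swap]; rfl
          have e1 : (y0 ::ₘ {u, v} : Multiset (Fin e)) = v ::ₘ (y0 ::ₘ {u}) := by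
            rw [Multiset.cons_swap, Multiset.pair_comm]; rfl
          rw [mem_U]
          refine ⟨by simp, fun x hx => ?_⟩
          simp only [Multiset.insert_eq_cons, Multiset.mem_cons, Multiset.mem_singleton] at hx
          rcases hx with rfl | rfl | rfl
          · rw [Multiset.erase_cons_head]; exact huv
          · rw [e0, Multiset.erase_cons_head]; exact hyv
          · rw [e1, Multiset.erase_cons_head]; exact hyu
      refine le_trans ?_ (card_le_card h1)
      rw [card_union_of_disjoint, card_monD, hDc, card_image_of_injective, card_monD, hWc]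
      · intro N N' h; exact (Multiset.cons_inj_right y0).1 h
      · rw [disjoint_left]
        intro M hM hM'
        obtain ⟨N, _, rfl⟩ := mem_image.1 hM'
        exact hy0D ((mem_monD.1 hM).2 y0 (Multiset.mem_cons_self _ _))
    have hU1 := hI.U_one
    rw [← range_eq_Ico, sum_range_succ, sum_range_succ, sum_range_succ, sum_range_zero]
    simp only [Nat.zero_add, Nat.reduceAdd]
    omega


/-- construction with a cube -/
theorem construct_x (hm : m = 1 + e + s) {d : ℕ} (hs : s = b 2 d + 1)
    {A : Finset (ZMod m)} (h0 : 0 ∈ A) (hA : A.card = d + 1) (hAA : (A + A).card = (d + 2).choose 2)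
    {x : ZMod m} (hx : x ∈ A) (h3x : 3 * x ∉ A + A) :
    ∃ S : AddSubmonoid ℕ, (S : Set ℕ)ᶜ.Finite ∧ (minGens S).ncard = e + 1 ∧
      IsLeast {x | x ∈ S ∧ x ≠ 0} m ∧ ∀ R, Presents S R → b 2 e + f 2 s ≤ R.card + s := by
  obtain ⟨k1, k2⟩ := sidon_parts h0 hA hAA
  have hsubAA : A.erase 0 + A.erase 0 ⊆ A + A := Finset.add_subset_add (erase_subset _ _) (erase_subset _ _)
  have hAsub : A ⊆ A + A := fun x hx => by
    have := Finset.add_mem_add hx h0; rwa [add_zero] at this
  have hx0 : x ≠ 0 := by
    rintro rfl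
    rw [mul_zero] at h3x
    exact h3x (hAsub h0)
  -- the nonlinear residues
  set X := insert 0 (insert (3 * x) (A.erase 0 + A.erase 0)) with hX
  have hXc : X.card = s + 1 := by
    rw [hX, card_insert_of_notMem, card_insert_of_notMem, k2, hs]
    · exact fun h => h3x (hsubAA h)
    · rw [mem_insert, not_or]
      exact ⟨fun h => h3x (h ▸ hAsub h0), disjoint_left.1 k1 h0⟩
  obtain ⟨a, ha, haX⟩ := exists_enum hm X (mem_insert_self _ _) hXc
  have hAex : ∀ x ∈ A, x ≠ 0 → ∃ i, a i = x := by
    intro z hz hz0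
    rw [← haX, hX, mem_insert, mem_insert, not_or, not_or]
    exact ⟨hz0, fun h => h3x (h ▸ hAsub hz), disjoint_left.1 k1 hz⟩
  obtain ⟨x0, hx0'⟩ := hAex x hx hx0
  have ha0 : ∀ i, a i ≠ 0 := by
    intro i h
    exact (haX 0).2 ⟨i, h⟩ (mem_insert_self _ _)
  set D : Finset (Fin e) := univ.filter fun i => a i ∈ A with hD
  have hx0D : x0 ∈ D := by
    rw [hD, mem_filter, hx0']; exact ⟨mem_univ _, hx⟩
  have hDimg : D.image a = A.erase 0 := by
    ext c
    rw [mem_image, mem_erase]
    constructor
    · rintro ⟨i, hi, rfl⟩; exact ⟨ha0 i, (mem_filter.1 hi).2⟩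
    · rintro ⟨h1, h2⟩
      obtain ⟨i, rfl⟩ := hAex c h2 h1
      exact ⟨i, mem_filter.2 ⟨mem_univ _, h2⟩, rfl⟩
  have hDc : D.card = d := by
    rw [← card_image_of_injective _ ha, hDimg, card_erase_of_mem h0, hA]; rfl
  -- the ideal
  set B : Finset (Multiset (Fin e)) :=
    allMon e 0 ∪ allMon e 1 ∪ monD D 2 ∪ {Multiset.replicate 3 x0} with hB
  have hmemB : ∀ M, M ∈ B ↔ M.card = 0 ∨ M.card = 1 ∨ (M.card = 2 ∧ ∀ x ∈ M, x ∈ D) ∨
      M = Multiset.replicate 3 x0 := by
    intro M
    rw [hB, mem_union, mem_union, mem_union, mem_allMon, mem_allMon, mem_monD, mem_singleton, or_assoc,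
      or_assoc]
  have hle3 : ∀ M ∈ B, M.card ≤ 3 := by
    intro M hM
    rcases (hmemB M).1 hM with h | h | ⟨h, _⟩ | rfl
    · omega
    · omega
    · omega
    · simp
  have hI : Ideal' B := by
    refine ⟨fun M hM N hN => ?_, (hmemB 0).2 (Or.inl rfl), fun i => (hmemB _).2 (Or.inr (Or.inl rfl))⟩
    have h2 := Multiset.card_le_card hN
    rcases (hmemB M).1 hM with h | h | ⟨h, h'⟩ | rfl
    · rw [hmemB]; omega
    · rw [hmemB]; omega
    · rcases Nat.lt_or_ge N.card 2 with h3 | h3
      · rw [hmemB]; omega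
      · rw [Multiset.eq_of_le_of_card_le hN (by omega)]; exact hM
    · obtain ⟨k, hk, rfl⟩ := Multiset.le_replicate_iff.1 hN
      rw [hmemB, Multiset.card_replicate]
      have : k = 0 ∨ k = 1 ∨ k = 2 ∨ k = 3 := by omega
      rcases this with rfl | rfl | rfl | rfl
      · exact Or.inl rfl
      · exact Or.inr (Or.inl rfl)
      · refine Or.inr (Or.inr (Or.inl ⟨rfl, fun z hz => ?_⟩))
        rw [Multiset.eq_of_mem_replicate hz]; exact hx0D
      · exact Or.inr (Or.inr (Or.inr rfl))
  have hcard : B.card ≤ m := by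
    have c1 := card_union_le (allMon e 0 ∪ allMon e 1 ∪ monD D 2) {Multiset.replicate 3 x0}
    have c2 := card_union_le (allMon e 0 ∪ allMon e 1) (monD D 2)
    have c3 := card_union_le (allMon e 0) (allMon e 1)
    rw [card_allMon, card_allMon, b_zero, b_one_left] at c3
    rw [card_monD, hDc] at c2
    rw [card_singleton] at c1
    rw [hB]
    omega
  have hsurj : ∀ c : ZMod m, ∃ M ∈ B, (M.map a).sum = c := by
    intro c
    by_cases hc : c ∈ X
    · rw [hX, mem_insert, mem_insert] at hc
      rcases hc with rfl | rfl | hc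
      · exact ⟨0, hI.zero, by simp⟩
      · refine ⟨Multiset.replicate 3 x0, (hmemB _).2 (Or.inr (Or.inr (Or.inr rfl))), ?_⟩
        rw [Multiset.map_replicate, Multiset.sum_replicate, nsmul_eq_mul, hx0']; norm_num
      · obtain ⟨x, hx, x', hx', rfl⟩ := Finset.mem_add.1 hc
        rw [← hDimg, mem_image] at hx hx'
        obtain ⟨i, hi, rfl⟩ := hx
        obtain ⟨j, hj, rfl⟩ := hx'
        refine ⟨{i, j}, (hmemB _).2 (Or.inr (Or.inr (Or.inl ⟨by simp, ?_⟩))), by simp⟩
        intro z hz
        simp only [Multiset.insert_eq_cons, Multiset.mem_cons, Multiset.mem_singleton] at hz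
        rcases hz with rfl | rfl
        · exact hi
        · exact hj
    · obtain ⟨i, hi⟩ := (haX c).1 hc
      exact ⟨{i}, hI.one i, by simpa using hi⟩
  set L : Fin e → ℕ := fun i => if i = x0 then 100 else if i ∈ D then 110 else 250 with hLdef
  have hLx : L x0 = 100 := by simp [hLdef]
  have hLD : ∀ i ∈ D, L i ≤ 110 := fun i hi => by
    by_cases h : i = x0
    · rw [h, hLx]; omega
    · simp [hLdef, h, hi]
  have hLn : ∀ i, i ≠ x0 → 110 ≤ L i := fun i h => by
    by_cases h' : i ∈ D <;> simp [hLdef, h, h']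
  have hLo : ∀ i, i ∉ D → L i = 250 := fun i h1 => by
    have h2 : i ≠ x0 := fun h => h1 (h ▸ hx0D)
    simp [hLdef, h1, h2]
  have hL100 : ∀ i, 100 ≤ L i := by
    intro i
    by_cases h2 : i = x0
    · rw [h2, hLx]
    · have := hLn i h2; omega
  have hL250 : ∀ i, L i ≤ 250 := by
    intro i
    by_cases h1 : i ∈ D
    · have := hLD i h1; omega
    · rw [hLo i h1]
  have hwt : ∀ M : Multiset (Fin e), 100 * M.card ≤ (M.map L).sum := by
    intro M
    induction M using Multiset.induction_on with
    | empty => simp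
    | cons i M ih =>
      rw [Multiset.map_cons, Multiset.sum_cons, Multiset.card_cons]
      have := hL100 i
      omega
  refine exists_sgp hm a B hI hcard hsurj L (fun i => by have := hL100 i; omega) ?_
    hle3 ?_
  · intro M hM β hβ hres
    have hM2 : 2 ≤ M.card := by
      by_contra h
      exact hM ((hmemB M).2 (by omega))
    have hwM := hwt M
    -- bound for `β`
    have hβb : (β.map L).sum + β.card ≤ 303 := by
      rcases (hmemB β).1 hβ with h | h | ⟨h, h'⟩ | rfl
      · rw [Multiset.card_eq_zero] at h; subst h; simp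
      · obtain ⟨i, rfl⟩ := Multiset.card_eq_one.1 h
        have := hL250 i
        simp only [Multiset.map_singleton, Multiset.sum_singleton, Multiset.card_singleton]
        omega
      · obtain ⟨i, j, rfl⟩ := Multiset.card_eq_two.1 h
        have h1 := hLD i (h' i (by simp))
        have h2 := hLD j (h' j (by simp))
        simp only [Multiset.insert_eq_cons, Multiset.map_cons, Multiset.map_singleton,
          Multiset.sum_cons, Multiset.sum_singleton, Multiset.card_cons, Multiset.card_singleton]
        omega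
      · rw [Multiset.map_replicate, Multiset.sum_replicate, hLx, Multiset.card_replicate]
        simp
    rcases Nat.lt_or_ge 3 M.card with h4 | h4
    · omega
    rcases Nat.lt_or_ge 2 M.card with h3 | h3
    · -- degree three
      have h5 : ∃ i ∈ M, i ≠ x0 := by
        by_contra hcon
        push Not at hcon
        exact hM ((hmemB M).2 (Or.inr (Or.inr (Or.inr
          (Multiset.eq_replicate.2 ⟨le_antisymm h4 h3, hcon⟩)))))
      obtain ⟨i, hi, hix⟩ := h5
      obtain ⟨N, rfl⟩ := Multiset.exists_cons_of_mem hi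
      have h6 := hLn i hix
      have h7 := hwt N
      rw [Multiset.card_cons] at h3
      rw [Multiset.map_cons, Multiset.sum_cons]
      omega
    · have h5 : ∃ i ∈ M, i ∉ D := by
        by_contra hcon
        push Not at hcon
        exact hM ((hmemB M).2 (Or.inr (Or.inr (Or.inl ⟨le_antisymm h3 hM2, hcon⟩))))
      obtain ⟨i, hi, hix⟩ := h5
      obtain ⟨N, rfl⟩ := Multiset.exists_cons_of_mem hi
      have h6 := hLo i hix
      have h7 := hwt N
      rw [Multiset.card_cons] at hM2
      rw [Multiset.map_cons, Multiset.sum_cons]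
      omega
  · -- counting
    have hU2 : b 3 d ≤ (U (deg B 2)).card := by
      rw [← hDc, ← card_monD]
      apply card_le_card
      intro M hM
      rw [mem_monD] at hM
      rw [mem_U]
      refine ⟨by rintro rfl; simp at hM, fun x hx => ?_⟩
      have h1 : (M.erase x).card = 2 := by rw [Multiset.card_erase_of_mem hx, hM.1]; rfl
      rw [mem_deg, hmemB]
      exact ⟨Or.inr (Or.inr (Or.inl ⟨h1, fun z hz => hM.2 z (Multiset.mem_of_mem_erase hz)⟩)), h1⟩
    have hU3 : 1 ≤ (U (deg B 3)).card := by
      apply card_pos.2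
      refine ⟨Multiset.replicate 4 x0, ?_⟩
      rw [mem_U]
      refine ⟨by simp, fun x hx => ?_⟩
      rw [Multiset.eq_of_mem_replicate hx]
      have : (Multiset.replicate 4 x0).erase x0 = Multiset.replicate 3 x0 := by
        rw [Multiset.replicate_succ, Multiset.erase_cons_head]
      rw [this, mem_deg, hmemB]
      exact ⟨Or.inr (Or.inr (Or.inr rfl)), by simp⟩
    have hf : f 2 s = b 3 d + 1 := by
      have hrec : f 2 (b 2 d + 1) = b 3 d + f 1 1 := f_rec (by rw [Nat.zero_add, b_one_left]; omega)
      rw [hs, hrec]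
      have := two_f_one 1
      omega
    have hU1 := hI.U_one
    rw [← range_eq_Ico, sum_range_succ, sum_range_succ, sum_range_succ, sum_range_zero]
    simp only [Nat.zero_add, Nat.reduceAdd]
    omega

/-- the if direction for `r = 2` -/
theorem exists_of_cond (hm : m = 1 + e + s) (hs : s < b 2 e) (hC : Cond m s) :
    ∃ S : AddSubmonoid ℕ, (S : Set ℕ)ᶜ.Finite ∧ (minGens S).ncard = e + 1 ∧
      IsLeast {x | x ∈ S ∧ x ≠ 0} m ∧ ∀ R, Presents S R → b 2 e + f 2 s ≤ R.card + s := by
  obtain ⟨d, t, htd, hst, A, h0, hA, hAA, h⟩ := hC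
  rw [← b_two] at hst
  rcases h with rfl | ⟨y, T, hT, hT0, hTc, hdis⟩ | ⟨rfl, x, hx, h3x⟩
  · -- choose any `y` outside `A + A`
    have : NeZero m := ⟨by omega⟩
    have hde : d < e := by
      by_contra hcon
      have := (b_strictMono 1).monotone (not_lt.1 hcon)
      simp only [Nat.reduceAdd] at this
      omega
    have h5 : b 2 (d + 1) = b 2 d + b 1 (d + 1) := b_succ_succ _ _
    rw [b_one_left, b_two (d + 1)] at h5
    have h5' : (d + 2).choose 2 = b 2 d + (d + 1) := h5
    obtain ⟨y, hy⟩ : ∃ y, y ∉ A + A := by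
      by_contra hcon
      push Not at hcon
      have : A + A = univ := by ext z; simp [hcon z]
      rw [this, card_univ, ZMod.card] at hAA
      omega
    refine construct_y hm (t := 0) htd hst h0 hA hAA (y := y) (T := {0}) ?_ (mem_singleton_self _)
      (card_singleton _) ?_
    · rw [singleton_subset_iff]; exact mem_insert_of_mem h0
    · simpa using hy
  · exact construct_y hm htd hst h0 hA hAA hT hT0 hTc hdis
  · exact construct_x hm hst h0 hA hAA hx h3x

end NS57
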