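import Pool.Agent.Helper57.NSDefs

/-!
Explicit consequences of the combinatorial condition.
-/

namespace NS57

open Finset
open scoped Pointwise

set_option linter.unusedSectionVars false

variable {G : Type*} [AddCommGroup G] [DecidableEq G]

/-- Sidon sets -/
def IsSid (A : Finset G) : Prop :=
  ∀ a ∈ A, ∀ b ∈ A, ∀ c ∈ A, ∀ d ∈ A, a + b = c + d → (a = c ∧ b = d) ∨ (a = d ∧ b = c)

/-- the sum of an unordered pair -/
def sumS : Sym2 G → G := Sym2.lift ⟨fun x y => x + y, fun x y => add_comm x y⟩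

theorem add_eq_image (A : Finset G) : A + A = A.sym2.image sumS := by
  ext z
  rw [Finset.mem_add, mem_image]
  constructor
  · rintro ⟨x, hx, y, hy, rfl⟩
    exact ⟨s(x, y), by rw [mk_mem_sym2_iff]; exact ⟨hx, hy⟩, rfl⟩
  · rintro ⟨p, hp, rfl⟩
    induction p with
    | _ x y =>
      rw [mk_mem_sym2_iff] at hp
      exact ⟨x, hp.1, y, hp.2, rfl⟩

theorem isSid_iff (A : Finset G) : IsSid A ↔ (A + A).card = (A.card + 1).choose 2 := by
  rw [add_eq_image, ← card_sym2, card_image_iff]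
  constructor
  · intro h p hp q hq hpq
    induction p with
    | _ x y =>
      induction q with
      | _ z w =>
        rw [mem_coe, mk_mem_sym2_iff] at hp hq
        have := h x hp.1 y hp.2 z hq.1 w hq.2 hpq
        rw [Sym2.eq_iff]
        exact this
  · intro h a ha b hb c hc d hd habcd
    have h1 : s(a, b) = s(c, d) := h (by rw [mem_coe, mk_mem_sym2_iff]; exact ⟨ha, hb⟩)
      (by rw [mem_coe, mk_mem_sym2_iff]; exact ⟨hc, hd⟩) habcd
    rwa [Sym2.eq_iff] at h1

theorem IsSid.mono {A B : Finset G} (h : IsSid B) (hAB : A ⊆ B) : IsSid A :=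
  fun a ha b hb c hc d hd => h a (hAB ha) b (hAB hb) c (hAB hc) d (hAB hd)

/-- differences of distinct elements are distinct -/
theorem IsSid.diff_inj {A : Finset G} (h : IsSid A) :
    Set.InjOn (fun p : G × G => p.1 - p.2) (A.offDiag : Set (G × G)) := by
  rintro ⟨a, b⟩ hab ⟨c, d⟩ hcd heq
  rw [mem_coe, mem_offDiag] at hab hcd
  simp only at heq hab hcd
  have h1 : a + d = c + b := by
    have : a = c - d + b := by rw [← heq]; abel
    rw [this]; abel
  rcases h a hab.1 d hcd.2.1 c hcd.1 b hab.2.1 h1 with ⟨h2, h3⟩ | ⟨h2, _⟩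
  · rw [h2, h3]
  · exact absurd h2 hab.2.2

theorem IsSid.image_diff_subset {A : Finset G} [Fintype G] :
    (A.offDiag.image fun p : G × G => p.1 - p.2) ⊆ univ.erase 0 := by
  intro x hx
  obtain ⟨p, hp, rfl⟩ := mem_image.1 hx
  rw [mem_offDiag] at hp
  rw [mem_erase]
  exact ⟨sub_ne_zero.2 hp.2.2, mem_univ _⟩

theorem IsSid.card_le {A : Finset G} [Fintype G] (h : IsSid A) {d : ℕ} (hA : A.card = d + 1) :
    d ^ 2 + d + 1 ≤ Fintype.card G := by
  have h1 := card_le_card (IsSid.image_diff_subset (A := A))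
  rw [card_image_of_injOn h.diff_inj, offDiag_card, card_erase_of_mem (mem_univ _), card_univ, hA] at h1
  have h2 : (d + 1) * (d + 1) - (d + 1) = d ^ 2 + d := by
    rw [Nat.sub_eq_iff_eq_add (by nlinarith)]; ring
  rw [h2] at h1
  have : 0 < Fintype.card G := Fintype.card_pos_iff.2 ⟨0⟩
  omega

/-- uniqueness of `d` and `t` -/
theorem dt_unique {d t d' t' : ℕ} (h : t ≤ d) (h' : t' ≤ d')
    (heq : (d + 1).choose 2 + t = (d' + 1).choose 2 + t') : d = d' ∧ t = t' := by
  have key : ∀ {d t d' t' : ℕ}, t ≤ d → t' ≤ d' → (d + 1).choose 2 + t = (d' + 1).choose 2 + t' →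
      ¬ d < d' := by
    intro d t d' t' h h' heq hlt
    have h1 : (d + 2).choose 2 ≤ (d' + 1).choose 2 := Nat.choose_le_choose 2 (by omega)
    have h2 : (d + 2).choose 2 = (d + 1).choose 1 + (d + 1).choose 2 := Nat.choose_succ_succ _ _
    rw [Nat.choose_one_right] at h2
    omega
  have h1 := key h h' heq
  have h2 := key h' h heq.symm
  have : d = d' := by omega
  subst this
  exact ⟨rfl, by omega⟩

theorem cond_necessary {m d t : ℕ} (hm : 1 ≤ m) (htd : t ≤ d) (h : Cond m ((d + 1).choose 2 + t)) :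
    d ^ 2 + d + 1 ≤ m := by
  have : NeZero m := ⟨by omega⟩
  obtain ⟨d', t', htd', heq, A, h0, hA, hAA, _⟩ := h
  obtain ⟨rfl, rfl⟩ := dt_unique htd htd' heq
  have hS : IsSid A := by rw [isSid_iff, hA]; exact hAA
  have := hS.card_le hA
  rwa [ZMod.card] at this

/-- a Sidon set with `d + 2` elements suffices -/
theorem cond_of_sidon {m d t : ℕ} (htd : t ≤ d) {A : Finset (ZMod m)} (h0 : 0 ∈ A)
    (hA : A.card = d + 2) (hS : IsSid A) : Cond m ((d + 1).choose 2 + t) := by
  obtain ⟨y, hyA, hy0⟩ : ∃ y ∈ A, y ≠ 0 := by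
    have : 1 < A.card := by omega
    exact exists_mem_ne this 0
  have h0' : (0 : ZMod m) ∈ A.erase y := mem_erase.2 ⟨hy0.symm, h0⟩
  have hc : (A.erase y).card = d + 1 := by rw [card_erase_of_mem hyA, hA]; rfl
  obtain ⟨T, h0T, hTA, hTc⟩ := exists_subsuperset_card_eq (s := {0}) (t := A) (n := t + 1)
    (singleton_subset_iff.2 h0) (by simp) (by omega)
  refine ⟨d, t, htd, rfl, A.erase y, h0', hc, ?_, Or.inr (Or.inl ⟨y, T, ?_, singleton_subset_iff.1 h0T, hTc, ?_⟩)⟩
  · have := (isSid_iff _).1 (hS.mono (erase_subset y A))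
    rwa [hc] at this
  · rw [insert_erase hyA]; exact hTA
  · rw [disjoint_left]
    intro z hz hz'
    obtain ⟨c, hc, rfl⟩ := mem_image.1 hz
    obtain ⟨u, hu, v, hv, huv⟩ := Finset.mem_add.1 hz'
    rw [mem_erase] at hu hv
    rcases hS u hu.2 v hv.2 y hyA c (hTA hc) huv with ⟨h1, _⟩ | ⟨_, h1⟩
    · exact hu.1 h1
    · exact hv.1 h1

theorem cond_sufficient {m d t p : ℕ} (hp : p.Prime) (hdp : d + 2 ≤ p) (hpm : 4 * p ^ 2 ≤ m)
    (htd : t ≤ d) : Cond m ((d + 1).choose 2 + t) := by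
  have hp0 : 0 < p := hp.pos
  have : NeZero m := ⟨by nlinarith⟩
  -- the Erdős–Turán set
  set g : ℕ → ℕ := fun k => 2 * p * k + k ^ 2 % p with hg
  have hg_lt : ∀ k < p, g k < 2 * p ^ 2 := by
    intro k hk
    have h1 : k ^ 2 % p < p := Nat.mod_lt _ hp0
    have h2 : 2 * p * k + 2 * p ≤ 2 * p * p := by nlinarith
    simp only [hg]
    nlinarith
  have hcast : ∀ x y, x < m → y < m → (x : ZMod m) = (y : ZMod m) → x = y := by
    intro x y hx hy h
    rw [ZMod.natCast_eq_natCast_iff'] at h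
    rwa [Nat.mod_eq_of_lt hx, Nat.mod_eq_of_lt hy] at h
  have hsid : ∀ k1 < p, ∀ k2 < p, ∀ l1 < p, ∀ l2 < p, g k1 + g k2 = g l1 + g l2 →
      (k1 = l1 ∧ k2 = l2) ∨ (k1 = l2 ∧ k2 = l1) := by
    intro k1 hk1 k2 hk2 l1 hl1 l2 hl2 h
    have r1 : k1 ^ 2 % p < p := Nat.mod_lt _ hp0
    have r2 : k2 ^ 2 % p < p := Nat.mod_lt _ hp0
    have r3 : l1 ^ 2 % p < p := Nat.mod_lt _ hp0
    have r4 : l2 ^ 2 % p < p := Nat.mod_lt _ hp0
    have e1 : (2 * p) * (k1 + k2) + (k1 ^ 2 % p + k2 ^ 2 % p) =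
        (2 * p) * (l1 + l2) + (l1 ^ 2 % p + l2 ^ 2 % p) := by
      simp only [hg] at h; linarith
    have hsum : k1 + k2 = l1 + l2 := by
      have h1 : ((2 * p) * (k1 + k2) + (k1 ^ 2 % p + k2 ^ 2 % p)) / (2 * p) =
        ((2 * p) * (l1 + l2) + (l1 ^ 2 % p + l2 ^ 2 % p)) / (2 * p) := by rw [e1]
      rw [Nat.mul_add_div (by omega), Nat.mul_add_div (by omega),
        Nat.div_eq_of_lt (by omega), Nat.div_eq_of_lt (by omega)] at h1
      omega
    have hsq : k1 ^ 2 % p + k2 ^ 2 % p = l1 ^ 2 % p + l2 ^ 2 % p := by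
      rw [hsum] at e1; omega
    have hcong : ((k1 ^ 2 + k2 ^ 2 : ℕ) : ZMod p) = ((l1 ^ 2 + l2 ^ 2 : ℕ) : ZMod p) := by
      have h1 : ∀ x y : ℕ, ((x + y : ℕ) : ZMod p) = ((x % p + y % p : ℕ) : ZMod p) := by
        intro x y
        rw [Nat.cast_add, Nat.cast_add, ZMod.natCast_mod, ZMod.natCast_mod]
      rw [h1, h1 (l1 ^ 2), hsq]
    have hfac : (2 : ZMod p) * ((k1 : ZMod p) - l1) * ((l2 : ZMod p) - k1) = 0 := by
      have h2 : (k2 : ZMod p) = (l1 : ZMod p) + l2 - k1 := by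
        have : ((k1 + k2 : ℕ) : ZMod p) = ((l1 + l2 : ℕ) : ZMod p) := by rw [hsum]
        push_cast at this
        rw [← this]; ring
      push_cast at hcong
      rw [h2] at hcong
      linear_combination -hcong
    have : Fact p.Prime := ⟨hp⟩
    rcases Nat.eq_or_lt_of_le hp.two_le with h2 | h2
    · -- `p = 2`
      omega
    · have h2ne : (2 : ZMod p) ≠ 0 := by
        intro h
        have h3 : ((2 : ℕ) : ZMod p) = 0 := by exact_mod_cast h
        rw [ZMod.natCast_eq_zero_iff] at h3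
        have := Nat.le_of_dvd (by norm_num) h3
        omega
      have hnat : ∀ x y : ℕ, x < p → y < p → (x : ZMod p) = y → x = y := by
        intro x y hx hy h
        rw [ZMod.natCast_eq_natCast_iff'] at h
        rwa [Nat.mod_eq_of_lt hx, Nat.mod_eq_of_lt hy] at h
      rcases mul_eq_zero.1 hfac with h3 | h3
      · rcases mul_eq_zero.1 h3 with h4 | h4
        · exact absurd h4 h2ne
        · have := hnat k1 l1 hk1 hl1 (sub_eq_zero.1 h4)
          left; omega
      · have := hnat l2 k1 hl2 hk1 (sub_eq_zero.1 h3)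
        right; omega
  set A : Finset (ZMod m) := (range (d + 2)).image fun k => ((g k : ℕ) : ZMod m) with hAdef
  have hginj : ∀ k < p, ∀ l < p, ((g k : ℕ) : ZMod m) = ((g l : ℕ) : ZMod m) → k = l := by
    intro k hk l hl h
    have h1 := hcast (g k) (g l) (by have := hg_lt k hk; omega) (by have := hg_lt l hl; omega) h
    rcases hsid k hk k hk l hl l hl (by rw [h1]) with ⟨h2, _⟩ | ⟨h2, _⟩ <;> exact h2
  apply cond_of_sidon htd (A := A)
  · rw [hAdef, mem_image]
    exact ⟨0, by simp, by simp [hg]⟩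
  · rw [hAdef, card_image_of_injOn, card_range]
    intro k hk l hl h
    rw [mem_coe, mem_range] at hk hl
    exact hginj k (by omega) l (by omega) h
  · intro a ha b hb c hc e he h
    rw [hAdef, mem_image] at ha hb hc he
    obtain ⟨k1, hk1, rfl⟩ := ha
    obtain ⟨k2, hk2, rfl⟩ := hb
    obtain ⟨l1, hl1, rfl⟩ := hc
    obtain ⟨l2, hl2, rfl⟩ := he
    rw [mem_range] at hk1 hk2 hl1 hl2
    have q1 := hg_lt k1 (by omega)
    have q2 := hg_lt k2 (by omega)
    have q3 := hg_lt l1 (by omega)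
    have q4 := hg_lt l2 (by omega)
    have h1 : g k1 + g k2 = g l1 + g l2 := by
      apply hcast _ _ (by omega) (by omega)
      push_cast
      exact h
    rcases hsid k1 (by omega) k2 (by omega) l1 (by omega) l2 (by omega) h1 with ⟨h2, h3⟩ | ⟨h2, h3⟩
    · left; rw [h2, h3]; exact ⟨rfl, rfl⟩
    · right; rw [h2, h3]; exact ⟨rfl, rfl⟩

/-- for `m = d² + d + 1` and `t = 0` the condition is the existence of a perfect difference set -/
theorem cond_planar {m d : ℕ} (hm : m = d ^ 2 + d + 1) : Cond m ((d + 1).choose 2) ↔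
    ∃ A : Finset (ZMod m), A.card = d + 1 ∧
      ∀ x : ZMod m, x ≠ 0 → ∃! p : ZMod m × ZMod m, p.1 ∈ A ∧ p.2 ∈ A ∧ p.1 - p.2 = x := by
  have : NeZero m := ⟨by omega⟩
  constructor
  · rintro ⟨d', t', htd', heq, A, h0, hA, hAA, _⟩
    obtain ⟨rfl, rfl⟩ := dt_unique (Nat.zero_le d) htd' (by rw [add_zero]; exact heq)
    have hS : IsSid A := by rw [isSid_iff, hA]; exact hAA
    refine ⟨A, hA, fun x hx => ?_⟩
    have h1 : (A.offDiag.image fun p : ZMod m × ZMod m => p.1 - p.2) = univ.erase 0 := by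
      apply eq_of_subset_of_card_le IsSid.image_diff_subset
      rw [card_image_of_injOn hS.diff_inj, offDiag_card, card_erase_of_mem (mem_univ _), card_univ,
        hA, ZMod.card, hm]
      have h2 : (d + 1) * (d + 1) - (d + 1) = d ^ 2 + d := by
        rw [Nat.sub_eq_iff_eq_add (by nlinarith)]; ring
      omega
    have h2 : x ∈ (A.offDiag.image fun p : ZMod m × ZMod m => p.1 - p.2) := by
      rw [h1, mem_erase]; exact ⟨hx, mem_univ _⟩
    obtain ⟨p, hp, hpx⟩ := mem_image.1 h2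
    have hp' := mem_offDiag.1 hp
    refine ⟨p, ⟨hp'.1, hp'.2.1, hpx⟩, fun q hq => ?_⟩
    apply hS.diff_inj _ (mem_coe.2 hp) (by simp only; rw [hpx, hq.2.2])
    rw [mem_coe, mem_offDiag]
    refine ⟨hq.1, hq.2.1, fun h => hx ?_⟩
    rw [← hq.2.2, h, sub_self]
  · rintro ⟨A, hA, hAu⟩
    obtain ⟨a, ha⟩ : A.Nonempty := by rw [← card_pos]; omega
    have hS : IsSid A := by
      intro u hu v hv w hw z hz h
      by_cases huw : u = w
      · left; refine ⟨huw, ?_⟩; rw [huw] at h; exact add_left_cancel h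
      · right
        have h1 : u - w ≠ 0 := sub_ne_zero.2 huw
        have h2 : z - v = u - w := by
          have : u = w + z - v := by rw [← h]; abel
          rw [this]; abel
        obtain ⟨p, _, hpu⟩ := hAu _ h1
        have h3 := hpu (u, w) ⟨hu, hw, rfl⟩
        have h4 := hpu (z, v) ⟨hz, hv, h2⟩
        have h5 : (u, w) = (z, v) := by rw [h3, h4]
        rw [Prod.mk.injEq] at h5
        exact ⟨h5.1, h5.2.symm⟩
    set A' := A.image fun x => x - a with hA'
    have hA'c : A'.card = d + 1 := by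
      rw [hA', card_image_of_injective _ (sub_left_injective), hA]
    have hS' : IsSid A' := by
      intro u hu v hv w hw z hz h
      obtain ⟨u, hu', rfl⟩ := mem_image.1 hu
      obtain ⟨v, hv', rfl⟩ := mem_image.1 hv
      obtain ⟨w, hw', rfl⟩ := mem_image.1 hw
      obtain ⟨z, hz', rfl⟩ := mem_image.1 hz
      have h1 : u + v = w + z := by
        have e0 : u - a + (v - a) + (a + a) = w - a + (z - a) + (a + a) := by rw [h]
        have e1 : u - a + (v - a) + (a + a) = u + v := by abel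
        have e2 : w - a + (z - a) + (a + a) = w + z := by abel
        rwa [e1, e2] at e0
      rcases hS u hu' v hv' w hw' z hz' h1 with ⟨rfl, rfl⟩ | ⟨rfl, rfl⟩
      · exact Or.inl ⟨rfl, rfl⟩
      · exact Or.inr ⟨rfl, rfl⟩
    refine ⟨d, 0, Nat.zero_le _, rfl, A', mem_image.2 ⟨a, ha, sub_self a⟩, hA'c, ?_, Or.inl rfl⟩
    have := (isSid_iff _).1 hS'
    rwa [hA'c] at this

end NS57
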