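import Mathlib

/-!
Kernel computations for the exceptional pairs `e = 3`, `m = 13, 17, 18, 19`.
-/

namespace NS57

/-- no repetition -/
def nod : List ℕ → Bool
  | [] => true
  | a :: l => !(l.elem a) && nod l

theorem nod_iff (l : List ℕ) : nod l = true ↔ l.Nodup := by
  induction l with
  | nil => simp [nod]
  | cons a l ih => simp [nod, ih, List.nodup_cons]

/-- the sums of at most two of `x, y, z` modulo `m` -/
def AAl (m x y z : ℕ) : List ℕ :=
  [0, x, (x + x) % m, y, (x + y) % m, (y + y) % m, z, (x + z) % m, (y + z) % m, (z + z) % m]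

/-- exponent vectors of degree `k` -/
def trip (k : ℕ) : List (ℕ × ℕ × ℕ) :=
  (List.range (k + 1)).flatMap fun p => (List.range (k + 1 - p)).map fun q => (p, q, k - p - q)

theorem mem_trip {k p q r : ℕ} (h : p + q + r = k) : (p, q, r) ∈ trip k := by
  simp only [trip, List.mem_flatMap, List.mem_range, List.mem_map, Prod.mk.injEq]
  exact ⟨p, by omega, q, by omega, rfl, rfl, by omega⟩

/-- residue of an exponent vector -/
def vl (m x y z : ℕ) (t : ℕ × ℕ × ℕ) : ℕ := (t.1 * x + t.2.1 * y + t.2.2 * z) % m

def dd : List ℕ → List ℕ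
  | [] => []
  | a :: l => if l.elem a then dd l else a :: dd l

theorem mem_dd {l : List ℕ} {a : ℕ} : a ∈ dd l ↔ a ∈ l := by
  induction l with
  | nil => simp [dd]
  | cons b l ih =>
    rw [dd]
    split_ifs with h
    · rw [ih, List.mem_cons]
      constructor
      · exact Or.inr
      · rintro (rfl | h')
        · simpa using h
        · exact h'
    · rw [List.mem_cons, List.mem_cons, ih]

/-- at most `bd` residues of cubic monomials outside -/
def chk (m bd : ℕ) : Bool :=
  (List.range m).all fun x => !(nod [0, x, (x + x) % m]) || (List.range m).all fun y =>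
    !(nod [0, x, (x + x) % m, y, (x + y) % m, (y + y) % m]) || (List.range m).all fun z =>
    !(nod (AAl m x y z)) ||
      Nat.ble (dd (((trip 3).map (vl m x y z)).filter fun c => !((AAl m x y z).elem c))).length bd

/-- all the divisors of degree `deg t - 1` lie outside -/
def ok (m x y z : ℕ) (t : ℕ × ℕ × ℕ) : Bool :=
  (Nat.beq t.1 0 || !((AAl m x y z).elem (vl m x y z (t.1 - 1, t.2.1, t.2.2)))) &&
  (Nat.beq t.2.1 0 || !((AAl m x y z).elem (vl m x y z (t.1, t.2.1 - 1, t.2.2)))) &&
  (Nat.beq t.2.2 0 || !((AAl m x y z).elem (vl m x y z (t.1, t.2.1, t.2.2 - 1))))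

def chk4 (m : ℕ) : Bool :=
  (List.range m).all fun x => !(nod [0, x, (x + x) % m]) || (List.range m).all fun y =>
    !(nod [0, x, (x + x) % m, y, (x + y) % m, (y + y) % m]) || (List.range m).all fun z =>
    !(nod (AAl m x y z)) ||
      (Nat.ble ((trip 4).filter (ok m x y z)).length 2 &&
        ((trip 4).filter (ok m x y z)).all fun t => (AAl m x y z).elem (vl m x y z t))

set_option maxRecDepth 100000

theorem c13 : chk4 13 = true := by decide +kernel
theorem c17 : chk 17 6 = true := by decide +kernel
theorem c18 : chk 18 6 = true := by decide +kernel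
theorem c19 : chk 19 8 = true := by decide +kernel

theorem chk_spec {m bd : ℕ} (h : chk m bd = true) {x y z : ℕ} (hx : x < m) (hy : y < m) (hz : z < m)
    (hn : (AAl m x y z).Nodup) :
    (dd (((trip 3).map (vl m x y z)).filter fun c => !((AAl m x y z).elem c))).length ≤ bd := by
  have h1 : nod [0, x, (x + x) % m] = true := by
    rw [nod_iff]
    apply List.Nodup.sublist _ hn
    exact (List.prefix_append _ _ : [0, x, (x + x) % m] <+: [0, x, (x + x) % m] ++ _).sublist
  have h2 : nod [0, x, (x + x) % m, y, (x + y) % m, (y + y) % m] = true := by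
    rw [nod_iff]
    apply List.Nodup.sublist _ hn
    exact (List.prefix_append _ _ : [0, x, (x + x) % m, y, (x + y) % m, (y + y) % m] <+:
      [0, x, (x + x) % m, y, (x + y) % m, (y + y) % m] ++ _).sublist
  have h3 := (nod_iff _).2 hn
  simp only [chk, List.all_eq_true, List.mem_range] at h
  have h4 := h x hx
  rw [h1] at h4
  simp only [Bool.not_true, Bool.false_or, List.all_eq_true, List.mem_range] at h4
  have h5 := h4 y hy
  rw [h2] at h5
  simp only [Bool.not_true, Bool.false_or, List.all_eq_true, List.mem_range] at h5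
  have h6 := h5 z hz
  rw [h3] at h6
  simp only [Bool.not_true, Bool.false_or] at h6
  exact Nat.le_of_ble_eq_true h6

theorem chk4_spec {m : ℕ} (h : chk4 m = true) {x y z : ℕ} (hx : x < m) (hy : y < m) (hz : z < m)
    (hn : (AAl m x y z).Nodup) :
    ((trip 4).filter (ok m x y z)).length ≤ 2 ∧
      ∀ t ∈ (trip 4).filter (ok m x y z), vl m x y z t ∈ AAl m x y z := by
  have h1 : nod [0, x, (x + x) % m] = true := by
    rw [nod_iff]
    apply List.Nodup.sublist _ hn
    exact (List.prefix_append _ _ : [0, x, (x + x) % m] <+: [0, x, (x + x) % m] ++ _).sublist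
  have h2 : nod [0, x, (x + x) % m, y, (x + y) % m, (y + y) % m] = true := by
    rw [nod_iff]
    apply List.Nodup.sublist _ hn
    exact (List.prefix_append _ _ : [0, x, (x + x) % m, y, (x + y) % m, (y + y) % m] <+:
      [0, x, (x + x) % m, y, (x + y) % m, (y + y) % m] ++ _).sublist
  have h3 := (nod_iff _).2 hn
  simp only [chk4, List.all_eq_true, List.mem_range] at h
  have h4 := h x hx
  rw [h1] at h4
  simp only [Bool.not_true, Bool.false_or, List.all_eq_true, List.mem_range] at h4
  have h5 := h4 y hy
  rw [h2] at h5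
  simp only [Bool.not_true, Bool.false_or, List.all_eq_true, List.mem_range] at h5
  have h6 := h5 z hz
  rw [h3] at h6
  simp only [Bool.not_true, Bool.false_or, Bool.and_eq_true] at h6
  refine ⟨Nat.le_of_ble_eq_true h6.1, fun t ht => ?_⟩
  have := List.all_eq_true.1 h6.2 t ht
  simpa using this

end NS57
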