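import Pool.Agent.Helper57.NS.Num
import Pool.Agent.Helper57.NSDefs

/-!
`mac = f`.
-/

namespace NS57

theorem b_eq_choose (k d : ℕ) : b k (d + 1) = (d + k).choose k := by
  rw [b, Nat.multichoose_eq]; congr 1; omega

theorem mac_eq_f : ∀ r n, mac r n = f r n := by
  intro r
  induction r with
  | zero => intro n; rfl
  | succ r ih =>
    intro n
    rcases n with _ | n
    · rw [f_zero]; rfl
    rw [mac]
    rcases r with _ | r
    · have h1 : Nat.findGreatest (fun k => k.choose (0 + 1) ≤ n + 1) (n + 1 + 0) = n + 1 := by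
        rw [Nat.findGreatest_eq_iff]
        refine ⟨by omega, fun _ => by simp, fun k hk _ => by simp; omega⟩
      rw [h1, ih]
      simp [f]
    · obtain ⟨d, x, hn, hx⟩ := exists_block (r + 1) (n + 1)
      obtain ⟨d, rfl⟩ : ∃ k, d = k + 1 := by
        rcases d with _ | k
        · simp only [Nat.zero_add] at hx
          rw [b_one_right] at hx
          rw [show b (r + 1 + 1) 0 = 0 from b_succ_zero _] at hn
          omega
        · exact ⟨k, rfl⟩
      have c1 : b (r + 2) (d + 1) = (d + (r + 2)).choose (r + 2) := b_eq_choose _ _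
      have c2 : b (r + 2) (d + 2) = (d + 1 + (r + 2)).choose (r + 2) := b_eq_choose _ _
      have c3 : b (r + 3) (d + 1) = (d + (r + 3)).choose (r + 3) := b_eq_choose _ _
      have c4 : b (r + 2) (d + 2) = b (r + 2) (d + 1) + b (r + 1) (d + 2) := b_succ_succ _ _
      have h1 : Nat.findGreatest (fun k => k.choose (r + 2) ≤ n + 1) (n + 1 + (r + 1)) = d + (r + 2) := by
        rw [Nat.findGreatest_eq_iff]
        refine ⟨?_, fun _ => ?_, fun k hk _ h => ?_⟩
        · have := le_b (r + 1) (d + 1)
          simp only [Nat.add_assoc, Nat.reduceAdd] at *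
          omega
        · rw [← c1]; simp only [Nat.add_assoc, Nat.reduceAdd] at *; omega
        · have h2 : (d + 1 + (r + 2)).choose (r + 2) ≤ k.choose (r + 2) :=
            Nat.choose_le_choose _ (by omega)
          rw [← c2] at h2
          simp only [Nat.add_assoc, Nat.reduceAdd] at *
          omega
      have hf : f (r + 2) (n + 1) = b (r + 3) (d + 1) + f (r + 1) x := by
        rw [hn]; exact f_rec (by omega)
      show (Nat.findGreatest (fun k => k.choose (r + 2) ≤ n + 1) (n + 1 + (r + 1)) + 1).choose (r + 3) +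
        mac (r + 1) (n + 1 - (Nat.findGreatest (fun k => k.choose (r + 2) ≤ n + 1) (n + 1 + (r + 1))).choose (r + 2)) = f (r + 2) (n + 1)
      rw [h1, hf, c3, ih, ← c1]
      congr 2
      simp only [Nat.add_assoc, Nat.reduceAdd] at *
      omega

end NS57
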