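import Pool.Agent.Helper57.NS.R2
import Pool.Agent.Helper57.NS.MacEq
import Pool.Agent.Helper57.NS.E3Comp

/-!
The exceptional pairs `e = 3`, `m = 13, 17, 18, 19`.
-/

namespace NS57

open Finset

variable {m : ℕ} {B : Finset (Multiset (Fin 3))} {a : Fin 3 → ZMod m}

/-- exponents -/
def expo (M : Multiset (Fin 3)) : ℕ × ℕ × ℕ := (M.count 0, M.count 1, M.count 2)

theorem expo_inj : Function.Injective expo := by
  intro M N h
  simp only [expo, Prod.mk.injEq] at h
  ext i
  fin_cases i
  · exact h.1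
  · exact h.2.1
  · exact h.2.2

theorem expo_card (M : Multiset (Fin 3)) : M.count 0 + M.count 1 + M.count 2 = M.card := by
  induction M using Multiset.induction_on with
  | empty => simp
  | cons i M ih =>
    rw [Multiset.card_cons, ← ih]
    fin_cases i <;> simp [Multiset.count_cons] <;> omega

theorem res_val [NeZero m] (M : Multiset (Fin 3)) :
    ((M.map a).sum).val = vl m (a 0).val (a 1).val (a 2).val (expo M) := by
  have h : (M.map a).sum = ((M.count 0 * (a 0).val + M.count 1 * (a 1).val +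
      M.count 2 * (a 2).val : ℕ) : ZMod m) := by
    induction M using Multiset.induction_on with
    | empty => simp
    | cons i M ih =>
      rw [Multiset.map_cons, Multiset.sum_cons, ih]
      fin_cases i <;> simp [Multiset.count_cons] <;> ring
  rw [h, ZMod.val_natCast]
  rfl

/-- the ten monomials of degree at most two, in the order of `AAl` -/
def lowMon : List (Multiset (Fin 3)) :=
  [0, {0}, {0, 0}, {1}, {0, 1}, {1, 1}, {2}, {0, 2}, {1, 2}, {2, 2}]

theorem lowMon_card : ∀ M ∈ lowMon, M.card ≤ 2 := by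
  intro M hM
  simp only [lowMon, List.mem_cons, List.not_mem_nil, or_false] at hM
  rcases hM with rfl | rfl | rfl | rfl | rfl | rfl | rfl | rfl | rfl | rfl <;> simp

theorem lowMon_nodup : lowMon.Nodup := by
  apply List.Nodup.of_map expo
  simp [lowMon, expo]

theorem AAl_eq [NeZero m] :
    AAl m (a 0).val (a 1).val (a 2).val = lowMon.map fun M => ((M.map a).sum).val := by
  simp [AAl, lowMon, ZMod.val_add]

theorem AAl_nodup [NeZero m] (hB : Tile 3 m B a) (hlow : ∀ M : Multiset (Fin 3), M.card ≤ 2 → M ∈ B) :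
    (AAl m (a 0).val (a 1).val (a 2).val).Nodup := by
  rw [AAl_eq]
  apply List.Nodup.map_on _ lowMon_nodup
  intro M hM N hN h
  exact hB.inj M (hlow M (lowMon_card M hM)) N (hlow N (lowMon_card N hN)) (ZMod.val_injective m h)

theorem notMem_AAl [NeZero m] (hB : Tile 3 m B a) (hlow : ∀ M : Multiset (Fin 3), M.card ≤ 2 → M ∈ B)
    {M : Multiset (Fin 3)} (hM : M ∈ B) (hc : 2 < M.card) :
    vl m (a 0).val (a 1).val (a 2).val (expo M) ∉ AAl m (a 0).val (a 1).val (a 2).val := by
  rw [AAl_eq, List.mem_map, ← res_val]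
  rintro ⟨N, hN, h⟩
  have := hB.inj N (hlow N (lowMon_card N hN)) M hM (ZMod.val_injective m h)
  have h2 := lowMon_card N hN
  rw [this] at h2
  omega

theorem deg3_card [NeZero m] (hB : Tile 3 m B a) (hlow : ∀ M : Multiset (Fin 3), M.card ≤ 2 → M ∈ B)
    {bd : ℕ} (hchk : chk m bd = true) : (deg B 3).card ≤ bd := by
  have h1 := chk_spec hchk (ZMod.val_lt (a 0)) (ZMod.val_lt (a 1)) (ZMod.val_lt (a 2))
    (AAl_nodup hB hlow)
  refine le_trans ?_ h1
  refine le_trans ?_ (List.toFinset_card_le _)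
  rw [← card_image_of_injOn (s := deg B 3) (f := fun M : Multiset (Fin 3) => ((M.map a).sum).val)]
  · apply card_le_card
    intro c hc
    obtain ⟨M, hM, rfl⟩ := mem_image.1 hc
    rw [mem_deg] at hM
    rw [List.mem_toFinset, mem_dd, List.mem_filter]
    simp only [res_val]
    refine ⟨List.mem_map.2 ⟨expo M, ?_, rfl⟩, ?_⟩
    · exact mem_trip (by rw [expo_card, hM.2])
    · have := notMem_AAl hB hlow hM.1 (by omega)
      simpa using this
  · intro M hM N hN h
    exact hB.inj M (mem_deg.1 hM).1 N (mem_deg.1 hN).1 (ZMod.val_injective m h)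

theorem expo_erase {M : Multiset (Fin 3)} :
    expo (M.erase 0) = (M.count 0 - 1, M.count 1, M.count 2) ∧
    expo (M.erase 1) = (M.count 0, M.count 1 - 1, M.count 2) ∧
    expo (M.erase 2) = (M.count 0, M.count 1, M.count 2 - 1) := by
  refine ⟨?_, ?_, ?_⟩ <;> simp [expo, Multiset.count_erase_of_ne, Multiset.count_erase_self]

theorem U_ok [NeZero m] (hB : Tile 3 m B a) (hlow : ∀ M : Multiset (Fin 3), M.card ≤ 2 → M ∈ B)
    {M : Multiset (Fin 3)} (hM : M ∈ U (deg B 3)) :
    M.card = 4 ∧ expo M ∈ (trip 4).filter (ok m (a 0).val (a 1).val (a 2).val) := by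
  rw [mem_U] at hM
  obtain ⟨h0, h1⟩ := hM
  have hc : M.card = 4 := by
    obtain ⟨x, hx⟩ := Multiset.exists_mem_of_ne_zero h0
    have := (mem_deg.1 (h1 x hx)).2
    rw [Multiset.card_erase_of_mem hx] at this
    have h4 : M.card.pred = M.card - 1 := rfl
    omega
  refine ⟨hc, ?_⟩
  rw [List.mem_filter]
  refine ⟨mem_trip (by rw [expo_card, hc]), ?_⟩
  obtain ⟨e0, e1, e2⟩ := expo_erase (M := M)
  have key : ∀ x ∈ M, vl m (a 0).val (a 1).val (a 2).val (expo (M.erase x)) ∉
      AAl m (a 0).val (a 1).val (a 2).val := by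
    intro x hx
    have h2 := mem_deg.1 (h1 x hx)
    exact notMem_AAl hB hlow h2.1 (by omega)
  simp only [ok, expo, Bool.and_eq_true, Bool.or_eq_true]
  refine ⟨⟨?_, ?_⟩, ?_⟩
  · by_cases h : M.count 0 = 0
    · left; rw [h]; rfl
    · right
      have := key 0 (Multiset.count_pos.1 (Nat.pos_of_ne_zero h))
      rw [e0] at this
      simpa using this
  · by_cases h : M.count 1 = 0
    · left; rw [h]; rfl
    · right
      have := key 1 (Multiset.count_pos.1 (Nat.pos_of_ne_zero h))
      rw [e1] at this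
      simpa using this
  · by_cases h : M.count 2 = 0
    · left; rw [h]; rfl
    · right
      have := key 2 (Multiset.count_pos.1 (Nat.pos_of_ne_zero h))
      rw [e2] at this
      simpa using this

theorem Ideal'.deg_empty {e : ℕ} {B : Finset (Multiset (Fin e))} (hI : Ideal' B) :
    ∀ k, deg B k = ∅ → ∀ j, k ≤ j → deg B j = ∅ := by
  intro k hk j hj
  induction hj with
  | refl => exact hk
  | @step q _ ih =>
    have := hI.deg_succ_subset q
    rw [ih, U_empty, subset_empty] at this
    exact this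

theorem no_e3 {m s : ℕ} {B : Finset (Multiset (Fin 3))} {a : Fin 3 → ZMod m} (hB : Tile 3 m B a)
    (hm : m = 10 + s) (hs : s = 3 ∨ s = 7 ∨ s = 8 ∨ s = 9)
    (heq : (minNon B).card + s = b 3 3 + f 3 s) : False := by
  have : NeZero m := ⟨by omega⟩
  have hI := hB.ideal
  have b1 : b 1 3 = 3 := b_one_left 3
  have b2 : b 2 3 = 6 := by rw [b_two]; rfl
  have b3 : b 3 3 = 10 := by rw [b_eq_choose 3 2]; rfl
  have hsum0 : ∑ i ∈ Ico 0 2, b (i + 1) 3 = 9 := by
    rw [← range_eq_Ico, sum_range_succ, sum_range_succ, sum_range_zero]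
    simp only [Nat.zero_add, Nat.reduceAdd]
    omega
  obtain ⟨hlow, N, hN1, hN, hsum, hfsum, hUeq, hcl⟩ := (hI.bound (R := 2) (s := s) (by omega)
    (by rw [hB.card, hsum0]; omega) (by simp only [Nat.reduceAdd]; omega)).2 heq
  have hN2 : 2 < N := by
    by_contra hcon
    rw [Ico_eq_empty (by omega)] at hsum
    simp at hsum; omega
  have hsum' := hsum
  rw [sum_eq_sum_Ico_succ_bot hN2] at hsum hfsum
  have hle := sum_f_le (fun i => (deg B (i + 1)).card) 3 N
  simp only [Nat.reduceAdd] at hsum hfsum hle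
  obtain ⟨T, hT⟩ : ∃ T, ∑ i ∈ Ico 3 N, (deg B (i + 1)).card = T := ⟨_, rfl⟩
  rw [hT] at hsum hle
  obtain ⟨n, hn⟩ : ∃ n, (deg B 3).card = n := ⟨_, rfl⟩
  rw [hn] at hsum hfsum
  have hkey : f 3 s ≤ f 3 n + f 4 T := by omega
  rcases hs with rfl | rfl | rfl | rfl
  · -- `m = 13`
    have hm13 : m = 13 := by omega
    subst hm13
    obtain ⟨q1, q2⟩ := chk4_spec c13 (ZMod.val_lt (a 0)) (ZMod.val_lt (a 1)) (ZMod.val_lt (a 2))
      (AAl_nodup hB hlow)
    have h4 : deg B 4 = ∅ := by
      rw [eq_empty_iff_forall_notMem]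
      intro M hM
      have h5 := U_ok hB hlow (hI.deg_succ_subset 3 hM)
      exact notMem_AAl hB hlow (mem_deg.1 hM).1 (by omega) (q2 _ h5.2)
    have hT0 : T = 0 := by
      rw [← hT]
      apply sum_eq_zero
      intro i hi
      rw [hI.deg_empty 4 h4 (i + 1) (by rw [mem_Ico] at hi; omega), card_empty]
    have hn3 : n = 3 := by omega
    have hU3 : (U (deg B 3)).card = f 3 (deg B 3).card := hUeq 2 (by omega)
    have hf33 : f 3 3 = 3 := by rw [← mac_eq_f]; decide +kernel
    rw [hn, hn3, hf33] at hU3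
    have h6 : (U (deg B 3)).card ≤ 2 := by
      refine le_trans ?_ q1
      refine le_trans ?_ (List.toFinset_card_le _)
      rw [← card_image_of_injective (U (deg B 3)) expo_inj]
      apply card_le_card
      intro t ht
      obtain ⟨M, hM, rfl⟩ := mem_image.1 ht
      rw [List.mem_toFinset]
      exact (U_ok hB hlow hM).2
    omega
  · have hm17 : m = 17 := by omega
    subst hm17
    have h1 := deg3_card hB hlow c17
    rw [hn] at h1
    have h2 : ∀ x < 7, mac 3 x + mac 4 (7 - x) < mac 3 7 := by decide +kernel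
    have h3 := h2 n (by omega)
    rw [mac_eq_f, mac_eq_f, mac_eq_f, show 7 - n = T by omega] at h3
    omega
  · have hm17 : m = 18 := by omega
    subst hm17
    have h1 := deg3_card hB hlow c18
    rw [hn] at h1
    have h2 : ∀ x < 7, mac 3 x + mac 4 (8 - x) < mac 3 8 := by decide +kernel
    have h3 := h2 n (by omega)
    rw [mac_eq_f, mac_eq_f, mac_eq_f, show 8 - n = T by omega] at h3
    omega
  · have hm17 : m = 19 := by omega
    subst hm17
    have h1 := deg3_card hB hlow c19
    rw [hn] at h1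
    have h2 : ∀ x < 9, mac 3 x + mac 4 (9 - x) < mac 3 9 := by decide +kernel
    have h3 := h2 n (by omega)
    rw [mac_eq_f, mac_eq_f, mac_eq_f, show 9 - n = T by omega] at h3
    omega

end NS57
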