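import Pool.Agent.Helper57.NS.Mac
import Pool.Agent.Helper57.NS.Base

/-!
Bound for the number of minimal non-elements of an order ideal with `m` elements.
-/

namespace NS57

open Finset

variable {e : ℕ}

/-- elements of degree `i` -/
def deg (B : Finset (Multiset (Fin e))) (i : ℕ) : Finset (Multiset (Fin e)) :=
  B.filter fun M => M.card = i

theorem mem_deg {B : Finset (Multiset (Fin e))} {i : ℕ} {M : Multiset (Fin e)} :
    M ∈ deg B i ↔ M ∈ B ∧ M.card = i := by simp [deg]

theorem mem_minNon {B : Finset (Multiset (Fin e))} {M : Multiset (Fin e)} :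
    M ∈ minNon B ↔ M ≠ 0 ∧ M ∉ B ∧ ∀ x ∈ M, M.erase x ∈ B := by
  simp only [minNon, mem_filter, mem_image, mem_product, mem_univ, true_and, Prod.exists]
  constructor
  · rintro ⟨⟨x, N, hN, rfl⟩, h⟩
    exact ⟨Multiset.cons_ne_zero, h⟩
  · rintro ⟨h0, h⟩
    obtain ⟨x, hx⟩ := Multiset.exists_mem_of_ne_zero h0
    exact ⟨⟨x, M.erase x, h.2 x hx, Multiset.cons_erase hx⟩, h⟩

/-- all monomials of degree `k` -/
def allMon (e k : ℕ) : Finset (Multiset (Fin e)) :=
  (univ : Finset (Sym (Fin e) k)).image Sym.toMultiset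

theorem mem_allMon {k : ℕ} {M : Multiset (Fin e)} : M ∈ allMon e k ↔ M.card = k := by
  simp only [allMon, mem_image, mem_univ, true_and]
  constructor
  · rintro ⟨N, rfl⟩; exact N.2
  · intro h; exact ⟨⟨M, h⟩, rfl⟩

theorem card_allMon (k : ℕ) : (allMon e k).card = b k e := by
  rw [allMon, card_image_of_injective _ Sym.coe_injective, card_univ,
    Sym.card_sym_eq_multichoose, Fintype.card_fin, b]

structure Ideal' (B : Finset (Multiset (Fin e))) : Prop where
  down : ∀ M ∈ B, ∀ N ≤ M, N ∈ B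
  zero : 0 ∈ B
  one : ∀ i, {i} ∈ B

variable {B : Finset (Multiset (Fin e))}

theorem Tile.ideal {m : ℕ} {a : Fin e → ZMod m} (h : Tile e m B a) : Ideal' B :=
  ⟨h.down, h.zero, h.one⟩

theorem Ideal'.deg_succ_subset (h : Ideal' B) (i : ℕ) : deg B (i + 1) ⊆ U (deg B i) := by
  intro M hM
  rw [mem_deg] at hM
  rw [mem_U]
  refine ⟨by rintro rfl; simp at hM, fun x hx => ?_⟩
  rw [mem_deg]
  exact ⟨h.down M hM.1 _ (Multiset.erase_le x M), by rw [Multiset.card_erase_of_mem hx, hM.2]; rfl⟩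

theorem Ideal'.U_deg_sdiff (_h : Ideal' B) (i : ℕ) :
    U (deg B i) \ deg B (i + 1) = (minNon B).filter fun M => M.card = i + 1 := by
  ext M
  rw [mem_sdiff, mem_U, mem_filter, mem_minNon, mem_deg]
  constructor
  · rintro ⟨⟨h0, h1⟩, h2⟩
    obtain ⟨x, hx⟩ := Multiset.exists_mem_of_ne_zero h0
    have hc : M.card = i + 1 := by
      have h3 := (mem_deg.1 (h1 x hx)).2
      rw [Multiset.card_erase_of_mem hx] at h3
      have : 0 < M.card := Multiset.card_pos.2 h0
      have h4 : M.card.pred = M.card - 1 := rfl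
      omega
    exact ⟨⟨h0, fun hM => h2 ⟨hM, hc⟩, fun x hx => (mem_deg.1 (h1 x hx)).1⟩, hc⟩
  · rintro ⟨⟨h0, h1, h2⟩, h3⟩
    refine ⟨⟨h0, fun x hx => ?_⟩, fun h => h1 h.1⟩
    rw [mem_deg]
    exact ⟨h2 x hx, by rw [Multiset.card_erase_of_mem hx, h3]; rfl⟩

theorem Ideal'.card_U (h : Ideal' B) (i : ℕ) :
    (U (deg B i)).card = ((minNon B).filter fun M => M.card = i + 1).card + (deg B (i + 1)).card := by
  rw [← h.U_deg_sdiff, card_sdiff_add_card_eq_card (h.deg_succ_subset i)]

theorem card_eq_sum_deg {N : ℕ} (hN : ∀ M ∈ B, M.card ≤ N) :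
    B.card = ∑ i ∈ range (N + 1), (deg B i).card := by
  rw [card_eq_sum_card_fiberwise (f := Multiset.card) (t := range (N + 1))]
  · rfl
  · intro M hM
    have := hN M hM
    simp only [coe_range, Set.mem_Iio]
    omega

theorem Ideal'.card_minNon {N : ℕ} (hN : ∀ M ∈ B, M.card ≤ N) :
    (minNon B).card = ∑ i ∈ range (N + 1), ((minNon B).filter fun M => M.card = i + 1).card := by
  rw [card_eq_sum_card_fiberwise (f := fun M => M.card - 1) (t := range (N + 1))]
  · apply sum_congr rfl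
    intro i _
    congr 1
    ext M
    simp only [mem_filter, and_congr_right_iff]
    intro hM
    have := Multiset.card_pos.2 (mem_minNon.1 hM).1
    omega
  · intro M hM
    obtain ⟨h0, h1, h2⟩ := mem_minNon.1 hM
    obtain ⟨x, hx⟩ := Multiset.exists_mem_of_ne_zero h0
    have h3 := hN _ (h2 x hx)
    rw [Multiset.card_erase_of_mem hx] at h3
    have h4 : M.card.pred = M.card - 1 := rfl
    simp only [coe_range, Set.mem_Iio]
    omega

theorem Ideal'.deg_zero (h : Ideal' B) : deg B 0 = {0} := by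
  ext M
  rw [mem_deg, mem_singleton, Multiset.card_eq_zero]
  constructor
  · exact fun h => h.2
  · rintro rfl; exact ⟨h.zero, rfl⟩

theorem Ideal'.deg_one (h : Ideal' B) : deg B 1 = allMon e 1 := by
  ext M
  rw [mem_deg, mem_allMon]
  constructor
  · exact fun h => h.2
  · intro hM
    obtain ⟨y, rfl⟩ := Multiset.card_eq_one.1 hM
    exact ⟨h.one y, hM⟩

theorem Ideal'.U_deg_zero (h : Ideal' B) : U (deg B 0) = allMon e 1 := by
  ext M
  rw [mem_U, mem_allMon]
  constructor
  · rintro ⟨h0, h1⟩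
    obtain ⟨x, hx⟩ := Multiset.exists_mem_of_ne_zero h0
    have h3 := (mem_deg.1 (h1 x hx)).2
    rw [Multiset.card_erase_of_mem hx] at h3
    have := Multiset.card_pos.2 h0
    have h4 : M.card.pred = M.card - 1 := rfl
    omega
  · intro hM
    obtain ⟨y, rfl⟩ := Multiset.card_eq_one.1 hM
    refine ⟨by simp, fun x hx => ?_⟩
    rw [Multiset.mem_singleton] at hx
    subst hx
    rw [mem_deg]
    simp [h.zero]

/-- the counting identity -/
theorem Ideal'.count (h : Ideal' B) {N : ℕ} (hN : ∀ M ∈ B, M.card ≤ N) :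
    (minNon B).card + (B.card - 1) = e + ∑ j ∈ Ico 0 N, (U (deg B (j + 1))).card := by
  have h1 := card_eq_sum_deg hN
  have h2 := Ideal'.card_minNon hN
  have h3 : ∑ i ∈ range (N + 1), (U (deg B i)).card =
      ∑ i ∈ range (N + 1), ((minNon B).filter fun M => M.card = i + 1).card +
      ∑ i ∈ range (N + 1), (deg B (i + 1)).card := by
    rw [← sum_add_distrib]; exact sum_congr rfl fun i _ => h.card_U i
  have h4 : ∑ i ∈ range (N + 1), (deg B (i + 1)).card = B.card - 1 := by
    rw [sum_range_succ, h1, sum_range_succ', h.deg_zero, card_singleton]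
    have : deg B (N + 1) = ∅ := by
      ext M
      rw [mem_deg]
      simp only [notMem_empty, iff_false, not_and]
      intro hM; have := hN M hM; omega
    rw [this]; simp
  have h5 : ∑ i ∈ range (N + 1), (U (deg B i)).card =
      e + ∑ j ∈ Ico 0 N, (U (deg B (j + 1))).card := by
    rw [sum_range_succ', h.U_deg_zero, card_allMon, b_one_left, ← range_eq_Ico]; omega
  omega

/-- The bound, with the equality case. -/
theorem Ideal'.bound (h : Ideal' B) {R s : ℕ} (he : 1 ≤ e)
    (hm : B.card = 1 + ∑ i ∈ Ico 0 R, b (i + 1) e + s) (hs : s < b (R + 1) e) :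
    (minNon B).card + s ≤ b (R + 1) e + f (R + 1) s ∧
    ((minNon B).card + s = b (R + 1) e + f (R + 1) s →
      (∀ M : Multiset (Fin e), M.card ≤ R → M ∈ B) ∧
      ∃ N, R ≤ N ∧ (∀ M ∈ B, M.card ≤ N) ∧
      ∑ i ∈ Ico R N, (deg B (i + 1)).card = s ∧
      ∑ i ∈ Ico R N, f (i + 1) (deg B (i + 1)).card = f (R + 1) s ∧
      (∀ i, R ≤ i → (U (deg B (i + 1))).card = f (i + 1) (deg B (i + 1)).card) ∧
      ∀ d, b (R + 1) d ≤ s → b (R + 1) d ≤ (deg B (R + 1)).card) := by
  obtain ⟨E, rfl⟩ : ∃ E, e = E + 1 := ⟨e - 1, by omega⟩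
  set N := max R (B.sup Multiset.card) with hNdef
  have hN : ∀ M ∈ B, M.card ≤ N := fun M hM => (le_sup (f := Multiset.card) hM).trans (le_max_right _ _)
  have hRN : R ≤ N := le_max_left _ _
  have hcount := h.count hN
  set n : ℕ → ℕ := fun i => (deg B (i + 1)).card with hn
  have hhom : ∀ i, ∀ M ∈ deg B (i + 1), M.card = i + 1 := fun i M hM => (mem_deg.1 hM).2
  have hU : ∀ i, (U (deg B (i + 1))).card ≤ f (i + 1) (n i) := fun i => macaulay i _ (hhom i)
  have hgr : ∀ i, n (i + 1) ≤ f (i + 1) (n i) := fun i =>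
    (card_le_card (h.deg_succ_subset (i + 1))).trans (hU i)
  have h0 : n 0 ≤ E + 1 := by
    show (deg B 1).card ≤ E + 1
    rw [h.deg_one, card_allMon, b_one_left]
  have hsumn : ∑ i ∈ Ico 0 N, n i = B.card - 1 := by
    have := card_eq_sum_deg hN
    rw [sum_range_succ', h.deg_zero, card_singleton, range_eq_Ico] at this
    rw [this]; rfl
  have hsum : ∑ i ∈ Ico 0 N, n i = ∑ i ∈ Ico 0 R, b (i + 1) (E + 1) + s := by omega
  obtain ⟨k1, k2⟩ := final_bound hRN h0 hgr hsum hs
  have hle : ∑ j ∈ Ico 0 N, (U (deg B (j + 1))).card ≤ ∑ i ∈ Ico 0 N, f (i + 1) (n i) :=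
    sum_le_sum fun i _ => hU i
  -- telescoping
  have htel : ∑ i ∈ Ico 0 R, b (i + 2) (E + 1) + (E + 1) =
      ∑ i ∈ Ico 0 R, b (i + 1) (E + 1) + b (R + 1) (E + 1) := by
    have h1 : ∀ R, ∑ i ∈ range R, b (i + 2) (E + 1) + (E + 1) =
      ∑ i ∈ range R, b (i + 1) (E + 1) + b (R + 1) (E + 1) := by
      intro R
      induction R with
      | zero => simp
      | succ R ih =>
        rw [sum_range_succ, sum_range_succ]
        simp only [Nat.add_assoc, Nat.reduceAdd] at *
        omega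
    rw [← range_eq_Ico]; exact h1 R
  refine ⟨by omega, fun heq => ?_⟩
  have heq' : ∑ i ∈ Ico 0 N, f (i + 1) (n i) = ∑ i ∈ Ico 0 R, b (i + 2) (E + 1) + f (R + 1) s := by
    omega
  have hUeq : ∀ i ∈ Ico 0 N, (U (deg B (i + 1))).card = f (i + 1) (n i) := by
    have : ∑ j ∈ Ico 0 N, (U (deg B (j + 1))).card = ∑ i ∈ Ico 0 N, f (i + 1) (n i) := by omega
    exact (sum_eq_sum_iff_of_le fun i _ => hU i).1 this
  obtain ⟨q1, q2, q3, q4⟩ := k2 heq'
  refine ⟨fun M hM => ?_, N, hRN, hN, q2, q3, fun i hi => ?_, q4⟩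
  · rcases Nat.eq_zero_or_pos M.card with h0' | h0'
    · rw [Multiset.card_eq_zero] at h0'
      rw [h0']; exact h.zero
    · obtain ⟨i, hi⟩ : ∃ i, M.card = i + 1 := ⟨M.card - 1, by omega⟩
      have h1 : deg B (i + 1) = allMon (E + 1) (i + 1) := by
        apply eq_of_subset_of_card_le
        · intro M hM; rw [mem_allMon]; exact (mem_deg.1 hM).2
        · rw [card_allMon]; exact (q1 i (by omega)).ge
      have h2 : M ∈ deg B (i + 1) := by rw [h1, mem_allMon]; exact hi
      exact (mem_deg.1 h2).1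
  · rcases Nat.lt_or_ge i N with h1 | h1
    · exact hUeq i (by simp [h1])
    · have h2 : deg B (i + 1) = ∅ := by
        ext M
        rw [mem_deg]
        simp only [notMem_empty, iff_false, not_and]
        intro hM; have := hN M hM; omega
      rw [h2, U_empty, card_empty, f_zero]

end NS57
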