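import Pool.Agent.Helper57.NS.Num2

/-!
Macaulay's bound for sets of monomials, and the extremal case.
-/

namespace NS57

open Finset

section

set_option linter.unusedSectionVars false

variable {α : Type*} [Fintype α] [DecidableEq α]

/-- monomials all of whose maximal proper divisors lie in `A` -/
def U (A : Finset (Multiset α)) : Finset (Multiset α) :=
  (((univ : Finset α) ×ˢ A).image fun p => p.1 ::ₘ p.2).filter fun M => ∀ x ∈ M, M.erase x ∈ A

theorem mem_U {A : Finset (Multiset α)} {M : Multiset α} :
    M ∈ U A ↔ M ≠ 0 ∧ ∀ x ∈ M, M.erase x ∈ A := by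
  simp only [U, mem_filter, mem_image, mem_product, mem_univ, true_and, Prod.exists]
  constructor
  · rintro ⟨⟨x, N, hN, rfl⟩, h⟩
    exact ⟨Multiset.cons_ne_zero, h⟩
  · rintro ⟨h0, h⟩
    obtain ⟨x, hx⟩ := Multiset.exists_mem_of_ne_zero h0
    exact ⟨⟨x, M.erase x, h x hx, Multiset.cons_erase hx⟩, h⟩

/-- the elements of `A` not divisible by `y` -/
def P0 (y : α) (A : Finset (Multiset α)) : Finset (Multiset α) := A.filter fun M => y ∉ M

/-- the quotients by `y` of the elements of `A` divisible by `y` -/
def P1 (y : α) (A : Finset (Multiset α)) : Finset (Multiset α) :=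
  (A.filter fun M => y ∈ M).image fun M => M.erase y

theorem mem_P0 {y : α} {A : Finset (Multiset α)} {M : Multiset α} :
    M ∈ P0 y A ↔ M ∈ A ∧ y ∉ M := by simp [P0]

theorem mem_P1 {y : α} {A : Finset (Multiset α)} {N : Multiset α} :
    N ∈ P1 y A ↔ y ::ₘ N ∈ A := by
  simp only [P1, mem_image, mem_filter]
  constructor
  · rintro ⟨M, ⟨hM, hy⟩, rfl⟩
    rwa [Multiset.cons_erase hy]
  · intro h
    exact ⟨y ::ₘ N, ⟨h, Multiset.mem_cons_self y N⟩, Multiset.erase_cons_head y N⟩

theorem card_P (y : α) (A : Finset (Multiset α)) : (P0 y A).card + (P1 y A).card = A.card := by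
  have h : (P1 y A).card = (A.filter fun M => y ∈ M).card := by
    apply card_image_of_injOn
    intro M hM N hN h
    simp only [coe_filter, Set.mem_ofPred_eq] at hM hN
    simp only at h
    rw [← Multiset.cons_erase hM.2, ← Multiset.cons_erase hN.2, h]
  rw [h, P0, add_comm, card_filter_add_card_filter_not]

theorem U_P0 {y : α} {A : Finset (Multiset α)} : P0 y (U A) ⊆ U (P0 y A) := by
  intro M hM
  rw [mem_P0, mem_U] at hM
  rw [mem_U]
  refine ⟨hM.1.1, fun x hx => ?_⟩
  rw [mem_P0]
  exact ⟨hM.1.2 x hx, fun h => hM.2 (Multiset.mem_of_mem_erase h)⟩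

theorem U_P1 {y : α} {A : Finset (Multiset α)} {r : ℕ} (hA : ∀ M ∈ A, M.card = r + 1) :
    P1 y (U A) ⊆ A ∩ U (P1 y A) := by
  intro N hN
  rw [mem_P1, mem_U] at hN
  have h1 : N ∈ A := by
    have := hN.2 y (Multiset.mem_cons_self y N)
    rwa [Multiset.erase_cons_head] at this
  rw [mem_inter, mem_U]
  refine ⟨h1, ?_, fun x hx => ?_⟩
  · rintro rfl
    have := hA 0 h1
    simp at this
  · rw [mem_P1]
    have h2 := hN.2 x (Multiset.mem_cons_of_mem hx)
    by_cases hxy : x = y
    · subst hxy
      rw [Multiset.cons_erase hx]; exact h1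
    · rwa [Multiset.erase_cons_tail _ (by exact fun h => hxy h.symm)] at h2

theorem P1_card {y : α} {A : Finset (Multiset α)} {r : ℕ} (hA : ∀ M ∈ A, M.card = r + 1) :
    ∀ M ∈ P1 y A, M.card = r := by
  intro M hM
  rw [mem_P1] at hM
  have := hA _ hM
  simpa using this

theorem U_card_le {y : α} {A : Finset (Multiset α)} {r : ℕ} (hA : ∀ M ∈ A, M.card = r + 1) :
    (U A).card ≤ (U (P0 y A)).card + (A ∩ U (P1 y A)).card := by
  rw [← card_P y (U A)]
  exact add_le_add (card_le_card U_P0) (card_le_card (U_P1 hA))

theorem U_empty : U (∅ : Finset (Multiset α)) = ∅ := by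
  ext M
  rw [mem_U]
  simp only [notMem_empty, imp_false, iff_false, not_and]
  intro h0 h
  obtain ⟨x, hx⟩ := Multiset.exists_mem_of_ne_zero h0
  exact h x hx

/-- Macaulay's bound -/
theorem macaulay : ∀ (r : ℕ) (A : Finset (Multiset α)), (∀ M ∈ A, M.card = r + 1) →
    (U A).card ≤ f (r + 1) A.card := by
  intro r
  induction r with
  | zero =>
    suffices h : ∀ n (A : Finset (Multiset α)), A.card = n → (∀ M ∈ A, M.card = 0 + 1) →
      (U A).card ≤ f (0 + 1) A.card from fun A => h _ A rfl
    intro n
    induction n with
    | zero => intro A hn _; rw [card_eq_zero] at hn; subst hn; simp [U_empty]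
    | succ n ih =>
      intro A hn hA
      have hne : A.Nonempty := by rw [← card_pos]; omega
      obtain ⟨M, hM⟩ := hne
      obtain ⟨y, hy⟩ := Multiset.exists_mem_of_ne_zero (s := M)
        (by rintro rfl; have := hA 0 hM; simp at this)
      have h1 : P1 y A = {0} := by
        ext N
        rw [mem_P1, mem_singleton]
        constructor
        · intro h; have := hA _ h; simpa using this
        · rintro rfl
          have : M = y ::ₘ (M.erase y) := (Multiset.cons_erase hy).symm
          have h2 := hA M hM
          rw [this] at h2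
          have h3 : M.erase y = 0 := by simpa using h2
          rw [h3] at this
          rw [← this]; exact hM
      have h2 := card_P y A
      rw [h1, card_singleton] at h2
      have h3 := U_card_le (y := y) hA
      have h4 := ih (P0 y A) (by omega) (fun M hM => hA M (mem_P0.1 hM).1)
      have h5 : (A ∩ U (P1 y A)).card ≤ A.card := card_le_card inter_subset_left
      have h6 := f_one_succ n
      rw [show (P0 y A).card = n by omega] at h4
      rw [hn] at h5 ⊢
      simp only [Nat.zero_add] at *
      omega
  | succ r ih =>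
    suffices h : ∀ n (A : Finset (Multiset α)), A.card = n → (∀ M ∈ A, M.card = r + 1 + 1) →
      (U A).card ≤ f (r + 1 + 1) A.card from fun A => h _ A rfl
    intro n
    induction n using Nat.strong_induction_on with
    | _ n ihn =>
    intro A hn hA
    rcases A.eq_empty_or_nonempty with rfl | ⟨M, hM⟩
    · simp [U_empty]
    obtain ⟨y, hy⟩ := Multiset.exists_mem_of_ne_zero (s := M)
      (by rintro rfl; have := hA 0 hM; simp at this)
    have hp : 0 < (P1 y A).card := by
      rw [card_pos]; exact ⟨M.erase y, by rw [mem_P1, Multiset.cons_erase hy]; exact hM⟩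
    have h2 := card_P y A
    have h3 := U_card_le (y := y) hA
    have h4 := ihn (P0 y A).card (by omega) (P0 y A) rfl (fun M hM => hA M (mem_P0.1 hM).1)
    have h5 : (A ∩ U (P1 y A)).card ≤ A.card := card_le_card inter_subset_left
    have h6 : (A ∩ U (P1 y A)).card ≤ f (r + 1) (P1 y A).card :=
      (card_le_card inter_subset_right).trans (ih _ (P1_card hA))
    have h7 : f (r + 1 + 1) (P0 y A).card + min ((P1 y A).card + (P0 y A).card)
      (f (r + 1) (P1 y A).card) ≤ f (r + 1 + 1) ((P1 y A).card + (P0 y A).card) := ki r _ _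
    have h8 : (A ∩ U (P1 y A)).card ≤ min ((P1 y A).card + (P0 y A).card)
      (f (r + 1) (P1 y A).card) := le_min (by omega) h6
    rw [show (P1 y A).card + (P0 y A).card = A.card by omega] at h7 h8
    omega


/-- the equality case of Macaulay's bound contains all monomials in `d` variables -/
theorem clique : ∀ (r : ℕ) (A : Finset (Multiset α)), (∀ M ∈ A, M.card = r + 1) →
    (U A).card = f (r + 1) A.card → ∀ d, b (r + 1) d ≤ A.card →
    ∃ D : Finset α, D.card = d ∧ ∀ M : Multiset α, M.card = r + 1 → (∀ x ∈ M, x ∈ D) → M ∈ A := by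
  intro r
  induction r with
  | zero =>
    intro A hA _ d hd
    rw [Nat.zero_add, b_one_left] at hd
    -- variables occurring in `A`
    have hinj : A.card = (univ.filter fun y : α => ({y} : Multiset α) ∈ A).card := by
      have : A = (univ.filter fun y : α => ({y} : Multiset α) ∈ A).image fun y => {y} := by
        ext M
        simp only [mem_image, mem_filter, mem_univ, true_and]
        constructor
        · intro hM
          obtain ⟨y, rfl⟩ := Multiset.card_eq_one.1 (hA M hM)
          exact ⟨y, hM, rfl⟩
        · rintro ⟨y, hy, rfl⟩; exact hy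
      conv_lhs => rw [this]
      exact card_image_of_injective _ fun a b h => by simpa using h
    rw [hinj] at hd
    obtain ⟨D, hD, hDd⟩ := exists_subset_card_eq hd
    refine ⟨D, hDd, fun M hM hMD => ?_⟩
    obtain ⟨y, rfl⟩ := Multiset.card_eq_one.1 hM
    have := hD (hMD y (Multiset.mem_singleton_self y))
    exact (mem_filter.1 this).2
  | succ r ih =>
    suffices h : ∀ n (A : Finset (Multiset α)), A.card = n → (∀ M ∈ A, M.card = r + 2) →
      (U A).card = f (r + 2) A.card → ∀ d, b (r + 2) d ≤ A.card →
      ∃ D : Finset α, D.card = d ∧ ∀ M : Multiset α, M.card = r + 2 → (∀ x ∈ M, x ∈ D) → M ∈ A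
      from fun A => h _ A rfl
    intro n
    induction n using Nat.strong_induction_on with
    | _ n ihn =>
    intro A hn hA hU d hd
    rcases d with _ | d
    · refine ⟨∅, rfl, fun M hM hM0 => ?_⟩
      obtain ⟨y, hy⟩ := Multiset.exists_mem_of_ne_zero (s := M) (by rintro rfl; simp at hM)
      exact absurd (hM0 y hy) (notMem_empty y)
    have hApos : 0 < A.card := lt_of_lt_of_le (b_pos' (r + 1) d) hd
    obtain ⟨M, hM⟩ := card_pos.1 hApos
    obtain ⟨y, hy⟩ := Multiset.exists_mem_of_ne_zero (s := M)
      (by rintro rfl; have := hA 0 hM; simp at this)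
    have hp : 0 < (P1 y A).card := by
      rw [card_pos]; exact ⟨M.erase y, by rw [mem_P1, Multiset.cons_erase hy]; exact hM⟩
    have h2 := card_P y A
    have h3 := U_card_le (y := y) hA
    have hA0 : ∀ M ∈ P0 y A, M.card = r + 2 := fun M hM => hA M (mem_P0.1 hM).1
    have h4 : (U (P0 y A)).card ≤ f (r + 2) (P0 y A).card := macaulay (r + 1) (P0 y A) hA0
    have h5 : (A ∩ U (P1 y A)).card ≤ A.card := card_le_card inter_subset_left
    have h6 : (U (P1 y A)).card ≤ f (r + 1) (P1 y A).card := macaulay r _ (P1_card hA)
    have h6' : (A ∩ U (P1 y A)).card ≤ (U (P1 y A)).card := card_le_card inter_subset_right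
    have h7 : f (r + 2) (P0 y A).card + min ((P1 y A).card + (P0 y A).card)
      (f (r + 1) (P1 y A).card) ≤ f (r + 2) ((P1 y A).card + (P0 y A).card) := ki r _ _
    rw [show (P1 y A).card + (P0 y A).card = A.card by omega] at h7
    have h8 : (A ∩ U (P1 y A)).card ≤ min A.card (f (r + 1) (P1 y A).card) :=
      le_min (by omega) (h6'.trans h6)
    have hU0 : (U (P0 y A)).card = f (r + 2) (P0 y A).card := by omega
    rcases Nat.lt_or_ge (P0 y A).card (b (r + 2) (d + 1)) with hc | hc
    swap
    · obtain ⟨D, hD, hD'⟩ := ihn (P0 y A).card (by omega) (P0 y A) rfl hA0 hU0 (d + 1) hc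
      exact ⟨D, hD, fun M hM hMD => (mem_P0.1 (hD' M hM hMD)).1⟩
    rcases Nat.lt_or_ge (f (r + 1) (P1 y A).card) A.card with hf | hf
    · -- `U (P1 y A) ⊆ A`, `P1 y A` extremal
      have h9 : min A.card (f (r + 1) (P1 y A).card) = f (r + 1) (P1 y A).card := min_eq_right hf.le
      have h10 : (A ∩ U (P1 y A)).card = f (r + 1) (P1 y A).card := by omega
      have h11 : (U (P1 y A)).card = f (r + 1) (P1 y A).card := by omega
      have h12 : U (P1 y A) ⊆ A := by
        have : A ∩ U (P1 y A) = U (P1 y A) := eq_of_subset_of_card_le inter_subset_right (by omega)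
        rw [← this]; exact inter_subset_left
      rcases Nat.lt_or_ge (P1 y A).card (b (r + 1) (d + 1)) with hq | hq
      · -- impossible
        exfalso
        obtain ⟨u, hu⟩ : ∃ u, (P0 y A).card + u = b (r + 2) (d + 1) :=
          ⟨b (r + 2) (d + 1) - (P0 y A).card, by omega⟩
        obtain ⟨n', hn'⟩ : ∃ n', A.card = b (r + 2) (d + 1) + n' := ⟨A.card - b (r + 2) (d + 1), by omega⟩
        have e1 : (P1 y A).card = n' + u := by omega
        have e2 : b (r + 2) (d + 1) = b (r + 2) d + b (r + 1) (d + 1) := b_succ_succ _ _
        have e3 : b (r + 1) (d + 1) ≤ b (r + 1) (d + 2) := (b_strictMono r).monotone (by omega)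
        have e4 : f (r + 2) (b (r + 2) (d + 1) + n') = b (r + 3) (d + 1) + f (r + 1) n' :=
          f_rec (by show n' ≤ b (r + 1) (d + 2); omega)
        obtain ⟨w, hw⟩ : ∃ w, b (r + 1) (d + 1) = n' + u + w := ⟨b (r + 1) (d + 1) - (n' + u), by omega⟩
        have e5 := f_win_strict r (d + 1) n' u w (by omega) (by omega) (by omega)
        have e6 : (P0 y A).card = b (r + 2) d + (n' + w) := by omega
        have e7 : f (r + 2) (b (r + 2) d + (n' + w)) = b (r + 3) d + f (r + 1) (n' + w) :=
          f_rec (by omega)
        have e8 : b (r + 3) (d + 1) = b (r + 3) d + b (r + 2) (d + 1) := b_succ_succ _ _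
        rw [← hn'] at e4
        rw [← e6] at e7
        rw [e1] at h10 h11
        omega
      · obtain ⟨D, hD, hD'⟩ := ih (P1 y A) (P1_card hA) h11 (d + 1) hq
        refine ⟨D, hD, fun M hM hMD => h12 ?_⟩
        rw [mem_U]
        refine ⟨by rintro rfl; simp at hM, fun x hx => hD' _ ?_ fun z hz => hMD z (Multiset.mem_of_mem_erase hz)⟩
        rw [Multiset.card_erase_of_mem hx, hM]; rfl
    · -- `y` dominates
      have h9 : min A.card (f (r + 1) (P1 y A).card) = A.card := min_eq_left hf
      have h10 : (A ∩ U (P1 y A)).card = A.card := by omega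
      have h12 : A ⊆ U (P1 y A) := by
        have : A ∩ U (P1 y A) = A := eq_of_subset_of_card_le inter_subset_left (by omega)
        intro M hM
        rw [← this, mem_inter] at hM
        exact hM.2
      have hdom : ∀ M ∈ A, ∀ x ∈ M, y ::ₘ M.erase x ∈ A := by
        intro M hM x hx
        have := (mem_U.1 (h12 hM)).2 x hx
        rwa [mem_P1] at this
      have hdom' : ∀ k, ∀ M N : Multiset α, M.card = k → M + N ∈ A → Multiset.replicate k y + N ∈ A := by
        intro k
        induction k with
        | zero => intro M N hM h; rw [Multiset.card_eq_zero] at hM; subst hM; simpa using h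
        | succ k ihk =>
          intro M N hM h
          obtain ⟨x, M', rfl⟩ : ∃ x M', M = x ::ₘ M' := by
            obtain ⟨x, hx⟩ := Multiset.exists_mem_of_ne_zero (s := M) (by rintro rfl; simp at hM)
            exact ⟨x, M.erase x, (Multiset.cons_erase hx).symm⟩
          have h1 := hdom _ h x (by simp)
          rw [Multiset.cons_add, Multiset.erase_cons_head] at h1
          have h2 := ihk M' (y ::ₘ N) (by simpa using hM) (by rwa [Multiset.add_cons])
          rw [Multiset.replicate_succ, Multiset.cons_add]
          rwa [Multiset.add_cons] at h2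
      -- size of `P0`
      have hsz : b (r + 2) d ≤ (P0 y A).card := by
        by_contra hlt
        rw [not_le] at hlt
        obtain ⟨d', n', hn', hn''⟩ : ∃ d' t, A.card = b (r + 2) d' + t ∧ t < b (r + 1) (d' + 1) :=
          exists_block (r + 1) A.card
        have e1 : f (r + 2) (b (r + 2) d' + n') = b (r + 3) d' + f (r + 1) n' := f_rec (by omega)
        have e2 : d + 1 ≤ d' := by
          by_contra h
          have h' : d' + 1 ≤ d + 1 := by omega
          have := (b_strictMono (r + 1)).monotone h'
          have e3 : b (r + 2) (d' + 1) = b (r + 2) d' + b (r + 1) (d' + 1) := b_succ_succ _ _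
          simp only [Nat.add_assoc, Nat.reduceAdd] at *
          omega
        obtain ⟨d'', rfl⟩ : ∃ k, d' = k + 1 := ⟨d' - 1, by omega⟩
        have e4 : f (r + 2) (P0 y A).card < f (r + 2) (b (r + 2) d'') :=
          f_strictMono (r + 1) (hlt.trans_le ((b_strictMono (r + 1)).monotone (by omega)))
        have e5 : f (r + 2) (b (r + 2) d'') = b (r + 3) d'' := f_full _ _
        have e6 : b (r + 3) (d'' + 1) = b (r + 3) d'' + b (r + 2) (d'' + 1) := b_succ_succ _ _
        have e7 := le_f r n'
        rw [← hn'] at e1
        omega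
      obtain ⟨D', hD', hD''⟩ := ihn (P0 y A).card (by omega) (P0 y A) rfl hA0 hU0 d hsz
      have hyr : Multiset.replicate (r + 2) y ∈ A := by
        have := hdom' (r + 2) M 0 (hA M hM) (by simpa using hM)
        simpa using this
      -- `y ∉ D'`
      have hyD : y ∉ D' := by
        intro h
        have := hD'' (Multiset.replicate (r + 2) y) (by simp) (fun x hx => by
          rw [Multiset.eq_of_mem_replicate hx]; exact h)
        exact (mem_P0.1 this).2 (by simp)
      refine ⟨insert y D', by rw [card_insert_of_notMem hyD, hD'], fun M hM hMD => ?_⟩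
      -- split `M` into the powers of `y` and the rest
      have hsplit : M = M.filter (fun x => x = y) + M.filter (fun x => ¬ x = y) :=
        (Multiset.filter_add_not _ _).symm
      rw [hsplit]
      have hrep : M.filter (fun x => x = y) = Multiset.replicate (M.count y) y :=
        Multiset.filter_eq' M y
      have hcard : M.count y + (M.filter (fun x => ¬ x = y)).card = r + 2 := by
        have := congrArg Multiset.card hsplit
        rw [Multiset.card_add, hrep, Multiset.card_replicate] at this
        omega
      rw [hrep]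
      rcases D'.eq_empty_or_nonempty with hD0 | ⟨x0, hx0⟩
      · -- only `y`
        have hz : M.filter (fun x => ¬ x = y) = 0 := by
          rw [Multiset.eq_zero_iff_forall_notMem]
          intro x hx
          rw [Multiset.mem_filter] at hx
          have := hMD x hx.1
          rw [hD0] at this
          simp at this
          exact hx.2 this
        rw [hz] at hcard ⊢
        simp only [Multiset.card_zero, Nat.add_zero] at hcard
        rw [hcard, Multiset.add_zero]; exact hyr
      · refine hdom' _ (Multiset.replicate (M.count y) x0) _ (by simp) ?_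
        refine (mem_P0.1 (hD'' _ (by rw [Multiset.card_add, Multiset.card_replicate]; exact hcard) ?_)).1
        intro x hx
        rw [Multiset.mem_add] at hx
        rcases hx with hx | hx
        · rw [Multiset.eq_of_mem_replicate hx]; exact hx0
        · rw [Multiset.mem_filter] at hx
          have := hMD x hx.1
          rw [mem_insert] at this
          exact this.resolve_left hx.2

end

end NS57
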