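import Pool.Agent.Helper57.NSDefs

/-!
There is a numerical semigroup of embedding dimension `e + 1` and multiplicity `m`, if `e < m`.
-/

namespace NS57

theorem rhoSet_nonempty {e m : ℕ} (he : 1 ≤ e) (hem : e < m) : (rhoSet e m).Nonempty := by
  set S : AddSubmonoid ℕ := AddSubmonoid.closure (Set.Icc m (m + e)) with hS
  have hsub : Set.Icc m (m + e) ⊆ (S : Set ℕ) := AddSubmonoid.subset_closure
  have hmS : m ∈ S := hsub ⟨le_rfl, by omega⟩
  have hm1S : m + 1 ∈ S := hsub ⟨by omega, by omega⟩
  have h1 : ∀ x ∈ S, x = 0 ∨ ∃ a ∈ Set.Icc m (m + e), ∃ b ∈ S, x = a + b := by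
    intro x hx
    induction hx using AddSubmonoid.closure_induction with
    | mem x hx => exact Or.inr ⟨x, hx, 0, S.zero_mem, rfl⟩
    | zero => exact Or.inl rfl
    | add x y hx hy ihx ihy =>
      rcases ihx with rfl | ⟨a, ha, b, hb, rfl⟩
      · rw [zero_add]; exact ihy
      · exact Or.inr ⟨a, ha, b + y, S.add_mem hb hy, by ring⟩
  have h2 : ∀ x ∈ S, x ≠ 0 → m ≤ x := by
    intro x hx hx0
    rcases h1 x hx with h | ⟨a, ha, b, _, rfl⟩
    · exact absurd h hx0
    · have := ha.1; omega
  have h3 : minGens S = Set.Icc m (m + e) := by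
    ext g
    constructor
    · rintro ⟨hg, hg0, hat⟩
      rcases h1 g hg with h | ⟨a, ha, b, hb, rfl⟩
      · exact absurd h hg0
      · rcases hat a (hsub ha) b hb rfl with h | h
        · have := ha.1; omega
        · rw [h, add_zero]; exact ha
    · intro hg
      refine ⟨hsub hg, by have := hg.1; omega, fun a ha b hb hab => ?_⟩
      by_contra hcon
      rw [not_or] at hcon
      have := h2 a ha hcon.1
      have := h2 b hb hcon.2
      have := hg.2
      omega
  refine ⟨rho S, S, ?_, ?_, ⟨⟨hmS, by omega⟩, fun x hx => h2 x hx.1 hx.2⟩, rfl⟩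
  · apply (Set.finite_Iio (m * m)).subset
    intro x hx
    rw [Set.mem_Iio]
    by_contra hcon
    rw [not_lt] at hcon
    apply hx
    have h4 : x % m < m := Nat.mod_lt _ (by omega)
    have h5 : m ≤ x / m := (Nat.le_div_iff_mul_le (by omega)).2 hcon
    have h6 : x = (x / m - x % m) * m + (x % m) * (m + 1) := by
      have h7 := Nat.div_add_mod x m
      obtain ⟨k, hk⟩ : ∃ k, x / m = x % m + k := ⟨x / m - x % m, by omega⟩
      rw [hk, Nat.add_sub_cancel_left]
      rw [hk] at h7
      linarith [h7, Nat.mul_comm m (x % m + k), Nat.add_mul (x % m) k m, Nat.mul_add (x % m) m 1]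
    show x ∈ S
    rw [h6]
    have h8 := S.nsmul_mem hmS (x / m - x % m)
    have h9 := S.nsmul_mem hm1S (x % m)
    rw [smul_eq_mul] at h8 h9
    exact S.add_mem h8 h9
  · rw [h3, Set.ncard_eq_toFinset_card', Set.toFinset_Icc, Nat.card_Icc]
    omega

end NS57
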