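import Pool.Agent.Helper57.NS.E3
import Pool.Agent.Helper57.NS.Cons
import Pool.Agent.Helper40.NSCount
import Pool.Agent.Helper61.NSUpper
import Pool.Agent.Helper57.NS.Nonempty
import Pool.Agent.Helper7.NSSearch

/-!
Assembly of the main theorem.
-/

namespace NS57

open Finset

theorem sum_b (e R : ℕ) : 1 + ∑ i ∈ Ico 0 R, b (i + 1) e = (e + R).choose R := by
  rw [← range_eq_Ico]
  induction R with
  | zero => simp
  | succ R ih =>
    have h1 : b (R + 1) e = (e + R).choose (R + 1) := by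
      rw [b, Nat.multichoose_eq]; congr 1
    rw [sum_range_succ, ← add_assoc, ih, h1, ← add_assoc, Nat.choose_succ_succ]

theorem b_eq_choose' (r d : ℕ) : b r d = (d + r - 1).choose r := by
  rw [b, Nat.multichoose_eq]

theorem combine {r e d m : ℕ}
    (h : (r = 3 ∧ ((e = 3 ∧ d = 1 ∧ m = 13) ∨ (e = 3 ∧ d = 2 ∧ 15 ≤ m ∧ m ≤ 19) ∨ (e = 4 ∧ d = 2 ∧ 21 ≤ m ∧ m ≤ 24) ∨
       (e = 4 ∧ d = 3 ∧ 32 ≤ m ∧ m ≤ 34) ∨ (e = 5 ∧ d = 3 ∧ 36 ≤ m ∧ m ≤ 40) ∨ (e = 6 ∧ d = 3 ∧ 43 ≤ m ∧ m ≤ 47) ∨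
       (e = 7 ∧ d = 4 ∧ m = 70) ∨ (e = 8 ∧ d = 4 ∧ 75 ≤ m ∧ m ≤ 79) ∨ (e = 11 ∧ d = 5 ∧ m = 133))) ∨
    (r = 4 ∧ ((e = 3 ∧ d = 2 ∧ 28 ≤ m ∧ m ≤ 34) ∨ (e = 4 ∧ d = 3 ∧ 55 ≤ m ∧ m ≤ 69))) ∨
    (r = 5 ∧ e = 3 ∧ d = 2 ∧ 50 ≤ m ∧ m ≤ 55) ∨ (r = 6 ∧ e = 3 ∧ d = 2 ∧ 80 ≤ m ∧ m ≤ 83) ∨
    (r = 7 ∧ e = 3 ∧ d = 2 ∧ m = 119))
    (hn : (r = 3 ∧ ((e = 3 ∧ d = 2 ∧ 15 ≤ m ∧ m ≤ 16) ∨ (e = 4 ∧ d = 2 ∧ 21 ≤ m ∧ m ≤ 24) ∨
       (e = 4 ∧ d = 3 ∧ 32 ≤ m ∧ m ≤ 34) ∨ (e = 5 ∧ d = 3 ∧ 36 ≤ m ∧ m ≤ 40) ∨ (e = 6 ∧ d = 3 ∧ 43 ≤ m ∧ m ≤ 47) ∨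
       (e = 7 ∧ d = 4 ∧ m = 70) ∨ (e = 8 ∧ d = 4 ∧ 75 ≤ m ∧ m ≤ 79) ∨ (e = 11 ∧ d = 5 ∧ m = 133))) ∨
    (r = 4 ∧ ((e = 3 ∧ d = 2 ∧ 28 ≤ m ∧ m ≤ 34) ∨ (e = 4 ∧ d = 3 ∧ 55 ≤ m ∧ m ≤ 69))) ∨
    (r = 5 ∧ e = 3 ∧ d = 2 ∧ 50 ≤ m ∧ m ≤ 55) ∨ (r = 6 ∧ e = 3 ∧ d = 2 ∧ 80 ≤ m ∧ m ≤ 83) ∨
    (r = 7 ∧ e = 3 ∧ d = 2 ∧ m = 119) → False) :
    r = 3 ∧ e = 3 ∧ (m = 13 ∨ m = 17 ∨ m = 18 ∨ m = 19) := by
  rcases h with ⟨hr, h | h | h⟩ | h
  · exact ⟨hr, h.1, Or.inl h.2.2⟩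
  · rcases Nat.lt_or_ge 16 m with h1 | h1
    · exact ⟨hr, h.1, Or.inr (by omega)⟩
    · exact absurd (hn (Or.inl ⟨hr, Or.inl ⟨h.1, h.2.1, h.2.2.1, h1⟩⟩)) id
  · exact absurd (hn (Or.inl ⟨hr, Or.inr h⟩)) id
  · exact absurd (hn (Or.inr h)) id

/-- the general upper bound, with what equality gives -/
theorem rho_bound {e m R s : ℕ} (he : 1 ≤ e) (hm : m = 1 + ∑ i ∈ Ico 0 R, b (i + 1) e + s)
    (hs : s < b (R + 1) e) {S : AddSubmonoid ℕ} (hS : (S : Set ℕ)ᶜ.Finite)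
    (hcard : (minGens S).ncard = e + 1) (hmS : IsLeast {x | x ∈ S ∧ x ≠ 0} m) :
    (∃ R, Presents S R) ∧ rho S + s ≤ b (R + 1) e + f (R + 1) s ∧
    (rho S + s = b (R + 1) e + f (R + 1) s → ∃ (B : Finset (Multiset (Fin e))) (a : Fin e → ZMod m),
      Tile e m B a ∧ (minNon B).card + s = b (R + 1) e + f (R + 1) s) := by
  obtain ⟨B, a, hB, P, hP, hPc⟩ := exists_tile S hS hcard hmS
  have h1 : rho S ≤ P.card := Nat.sInf_le ⟨P, hP, rfl⟩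
  have h2 := (hB.ideal.bound (R := R) (s := s) he (by rw [hB.card, hm]) hs).1
  exact ⟨⟨P, hP⟩, by omega, fun h => ⟨B, a, hB, by omega⟩⟩

/-- no equality for `r ≥ 3` -/
theorem no_big {e m R s : ℕ} (he : 3 ≤ e) (hR : 2 ≤ R)
    (hm : m = 1 + ∑ i ∈ Ico 0 R, b (i + 1) e + s) (hs : s < b (R + 1) e)
    {B : Finset (Multiset (Fin e))} {a : Fin e → ZMod m} (hB : Tile e m B a)
    (heq : (minNon B).card + s = b (R + 1) e + f (R + 1) s) : False := by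
  have hI := hB.ideal
  obtain ⟨hlow, N, hN1, hN, hsum, hfsum, hUeq, hcl⟩ := (hI.bound (R := R) (s := s) (by omega)
    (by rw [hB.card, hm]) hs).2 heq
  obtain ⟨d, t, hst, htd⟩ := exists_block R s
  have hd1 : b (R + 1) d ≤ s := by omega
  have hd2 : s < b (R + 1) (d + 1) := by rw [b_succ_succ]; omega
  have hde : d + 1 ≤ e := by
    by_contra hcon
    have := (b_strictMono R).monotone (by omega : e ≤ d)
    omega
  obtain ⟨D, hD, hDB⟩ := clique R (deg B (R + 1)) (fun M hM => (mem_deg.1 hM).2)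
    (hUeq R le_rfl) d (hcl d hd1)
  have hDist : Dist (R + 1) m D a := by
    have hgood : ∀ M, Good (R + 1) D M → M ∈ B := by
      intro M hM
      rcases hM with h | ⟨h, h'⟩
      · exact hlow M (by omega)
      · rcases Nat.lt_or_ge M.card (R + 1) with h2 | h2
        · exact hlow M (by omega)
        · exact (mem_deg.1 (hDB M (by omega) h')).1
    intro M N hM hN h
    exact hB.inj M (hgood M hM) N (hgood N hN) h
  have hP : 1 + ∑ i ∈ Ico 0 R, b (i + 1) e = (e + (R + 1) - 1).choose (R + 1 - 1) := by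
    rw [sum_b]; congr 1
  have e1 : b (R + 1) d = (d + (R + 1) - 1).choose (R + 1) := b_eq_choose' _ _
  have e2 : b (R + 1) (d + 1) = (d + (R + 1)).choose (R + 1) := by
    rw [b_eq_choose']; congr 1; omega
  have hcr := count_reduction (r := R + 1) he (by omega) hde (by rw [← e1, ← hP]; omega)
    (by rw [← e2, ← hP]; omega) D hD a hDist
  have hns := fun hl => search_none (r := R + 1) (e := e) (m := m) (d := d) hl D hD a hDist
  have h3 : R + 1 = 3 ∧ e = 3 ∧ (m = 13 ∨ m = 17 ∨ m = 18 ∨ m = 19) :=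
    combine hcr hns
  clear hcr hns
  obtain ⟨hR3, rfl, hm'⟩ := h3
  obtain rfl : R = 2 := by omega
  have b1 : b 1 3 = 3 := b_one_left 3
  have b2 : b 2 3 = 6 := by rw [b_two]; rfl
  have hsum0 : ∑ i ∈ Ico 0 2, b (i + 1) 3 = 9 := by
    rw [← range_eq_Ico, sum_range_succ, sum_range_succ, sum_range_zero]
    simp only [Nat.zero_add, Nat.reduceAdd]
    omega
  rw [hsum0] at hm
  have hms : m = 10 + s := by omega
  have hs3 : s = 3 ∨ s = 7 ∨ s = 8 ∨ s = 9 := by omega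
  exact no_e3 hB hms hs3 heq

theorem main {e m r : ℕ} (he : 3 ≤ e) (hem : e < m) (h1 : (e + r - 1).choose (r - 1) ≤ m)
    (h2 : m < (e + r).choose r) :
    (rhoSet e m).Nonempty ∧ BddAbove (rhoSet e m) ∧
    (sSup (rhoSet e m) = (e + r - 1).choose r + mac r (m - (e + r - 1).choose (r - 1)) -
        (m - (e + r - 1).choose (r - 1)) ↔
      r = 2 ∧ Cond m (m - e - 1)) := by
  have hne := rhoSet_nonempty (by omega : 1 ≤ e) hem
  refine ⟨hne, ?_⟩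
  obtain ⟨R, rfl⟩ : ∃ R, r = R + 1 := by
    rcases r with _ | R
    · simp at h1 h2; omega
    · exact ⟨R, rfl⟩
  have hR0 : 1 ≤ R := by
    rcases R with _ | R
    · simp at h1 h2; omega
    · omega
  obtain ⟨s, hs⟩ : ∃ s, m = 1 + ∑ i ∈ Ico 0 R, b (i + 1) e + s := by
    refine ⟨m - (e + (R + 1) - 1).choose (R + 1 - 1), ?_⟩
    rw [sum_b]
    have : e + (R + 1) - 1 = e + R := by omega
    rw [this] at h1 ⊢
    simp only [Nat.add_sub_cancel] at h1 ⊢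
    omega
  have hP : 1 + ∑ i ∈ Ico 0 R, b (i + 1) e = (e + (R + 1) - 1).choose (R + 1 - 1) := by
    rw [sum_b]; congr 1
  have hs' : m - (e + (R + 1) - 1).choose (R + 1 - 1) = s := by rw [← hP]; omega
  have hsb : s < b (R + 1) e := by
    have e1 : (e + (R + 1)).choose (R + 1) = (e + R).choose R + (e + R).choose (R + 1) := by
      rw [← add_assoc, Nat.choose_succ_succ]
    have e2 : b (R + 1) e = (e + R).choose (R + 1) := by rw [b_eq_choose']; congr 1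
    have e3 := sum_b e R
    omega
  have hbe : (e + (R + 1) - 1).choose (R + 1) = b (R + 1) e := (b_eq_choose' _ _).symm
  rw [hs', hbe, mac_eq_f]
  have hfs := le_f R s
  have hub : ∀ n ∈ rhoSet e m, n + s ≤ b (R + 1) e + f (R + 1) s := by
    rintro n ⟨S, hS, hc, hmS, rfl⟩
    exact (rho_bound (by omega) hs hsb hS hc hmS).2.1
  have hbdd : BddAbove (rhoSet e m) := ⟨b (R + 1) e + f (R + 1) s, fun n hn => by
    have := hub n hn; omega⟩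
  refine ⟨hbdd, ?_⟩
  constructor
  · intro hsup
    have hmem := Nat.sSup_mem hne hbdd
    rw [hsup] at hmem
    obtain ⟨S, hS, hc, hmS, hrho⟩ := hmem
    obtain ⟨B, a, hB, hBeq⟩ := (rho_bound (by omega) hs hsb hS hc hmS).2.2 (by omega)
    rcases Nat.lt_or_ge R 2 with hR | hR
    · obtain rfl : R = 1 := by omega
      refine ⟨rfl, ?_⟩
      have hm1 : m = 1 + e + s := by
        rw [hs]; simp
      rw [show m - e - 1 = s by omega]
      exact cond_of_eq (by omega) hB hm1 hsb hBeq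
    · exact absurd hBeq fun h => no_big he hR hs hsb hB h
  · rintro ⟨hr, hC⟩
    obtain rfl : R = 1 := by omega
    have hm1 : m = 1 + e + s := by
      rw [hs]; simp
    rw [show m - e - 1 = s by omega] at hC
    obtain ⟨S, hS, hc, hmS, hlow⟩ := exists_of_cond hm1 hsb hC
    have h3 := (rho_bound (by omega) hs hsb hS hc hmS)
    have h4 : b 2 e + f 2 s ≤ rho S + s := by
      obtain ⟨P, hP⟩ := h3.1
      have : rho S ∈ {n | ∃ R, Presents S R ∧ R.card = n} := Nat.sInf_mem ⟨P.card, P, hP, rfl⟩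
      obtain ⟨P', hP', hc'⟩ := this
      rw [← hc']
      exact hlow P' hP'
    have h5 : rho S ∈ rhoSet e m := ⟨S, hS, hc, hmS, rfl⟩
    apply le_antisymm
    · apply csSup_le hne
      intro n hn
      have := hub n hn
      omega
    · refine le_trans ?_ (le_csSup hbdd h5)
      show b 2 e + f 2 s - s ≤ rho S
      omega

end NS57
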