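import Mathlib

/-!
Numerical part: the Macaulay functions `f r n = n^⟨r⟩`.
-/

namespace NS57

/-- number of monomials of degree `k` in `d` variables -/
def b (k d : ℕ) : ℕ := Nat.multichoose d k

@[simp] theorem b_zero (d : ℕ) : b 0 d = 1 := by simp [b]
@[simp] theorem b_succ_zero (k : ℕ) : b (k + 1) 0 = 0 := by simp [b]
theorem b_succ_succ (k d : ℕ) : b (k + 1) (d + 1) = b (k + 1) d + b k (d + 1) := by
  simp [b, Nat.multichoose]
@[simp] theorem b_one_left (d : ℕ) : b 1 d = d := by simp [b]
theorem b_one_right (k : ℕ) : b k 1 = 1 := by simp [b]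
theorem b_two (d : ℕ) : b 2 d = (d + 1).choose 2 := by
  rw [b, Nat.multichoose_eq]; congr 1

theorem b_pos (k d : ℕ) : 1 ≤ b k (d + 1) := by
  induction k with
  | zero => simp
  | succ k ih => rw [b_succ_succ]; omega

theorem b_lt_succ (k d : ℕ) : b (k + 1) d < b (k + 1) (d + 1) := by
  rw [b_succ_succ]; have := b_pos k d; omega

theorem b_strictMono (k : ℕ) : StrictMono (b (k + 1)) := strictMono_nat_of_lt_succ (b_lt_succ k)

theorem le_b (k d : ℕ) : d ≤ b (k + 1) d := (b_strictMono k).le_apply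

theorem b_le_succ_left (k d : ℕ) : b k (d + 1) ≤ b (k + 1) (d + 1) := by
  rw [b_succ_succ]; omega

/-- Macaulay's function, `f r n = n^⟨r⟩` for `r ≥ 1`. -/
def f : ℕ → ℕ → ℕ
  | 0, _ => 0
  | 1, n => (n + 1).choose 2
  | r + 2, n =>
    b (r + 3) (Nat.findGreatest (fun d => b (r + 2) d ≤ n) n) +
      f (r + 1) (n - b (r + 2) (Nat.findGreatest (fun d => b (r + 2) d ≤ n) n))

theorem f_one (n : ℕ) : f 1 n = (n + 1).choose 2 := by simp [f]

theorem f_one_succ (n : ℕ) : f 1 (n + 1) = f 1 n + (n + 1) := by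
  rw [f_one, f_one, Nat.choose_succ_succ' (n + 1) 1]; simp; ring

theorem two_f_one (n : ℕ) : 2 * f 1 n = n * (n + 1) := by
  induction n with
  | zero => simp [f_one]
  | succ n ih => rw [f_one_succ]; ring_nf; ring_nf at ih; omega

theorem f_succ_succ (r n : ℕ) : f (r + 2) n =
    b (r + 3) (Nat.findGreatest (fun d => b (r + 2) d ≤ n) n) +
      f (r + 1) (n - b (r + 2) (Nat.findGreatest (fun d => b (r + 2) d ≤ n) n)) := by
  rw [f]

theorem findGreatest_block {r d x : ℕ} (hx : x < b (r + 1) (d + 1)) :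
    Nat.findGreatest (fun d' => b (r + 2) d' ≤ b (r + 2) d + x) (b (r + 2) d + x) = d := by
  rw [Nat.findGreatest_eq_iff]
  refine ⟨by have := le_b (r + 1) d; simp only [Nat.add_assoc, Nat.reduceAdd] at *; omega, fun _ => by omega, fun n hn _ h => ?_⟩
  have h1 : b (r + 2) (d + 1) ≤ b (r + 2) n := (b_strictMono (r + 1)).monotone hn
  rw [b_succ_succ] at h1
  simp only [Nat.add_assoc, Nat.reduceAdd] at *
  omega

theorem f_rec_lt {r d x : ℕ} (hx : x < b (r + 1) (d + 1)) :
    f (r + 2) (b (r + 2) d + x) = b (r + 3) d + f (r + 1) x := by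
  rw [f_succ_succ, findGreatest_block hx]; simp

theorem f_zero (r : ℕ) : f r 0 = 0 := by
  match r with
  | 0 => rfl
  | 1 => simp [f]
  | r + 2 =>
    have := f_rec_lt (r := r) (d := 0) (x := 0) (by rw [b_one_right]; omega)
    simp only [b_succ_zero, Nat.zero_add] at this
    rw [this]; exact f_zero (r + 1)

theorem f_full (r d : ℕ) : f (r + 1) (b (r + 1) d) = b (r + 2) d := by
  match r with
  | 0 => simp [f_one, b_two]
  | r + 1 =>
    have := f_rec_lt (r := r) (d := d) (x := 0) (b_pos _ _)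
    simpa [f_zero] using this

theorem f_rec {r d x : ℕ} (hx : x ≤ b (r + 1) (d + 1)) :
    f (r + 2) (b (r + 2) d + x) = b (r + 3) d + f (r + 1) x := by
  rcases hx.lt_or_eq with h | h
  · exact f_rec_lt h
  · rw [h, ← b_succ_succ, f_full, f_full, b_succ_succ]

theorem exists_block (r n : ℕ) : ∃ d x, n = b (r + 1) d + x ∧ x < b r (d + 1) := by
  obtain ⟨d, hd1, hd2⟩ : ∃ d, b (r + 1) d ≤ n ∧ n < b (r + 1) (d + 1) := by
    have hub : ∃ d, n < b (r + 1) (d + 1) := ⟨n, lt_of_lt_of_le (Nat.lt_succ_self n) (le_b r (n + 1))⟩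
    classical
    refine ⟨Nat.find hub, ?_, Nat.find_spec hub⟩
    rcases Nat.eq_zero_or_pos (Nat.find hub) with h | h
    · rw [h]; simp
    · obtain ⟨k, hk⟩ : ∃ k, Nat.find hub = k + 1 := ⟨Nat.find hub - 1, by omega⟩
      have := Nat.find_min hub (m := k) (by omega)
      rw [hk]; omega
  refine ⟨d, n - b (r + 1) d, by omega, ?_⟩
  rw [b_succ_succ] at hd2; omega

theorem f_lt_succ (r n : ℕ) : f (r + 1) n + 1 ≤ f (r + 1) (n + 1) := by
  induction r generalizing n with
  | zero => rw [Nat.zero_add, f_one_succ]; omega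
  | succ r ih =>
    obtain ⟨d, x, hn, hx⟩ := exists_block (r + 1) n
    rw [hn, f_rec (by omega), show b (r + 1 + 1) d + x + 1 = b (r + 2) d + (x + 1) by ring,
      f_rec (by omega)]
    have := ih x; omega

theorem f_strictMono (r : ℕ) : StrictMono (f (r + 1)) :=
  strictMono_nat_of_lt_succ fun n => by have := f_lt_succ r n; omega

theorem f_mono (r : ℕ) : Monotone (f (r + 1)) := (f_strictMono r).monotone

theorem le_f (r n : ℕ) : n ≤ f (r + 1) n := (f_strictMono r).le_apply

/-- superadditivity -/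
def Sup (r : ℕ) : Prop := ∀ x y, f (r + 1) x + f (r + 1) y ≤ f (r + 1) (x + y)

/-- strict window inequality -/
def Win (r d : ℕ) : Prop := ∀ a u w, a + u + w = b (r + 1) d → 1 ≤ u → 1 ≤ w →
  f (r + 1) (a + u) + f (r + 1) (a + w) + 1 ≤ f (r + 1) a + f (r + 1) (b (r + 1) d)

/-- comparison of the last windows of the blocks `d` and `d + 1` -/
def Mc (r d : ℕ) : Prop := ∀ p u, p + u = b (r + 1) d → 1 ≤ u →
  f (r + 1) (b (r + 1) d) + f (r + 1) (p + b r (d + 1)) + 1 ≤
    f (r + 1) p + f (r + 1) (b (r + 1) (d + 1))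

theorem Win.le {r d : ℕ} (h : Win r d) (a u w : ℕ) (hs : a + u + w = b (r + 1) d) :
    f (r + 1) (a + u) + f (r + 1) (a + w) ≤ f (r + 1) a + f (r + 1) (b (r + 1) d) := by
  rcases Nat.eq_zero_or_pos u with hu | hu
  · subst hu
    have : a + w = b (r + 1) d := by omega
    rw [this]; simp
  rcases Nat.eq_zero_or_pos w with hw | hw
  · subst hw
    have : a + u = b (r + 1) d := by omega
    rw [this]; simp; omega
  · have := h a u w hs hu hw; omega

theorem Mc.le {r d : ℕ} (h : Mc r d) (p u : ℕ) (hs : p + u = b (r + 1) d) :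
    f (r + 1) (b (r + 1) d) + f (r + 1) (p + b r (d + 1)) ≤
    f (r + 1) p + f (r + 1) (b (r + 1) (d + 1)) := by
  rcases Nat.eq_zero_or_pos u with hu | hu
  · subst hu
    have : p = b (r + 1) d := by omega
    rw [this, b_succ_succ]
  · have := h p u hs hu; omega

theorem sup_zero : Sup 0 := by
  intro x y
  have h1 := two_f_one x
  have h2 := two_f_one y
  have h3 := two_f_one (x + y)
  simp only [Nat.zero_add]
  nlinarith

theorem win_zero (d : ℕ) : Win 0 d := by
  intro a u w hs hu hw
  simp only [Nat.zero_add, b_one_left] at *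
  subst hs
  have h1 := two_f_one (a + u)
  have h2 := two_f_one (a + w)
  have h3 := two_f_one a
  have h4 := two_f_one (a + u + w)
  have h5 : 1 ≤ u * w := Nat.mul_pos hu hw
  nlinarith

theorem mc_zero (d : ℕ) : Mc 0 d := by
  intro p u hs hu
  simp only [Nat.zero_add, b_one_left, b_zero] at *
  subst hs
  have h1 := two_f_one (p + u)
  have h2 := two_f_one (p + 1)
  have h3 := two_f_one p
  have h4 := two_f_one (p + u + 1)
  nlinarith

/-- `C` : the functions decrease with the degree -/
theorem f_anti_of_sup {r : ℕ} (h : Sup r) (n : ℕ) : f (r + 2) n ≤ f (r + 1) n := by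
  have key : ∀ d, b (r + 3) d ≤ f (r + 1) (b (r + 2) d) := by
    intro d
    induction d with
    | zero => simp
    | succ d ih =>
      rw [b_succ_succ, b_succ_succ (r + 1) d]
      have h1 := h (b (r + 2) d) (b (r + 1) (d + 1))
      have h2 := f_full r (d + 1)
      rw [b_succ_succ (r + 1) d] at h2
      simp only [Nat.add_assoc, Nat.reduceAdd] at *
      omega
  obtain ⟨d, x, hn, hx⟩ := exists_block (r + 1) n
  rw [hn, f_rec (by omega)]
  have h1 := h (b (r + 2) d) x
  have h2 := key d
  simp only [show r + 1 + 1 = r + 2 by ring] at *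
  omega


/-! ### The induction for the window inequalities -/

section step

variable {r : ℕ} (hS : Sup r) (hW : ∀ d, Win r d) (hM : ∀ d, Mc r d)

/-- the last window of block `d + 1` of `f (r + 2)`, short case -/
theorem last_short {d u p : ℕ} (hp : p + u = b (r + 1) (d + 1)) :
    f (r + 2) (b (r + 2) d + p) = b (r + 3) d + f (r + 1) p := f_rec (by omega)

include hS hM in
theorem mc_step (d : ℕ) (ihW : ∀ d' ≤ d, Win (r + 1) d') (ihM : ∀ d' < d, Mc (r + 1) d') :
    Mc (r + 1) d := by
  -- strong induction on the length `u`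
  intro p u
  induction u using Nat.strong_induction_on generalizing p with
  | _ u ihu =>
  intro hs hu
  obtain ⟨d, rfl⟩ : ∃ k, d = k + 1 := by
    rcases d with _ | k
    · simp at hs; omega
    · exact ⟨k, rfl⟩
  -- blocks: `c1 = b (r+1) (d+1)`, `c2 = b (r+1) (d+2)`
  have e1 : b (r + 2) (d + 1) = b (r + 2) d + b (r + 1) (d + 1) := b_succ_succ _ _
  have e2 : b (r + 2) (d + 2) = b (r + 2) (d + 1) + b (r + 1) (d + 2) := b_succ_succ _ _
  have e3 : b (r + 1) (d + 2) = b (r + 1) (d + 1) + b r (d + 2) := b_succ_succ _ _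
  have e4 : b (r + 3) (d + 1) = b (r + 3) d + b (r + 2) (d + 1) := b_succ_succ _ _
  have e5 : b (r + 3) (d + 2) = b (r + 3) (d + 1) + b (r + 2) (d + 2) := b_succ_succ _ _
  have F1 : f (r + 2) (b (r + 2) (d + 1)) = b (r + 3) (d + 1) := f_full _ _
  have F2 : f (r + 2) (b (r + 2) (d + 2)) = b (r + 3) (d + 2) := f_full _ _
  have F0 : f (r + 2) (b (r + 2) d) = b (r + 3) d := f_full _ _
  have G1 : f (r + 1) (b (r + 1) (d + 1)) = b (r + 2) (d + 1) := f_full _ _
  have G2 : f (r + 1) (b (r + 1) (d + 2)) = b (r + 2) (d + 2) := f_full _ _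
  have z1 : 1 ≤ b (r + 1) (d + 1) := b_pos _ _
  have z3 : 1 ≤ b r (d + 2) := b_pos _ _
  have hM1 : ∀ p u, p + u = b (r + 1) (d + 1) → 1 ≤ u →
    f (r + 1) (b (r + 1) (d + 1)) + f (r + 1) (p + b r (d + 2)) + 1 ≤
    f (r + 1) p + f (r + 1) (b (r + 1) (d + 2)) := hM (d + 1)
  have ihW0 : ∀ a u w, a + u + w = b (r + 2) d →
    f (r + 2) (a + u) + f (r + 2) (a + w) ≤ f (r + 2) a + f (r + 2) (b (r + 2) d) :=
    (ihW d (by omega)).le
  have ihM0 : ∀ p u, p + u = b (r + 2) d → 1 ≤ u →
    f (r + 2) (b (r + 2) d) + f (r + 2) (p + b (r + 1) (d + 1)) + 1 ≤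
    f (r + 2) p + f (r + 2) (b (r + 2) (d + 1)) := ihM d (by omega)
  have ihM0' : ∀ p u, p + u = b (r + 2) d →
    f (r + 2) (b (r + 2) d) + f (r + 2) (p + b (r + 1) (d + 1)) ≤
    f (r + 2) p + f (r + 2) (b (r + 2) (d + 1)) := (ihM d (by omega)).le
  have ihu' : ∀ v < u, ∀ p, p + v = b (r + 2) (d + 1) → 1 ≤ v →
    f (r + 2) (b (r + 2) (d + 1)) + f (r + 2) (p + b (r + 1) (d + 2)) + 1 ≤
    f (r + 2) p + f (r + 2) (b (r + 2) (d + 2)) := fun v hv p hp hv1 => ihu v hv p hp hv1
  have R0 : ∀ x, x ≤ b (r + 1) (d + 1) →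
      f (r + 2) (b (r + 2) d + x) = b (r + 3) d + f (r + 1) x := fun x hx => f_rec hx
  have R1 : ∀ x, x ≤ b (r + 1) (d + 2) →
      f (r + 2) (b (r + 2) (d + 1) + x) = b (r + 3) (d + 1) + f (r + 1) x := fun x hx => f_rec hx
  have hs' : p + u = b (r + 2) (d + 1) := hs
  show f (r + 2) (b (r + 2) (d + 1)) + f (r + 2) (p + b (r + 1) (d + 2)) + 1 ≤
    f (r + 2) p + f (r + 2) (b (r + 2) (d + 2))
  clear ihu hs ihW ihM hM
  rcases Nat.lt_or_ge (b (r + 1) (d + 1)) u with hc | hc
  swap
  · -- (a) `u ≤ c1`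
    obtain ⟨q, hq⟩ : ∃ q, b (r + 1) (d + 1) = q + u := ⟨b (r + 1) (d + 1) - u, by omega⟩
    have h1 := hM1 q u (by omega) hu
    have hp : p = b (r + 2) d + q := by omega
    have h2 : f (r + 2) p = b (r + 3) d + f (r + 1) q := by
      rw [hp]; exact R0 q (by omega)
    have h3 : f (r + 2) (p + b (r + 1) (d + 2)) = b (r + 3) (d + 1) + f (r + 1) (q + b r (d + 2)) := by
      rw [show p + b (r + 1) (d + 2) = b (r + 2) (d + 1) + (q + b r (d + 2)) by omega]
      exact R1 _ (by omega)
    omega
  · rcases Nat.lt_or_ge u (b (r + 1) (d + 2)) with hc2 | hc2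
    · -- (c) `c1 < u < c2`, `y = u - c1`
      obtain ⟨y, hy⟩ : ∃ y, u = b (r + 1) (d + 1) + y := ⟨u - b (r + 1) (d + 1), by omega⟩
      have hy1 : 1 ≤ y := by omega
      -- position of the `y`-window in block `d`
      have hpy : p + y = b (r + 2) d := by omega
      have h1 := ihM0' p y hpy
      have h2 := ihu' y (by omega) (p + b (r + 1) (d + 1)) (by omega) hy1
      -- f (p + c2) = b (r+3) (d+1) + g (c2 - u)
      obtain ⟨v, hv⟩ : ∃ v, b (r + 1) (d + 2) = u + v := ⟨b (r + 1) (d + 2) - u, by omega⟩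
      have h3 : f (r + 2) (p + b (r + 1) (d + 2)) = b (r + 3) (d + 1) + f (r + 1) v := by
        rw [show p + b (r + 1) (d + 2) = b (r + 2) (d + 1) + v by omega]
        exact R1 _ (by omega)
      have h4 : f (r + 2) (p + b (r + 1) (d + 1) + b (r + 1) (d + 2)) =
          b (r + 3) (d + 1) + f (r + 1) (b (r + 1) (d + 1) + v) := by
        rw [show p + b (r + 1) (d + 1) + b (r + 1) (d + 2) =
          b (r + 2) (d + 1) + (b (r + 1) (d + 1) + v) by omega]
        exact R1 _ (by omega)
      have h5 := hS (b (r + 1) (d + 1)) v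
      omega
    · -- (b) `c2 ≤ u`
      obtain ⟨u', hu'⟩ : ∃ u', u = u' + b (r + 1) (d + 2) := ⟨u - b (r + 1) (d + 2), by omega⟩
      have h1 := ihW0 p u' (b r (d + 2)) (by omega)
      have h2 := ihM0' (p + b r (d + 2)) u' (by omega)
      have h3 := ihM0 (p + u') (b r (d + 2)) (by omega) z3
      have h4 := ihu' (b r (d + 2)) (by omega) (p + u' + b (r + 1) (d + 1)) (by omega) z3
      have h5 : f (r + 2) (p + u' + b (r + 1) (d + 1) + b (r + 1) (d + 2)) =
          b (r + 3) (d + 1) + b (r + 2) (d + 1) := by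
        rw [show p + u' + b (r + 1) (d + 1) + b (r + 1) (d + 2) =
          b (r + 2) (d + 1) + b (r + 1) (d + 1) by omega]
        exact (R1 _ (by omega)).trans (by rw [G1])
      have h6 : p + b r (d + 2) + b (r + 1) (d + 1) = p + b (r + 1) (d + 2) := by omega
      rw [h6] at h2
      omega

include hS hW in
theorem win_step (d : ℕ) (ihW : Win (r + 1) d) (ihM : Mc (r + 1) d) : Win (r + 1) (d + 1) := by
  intro a u w hs hu hw
  have e1 : b (r + 2) (d + 1) = b (r + 2) d + b (r + 1) (d + 1) := b_succ_succ _ _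
  have e4 : b (r + 3) (d + 1) = b (r + 3) d + b (r + 2) (d + 1) := b_succ_succ _ _
  have F1 : f (r + 2) (b (r + 2) (d + 1)) = b (r + 3) (d + 1) := f_full _ _
  have F0 : f (r + 2) (b (r + 2) d) = b (r + 3) d := f_full _ _
  have G1 : f (r + 1) (b (r + 1) (d + 1)) = b (r + 2) (d + 1) := f_full _ _
  have z1 : 1 ≤ b (r + 1) (d + 1) := b_pos _ d
  have R : ∀ x, x ≤ b (r + 1) (d + 1) →
      f (r + 2) (b (r + 2) d + x) = b (r + 3) d + f (r + 1) x := fun x hx => f_rec hx
  have W0 : ∀ a u w, a + u + w = b (r + 2) d →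
    f (r + 2) (a + u) + f (r + 2) (a + w) ≤ f (r + 2) a + f (r + 2) (b (r + 2) d) := ihW.le
  have M0 : ∀ p u, p + u = b (r + 2) d → 1 ≤ u →
    f (r + 2) (b (r + 2) d) + f (r + 2) (p + b (r + 1) (d + 1)) + 1 ≤
    f (r + 2) p + f (r + 2) (b (r + 2) (d + 1)) := ihM
  have W1 : ∀ a u w, a + u + w = b (r + 1) (d + 1) → 1 ≤ u → 1 ≤ w →
    f (r + 1) (a + u) + f (r + 1) (a + w) + 1 ≤ f (r + 1) a + f (r + 1) (b (r + 1) (d + 1)) :=
    hW (d + 1)
  have hs' : a + u + w = b (r + 2) (d + 1) := hs
  show f (r + 2) (a + u) + f (r + 2) (a + w) + 1 ≤ f (r + 2) a + f (r + 2) (b (r + 2) (d + 1))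
  clear ihW ihM hW hs
  rcases Nat.lt_or_ge a (b (r + 2) d) with ha | ha
  swap
  · -- everything in the last block
    obtain ⟨a', rfl⟩ : ∃ a', a = b (r + 2) d + a' := ⟨a - b (r + 2) d, by omega⟩
    have h1 := W1 a' u w (by omega) hu hw
    have h2 := R (a' + u) (by omega)
    have h3 := R (a' + w) (by omega)
    have h4 := R a' (by omega)
    simp only [← Nat.add_assoc] at h2 h3
    omega
  · rcases Nat.lt_or_ge (a + u) (b (r + 2) d) with hau | hau
    · rcases Nat.lt_or_ge (a + w) (b (r + 2) d) with haw | haw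
      · -- case 4
        obtain ⟨γ, hγ⟩ : ∃ γ, a + u + γ = b (r + 2) d := ⟨b (r + 2) d - (a + u), by omega⟩
        obtain ⟨δ, hδ⟩ : ∃ δ, a + w + δ = b (r + 2) d := ⟨b (r + 2) d - (a + w), by omega⟩
        -- `w = γ + c`, `u = δ + c`
        have h1 := W0 a u γ hγ
        have h2 := W0 (a + γ) δ (b (r + 1) (d + 1)) (by omega)
        have h3 := M0 (a + γ + δ) (b (r + 1) (d + 1)) (by omega) z1
        have h4 : a + γ + b (r + 1) (d + 1) = a + w := by omega
        have h5 : a + γ + δ + b (r + 1) (d + 1) = b (r + 2) d := by omega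
        rw [h4] at h2
        rw [h5] at h3
        omega
      · -- case 3
        obtain ⟨γ, hγ⟩ : ∃ γ, a + u + γ = b (r + 2) d := ⟨b (r + 2) d - (a + u), by omega⟩
        obtain ⟨v, hv⟩ : ∃ v, a + w = b (r + 2) d + v := ⟨a + w - b (r + 2) d, by omega⟩
        -- `v + u = c`
        have h3 := M0 (a + γ) u (by omega) hu
        have h4 := R v (by omega)
        have h5 : a + γ + b (r + 1) (d + 1) = b (r + 2) d + v := by omega
        have h6 := W0 a u γ hγ
        rw [h5] at h3
        rw [hv]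
        omega
    · rcases Nat.lt_or_ge (a + w) (b (r + 2) d) with haw | haw
      · -- case 3'
        obtain ⟨γ, hγ⟩ : ∃ γ, a + w + γ = b (r + 2) d := ⟨b (r + 2) d - (a + w), by omega⟩
        obtain ⟨v, hv⟩ : ∃ v, a + u = b (r + 2) d + v := ⟨a + u - b (r + 2) d, by omega⟩
        have h3 := M0 (a + γ) w (by omega) hw
        have h4 := R v (by omega)
        have h5 : a + γ + b (r + 1) (d + 1) = b (r + 2) d + v := by omega
        have h6 := W0 a w γ hγ
        rw [h5] at h3
        rw [hv]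
        omega
      · -- case 2
        obtain ⟨x, hx⟩ : ∃ x, a + u = b (r + 2) d + x := ⟨a + u - b (r + 2) d, by omega⟩
        obtain ⟨y, hy⟩ : ∃ y, a + w = b (r + 2) d + y := ⟨a + w - b (r + 2) d, by omega⟩
        obtain ⟨α, hα⟩ : ∃ α, a + α = b (r + 2) d := ⟨b (r + 2) d - a, by omega⟩
        have h1 := M0 a α hα (by omega)
        have h2 := R x (by omega)
        have h3 := R y (by omega)
        have h4 := R (x + y) (by omega)
        have h5 : a + b (r + 1) (d + 1) = b (r + 2) d + (x + y) := by omega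
        have h6 := hS x y
        rw [h5] at h1
        rw [hx, hy]
        omega

include hS in
theorem sup_step (hW' : ∀ d, Win (r + 1) d) : Sup (r + 1) := by
  have hC := f_anti_of_sup hS
  have key : ∀ x y, x ≤ y → f (r + 2) x + f (r + 2) y ≤ f (r + 2) (x + y) := by
    intro x y hxy
    obtain ⟨d, t, hn, ht⟩ : ∃ d t, x + y = b (r + 2) d + t ∧ t < b (r + 1) (d + 1) :=
      exists_block (r + 1) (x + y)
    have F0 : f (r + 2) (b (r + 2) d) = b (r + 3) d := f_full _ _
    have R : ∀ x, x ≤ b (r + 1) (d + 1) →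
      f (r + 2) (b (r + 2) d + x) = b (r + 3) d + f (r + 1) x := fun x hx => f_rec hx
    have W0 : ∀ a u w, a + u + w = b (r + 2) d →
      f (r + 2) (a + u) + f (r + 2) (a + w) ≤ f (r + 2) a + f (r + 2) (b (r + 2) d) := (hW' d).le
    rcases Nat.lt_or_ge y (b (r + 2) d) with hy | hy
    · have h1 := W0 t (x - t) (y - t) (by omega)
      have h2 : t + (x - t) = x := by omega
      have h3 : t + (y - t) = y := by omega
      have h4 := hC t
      have h5 := R t (by omega)
      rw [h2, h3] at h1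
      rw [hn, h5]
      omega
    · obtain ⟨y', rfl⟩ : ∃ y', y = b (r + 2) d + y' := ⟨y - b (r + 2) d, by omega⟩
      have h1 : t = x + y' := by omega
      have h2 := hS x y'
      have h3 := R y' (by omega)
      have h4 := R (x + y') (by omega)
      have h5 := hC x
      rw [hn, h1, h3, h4]
      omega
  intro x y
  show f (r + 2) x + f (r + 2) y ≤ f (r + 2) (x + y)
  rcases le_total x y with h | h
  · exact key x y h
  · have := key y x h
    rw [Nat.add_comm x y]; omega

end step

theorem win_bot (r : ℕ) : Win (r + 1) 0 := by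
  intro a u w hs hu hw
  rw [show b (r + 1 + 1) 0 = 0 from b_succ_zero _] at hs
  omega

theorem numeric (r : ℕ) : Sup r ∧ (∀ d, Win r d) ∧ ∀ d, Mc r d := by
  induction r with
  | zero => exact ⟨sup_zero, win_zero, mc_zero⟩
  | succ r ih =>
    obtain ⟨hS, hW, hM⟩ := ih
    have key : ∀ d, (∀ d' ≤ d, Win (r + 1) d') ∧ ∀ d' ≤ d, Mc (r + 1) d' := by
      intro d
      induction d with
      | zero =>
        have h0 : ∀ d' ≤ 0, Win (r + 1) d' := fun d' hd' => by
          rw [Nat.le_zero.1 hd']; exact win_bot r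
        refine ⟨h0, fun d' hd' => ?_⟩
        rw [Nat.le_zero.1 hd']
        exact mc_step hS hM 0 h0 (fun d' hd' => by omega)
      | succ d ih =>
        have hw : ∀ d' ≤ d + 1, Win (r + 1) d' := by
          intro d' hd'
          rcases Nat.lt_or_ge d' (d + 1) with h | h
          · exact ih.1 d' (by omega)
          · have : d' = d + 1 := by omega
            subst this
            exact win_step hS hW d (ih.1 d le_rfl) (ih.2 d le_rfl)
        refine ⟨hw, fun d' hd' => ?_⟩
        rcases Nat.lt_or_ge d' (d + 1) with h | h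
        · exact ih.2 d' (by omega)
        · have : d' = d + 1 := by omega
          subst this
          exact mc_step hS hM (d + 1) hw (fun d' hd' => ih.2 d' (by omega))
    have hW' : ∀ d, Win (r + 1) d := fun d => (key d).1 d le_rfl
    exact ⟨sup_step hS hW', hW', fun d => (key d).2 d le_rfl⟩

theorem f_sup (r x y : ℕ) : f (r + 1) x + f (r + 1) y ≤ f (r + 1) (x + y) := (numeric r).1 x y
theorem f_win (r d a u w : ℕ) (hs : a + u + w = b (r + 1) d) :
    f (r + 1) (a + u) + f (r + 1) (a + w) ≤ f (r + 1) a + b (r + 2) d := by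
  have := ((numeric r).2.1 d).le a u w hs
  rwa [f_full] at this
theorem f_win_strict (r d a u w : ℕ) (hs : a + u + w = b (r + 1) d) (hu : 1 ≤ u) (hw : 1 ≤ w) :
    f (r + 1) (a + u) + f (r + 1) (a + w) + 1 ≤ f (r + 1) a + b (r + 2) d := by
  have := ((numeric r).2.1 d) a u w hs hu hw
  rwa [f_full] at this
theorem f_anti (r n : ℕ) : f (r + 2) n ≤ f (r + 1) n := f_anti_of_sup (numeric r).1 n


theorem f_anti_le {i j : ℕ} (h : i ≤ j) (n : ℕ) : f (j + 1) n ≤ f (i + 1) n := by
  induction h with
  | refl => exact le_rfl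
  | step _ ih => exact (f_anti _ n).trans ih

/-- key inequality for one variable -/
theorem ki (r : ℕ) : ∀ q p, f (r + 2) q + min (p + q) (f (r + 1) p) ≤ f (r + 2) (p + q) := by
  induction r with
  | zero =>
    intro q p
    -- `f 2`, `f 1`
    obtain ⟨d, n', hn, hn'⟩ : ∃ d t, p + q = b 2 d + t ∧ t < b 1 (d + 1) := exists_block 1 (p + q)
    have R : ∀ x, x ≤ b 1 (d + 1) → f 2 (b 2 d + x) = b 3 d + f 1 x := fun x hx => f_rec hx
    have F0 : f 2 (b 2 d) = b 3 d := f_full _ _
    have e0 : b 1 (d + 1) = d + 1 := b_one_left _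
    have G0 : f 1 d = b 2 d := by have := f_full 0 d; simpa using this
    have mono1 : ∀ x y, x ≤ y → f 1 x ≤ f 1 y := fun x y h => f_mono 0 h
    have mono2 : ∀ x y, x ≤ y → f 2 x ≤ f 2 y := fun x y h => f_mono 1 h
    have sup1 : ∀ x y, f 1 x + f 1 y ≤ f 1 (x + y) := fun x y => f_sup 0 x y
    have le1 : ∀ x, x ≤ f 1 x := le_f 0
    show f 2 q + min (p + q) (f 1 p) ≤ f 2 (p + q)
    -- main estimate for `n' < p ≤ n' + d`
    have case2 : ∀ u w, u + w = d → 1 ≤ u → f 2 (b 2 d - u) + min (p + q) (f 1 (n' + u)) ≤ f 2 (p + q) := by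
      intro u w huw hu
      obtain ⟨d, rfl⟩ : ∃ k, d = k + 1 := ⟨d - 1, by omega⟩
      have e1 : b 2 (d + 1) = b 2 d + (d + 1) := by
        have := b_succ_succ 1 d; simpa using this
      have e2 : b 3 (d + 1) = b 3 d + b 2 (d + 1) := b_succ_succ _ _
      have R' : ∀ x, x ≤ b 1 (d + 1) → f 2 (b 2 d + x) = b 3 d + f 1 x := fun x hx => f_rec hx
      have e3 : b 1 (d + 1) = d + 1 := b_one_left _
      have h1 : f 2 (b 2 (d + 1) - u) = b 3 d + f 1 w := by
        rw [show b 2 (d + 1) - u = b 2 d + w by omega]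
        exact R' w (by omega)
      have h2 : f 2 (p + q) = b 3 (d + 1) + f 1 n' := by rw [hn]; exact R n' (by omega)
      rcases Nat.lt_or_ge w n' with h | h
      · have h3 : f 1 w + n' ≤ f 1 n' := by
          obtain ⟨k, rfl⟩ : ∃ k, n' = k + 1 := ⟨n' - 1, by omega⟩
          have := f_one_succ k
          have := mono1 w k (by omega)
          omega
        have := min_le_left (p + q) (f 1 (n' + u))
        omega
      · -- `n' + u ≤ d + 1`, window inequality
        obtain ⟨v, hv⟩ : ∃ v, w = n' + v := ⟨w - n', by omega⟩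
        have h3 : f 1 (n' + u) + f 1 (n' + v) ≤ f 1 n' + b 2 (d + 1) :=
          f_win 0 (d + 1) n' u v (by rw [b_one_left]; omega)
        have := min_le_right (p + q) (f 1 (n' + u))
        rw [← hv] at h3
        omega
    rcases Nat.lt_or_ge n' p with h1 | h1
    swap
    · obtain ⟨x, hx⟩ : ∃ x, n' = p + x := ⟨n' - p, by omega⟩
      have h2 : q = b 2 d + x := by omega
      have h3 := R x (by omega)
      have h4 := R n' (by omega)
      have h5 := sup1 p x
      have h6 : f 2 (p + q) = b 3 d + f 1 n' := by rw [hn, h4]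
      have h7 : f 2 q = b 3 d + f 1 x := by rw [h2, h3]
      have h8 := min_le_right (p + q) (f 1 p)
      rw [hx] at h6
      omega
    · rcases Nat.lt_or_ge (n' + d) p with h2 | h2
      · -- large `p`
        rcases Nat.eq_zero_or_pos d with hd | hd
        · subst hd
          simp only [show b 2 0 = 0 from b_succ_zero _] at hn
          omega
        have h3 := case2 d 0 (by omega) hd
        have h4 : f 2 q ≤ f 2 (b 2 d - d) := mono2 _ _ (by omega)
        have h5 : p + q ≤ f 1 (n' + d) := by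
          have := sup1 n' d
          have := le1 n'
          omega
        have h6 := min_le_left (p + q) (f 1 p)
        rw [min_eq_left h5] at h3
        omega
      · obtain ⟨u, hu⟩ : ∃ u, p = n' + u := ⟨p - n', by omega⟩
        have h3 := case2 u (d - u) (by omega) (by omega)
        have h4 : q = b 2 d - u := by omega
        rw [← h4, ← hu] at h3
        exact h3
  | succ r ih =>
    intro q p
    obtain ⟨d, n', hn, hn'⟩ : ∃ d t, p + q = b (r + 3) d + t ∧ t < b (r + 2) (d + 1) :=
      exists_block (r + 2) (p + q)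
    have R : ∀ x, x ≤ b (r + 2) (d + 1) →
      f (r + 3) (b (r + 3) d + x) = b (r + 4) d + f (r + 2) x := fun x hx => f_rec hx
    have F0 : f (r + 3) (b (r + 3) d) = b (r + 4) d := f_full _ _
    have G0 : f (r + 2) (b (r + 2) d) = b (r + 3) d := f_full _ _
    have mono1 : ∀ x y, x ≤ y → f (r + 2) x ≤ f (r + 2) y := fun x y h => f_mono _ h
    have mono2 : ∀ x y, x ≤ y → f (r + 3) x ≤ f (r + 3) y := fun x y h => f_mono _ h
    have sup1 : ∀ x y, f (r + 2) x + f (r + 2) y ≤ f (r + 2) (x + y) := fun x y => f_sup _ x y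
    have le1 : ∀ x, x ≤ f (r + 2) x := le_f _
    show f (r + 3) q + min (p + q) (f (r + 2) p) ≤ f (r + 3) (p + q)
    -- main estimate for `n' < p ≤ n' + c`
    have case2 : ∀ u w, u + w = b (r + 2) d → 1 ≤ u →
        f (r + 3) (b (r + 3) d - u) + min (p + q) (f (r + 2) (n' + u)) ≤ f (r + 3) (p + q) := by
      intro u w huw hu
      obtain ⟨d, rfl⟩ : ∃ k, d = k + 1 := by
        rcases d with _ | k
        · simp at huw; omega
        · exact ⟨k, rfl⟩
      have e1 : b (r + 3) (d + 1) = b (r + 3) d + b (r + 2) (d + 1) := b_succ_succ _ _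
      have e2 : b (r + 4) (d + 1) = b (r + 4) d + b (r + 3) (d + 1) := b_succ_succ _ _
      have e3 : b (r + 2) (d + 2) = b (r + 2) (d + 1) + b (r + 1) (d + 2) := b_succ_succ _ _
      have e4 : b (r + 3) (d + 2) = b (r + 3) (d + 1) + b (r + 2) (d + 2) := b_succ_succ _ _
      have G2 : f (r + 2) (b (r + 2) (d + 2)) = b (r + 3) (d + 2) := f_full _ _
      have R' : ∀ x, x ≤ b (r + 2) (d + 1) →
        f (r + 3) (b (r + 3) d + x) = b (r + 4) d + f (r + 2) x := fun x hx => f_rec hx
      have R1 : ∀ x, x ≤ b (r + 1) (d + 2) →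
        f (r + 2) (b (r + 2) (d + 1) + x) = b (r + 3) (d + 1) + f (r + 1) x := fun x hx => f_rec hx
      have h1 : f (r + 3) (b (r + 3) (d + 1) - u) = b (r + 4) d + f (r + 2) w := by
        rw [show b (r + 3) (d + 1) - u = b (r + 3) d + w by omega]
        exact R' w (by omega)
      have h2 : f (r + 3) (p + q) = b (r + 4) (d + 1) + f (r + 2) n' := by
        rw [hn]; exact R n' (by omega)
      have hn2 : n' < b (r + 2) (d + 2) := hn'
      rcases Nat.lt_or_ge w n' with h | h
      · obtain ⟨k, hk⟩ : ∃ k, n' = k + w := ⟨n' - w, by omega⟩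
        have h3 := ih w k
        rw [← hk] at h3
        -- `n' + u = c + k`
        have h4 : n' + u = b (r + 2) (d + 1) + k := by omega
        rcases Nat.lt_or_ge (b (r + 1) (d + 2)) k with h5 | h5
        · have h6 := min_le_left (p + q) (f (r + 2) (n' + u))
          have h7 : f (r + 1) (b (r + 1) (d + 2)) ≤ f (r + 1) k := f_mono _ h5.le
          have h8 : f (r + 1) (b (r + 1) (d + 2)) = b (r + 2) (d + 2) := f_full _ _
          have h9 : min n' (f (r + 1) k) = n' := min_eq_left (by omega)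
          omega
        · have h6 := R1 k h5
          rw [h4, h6]
          have h7 := min_le_left n' (f (r + 1) k)
          have h8 := min_le_right n' (f (r + 1) k)
          rcases le_total n' (f (r + 1) k) with h9 | h9
          · rw [min_eq_left h9] at h3
            have := min_le_left (p + q) (b (r + 3) (d + 1) + f (r + 1) k)
            omega
          · rw [min_eq_right h9] at h3
            have := min_le_right (p + q) (b (r + 3) (d + 1) + f (r + 1) k)
            omega
      · obtain ⟨v, hv⟩ : ∃ v, w = n' + v := ⟨w - n', by omega⟩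
        have h3 : f (r + 2) (n' + u) + f (r + 2) (n' + v) ≤ f (r + 2) n' + b (r + 3) (d + 1) :=
          f_win (r + 1) (d + 1) n' u v (by show n' + u + v = b (r + 2) (d + 1); omega)
        have := min_le_right (p + q) (f (r + 2) (n' + u))
        rw [← hv] at h3
        omega
    rcases Nat.lt_or_ge n' p with h1 | h1
    swap
    · obtain ⟨x, hx⟩ : ∃ x, n' = p + x := ⟨n' - p, by omega⟩
      have h2 : q = b (r + 3) d + x := by omega
      have h3 := R x (by omega)
      have h4 := R n' (by omega)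
      have h5 := sup1 p x
      have h6 : f (r + 3) (p + q) = b (r + 4) d + f (r + 2) n' := by rw [hn, h4]
      have h7 : f (r + 3) q = b (r + 4) d + f (r + 2) x := by rw [h2, h3]
      have h8 := min_le_right (p + q) (f (r + 2) p)
      rw [hx] at h6
      omega
    · rcases Nat.lt_or_ge (n' + b (r + 2) d) p with h2 | h2
      · -- large `p`
        rcases Nat.eq_zero_or_pos d with hd | hd
        · subst hd
          simp only [show b (r + 3) 0 = 0 from b_succ_zero _] at hn
          omega
        have hc : 1 ≤ b (r + 2) d := by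
          obtain ⟨k, rfl⟩ : ∃ k, d = k + 1 := ⟨d - 1, by omega⟩
          exact b_pos _ _
        have h3 := case2 (b (r + 2) d) 0 (by omega) hc
        have h4 : f (r + 3) q ≤ f (r + 3) (b (r + 3) d - b (r + 2) d) := mono2 _ _ (by omega)
        have h5 : p + q ≤ f (r + 2) (n' + b (r + 2) d) := by
          have := sup1 n' (b (r + 2) d)
          have := le1 n'
          omega
        have h6 := min_le_left (p + q) (f (r + 2) p)
        rw [min_eq_left h5] at h3
        omega
      · obtain ⟨u, hu⟩ : ∃ u, p = n' + u := ⟨p - n', by omega⟩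
        have h3 := case2 u (b (r + 2) d - u) (by omega) (by omega)
        have h4 : q = b (r + 3) d - u := by omega
        rw [← h4, ← hu] at h3
        exact h3

end NS57
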