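import Pool.Agent.Helper57.NS.Num

/-!
Greedy filling of the degrees; bound for sequences of Macaulay type and the equality case.
-/

namespace NS57

theorem b_pos' (i D : ℕ) : 0 < b (i + 1) (D + 1) := b_pos _ _

/-- greedy filling: degree `i + 1`, `D + 1` variables -/
def G (D : ℕ) (i T : ℕ) : ℕ :=
  if h : T < b (i + 1) (D + 1) then f (i + 1) T
  else b (i + 2) (D + 1) + G D (i + 1) (T - b (i + 1) (D + 1))
termination_by T
decreasing_by
  have := b_pos' i D
  omega

theorem G_lt {D i T : ℕ} (h : T < b (i + 1) (D + 1)) : G D i T = f (i + 1) T := by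
  rw [G]; simp [h]

theorem G_ge {D i T : ℕ} (h : b (i + 1) (D + 1) ≤ T) :
    G D i T = b (i + 2) (D + 1) + G D (i + 1) (T - b (i + 1) (D + 1)) := by
  rw [G]; simp [not_lt.2 h]

theorem G_zero (D i : ℕ) : G D i 0 = 0 := by
  rw [G_lt (b_pos' i D), f_zero]

theorem G_le {D i T : ℕ} (h : T ≤ b (i + 1) (D + 1)) : G D i T = f (i + 1) T := by
  rcases h.lt_or_eq with h | h
  · exact G_lt h
  · rw [G_ge h.ge, h, Nat.sub_self, G_zero, f_full, Nat.add_zero]

theorem b_step (i D : ℕ) : b (i + 1) (D + 1) ≤ b (i + 2) (D + 1) := b_le_succ_left _ _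

/-- `G ≤ f` -/
theorem G_le_f (D : ℕ) : ∀ T i, G D i T ≤ f (i + 1) T := by
  intro T
  induction T using Nat.strong_induction_on with
  | _ T ih =>
  intro i
  rcases Nat.lt_or_ge T (b (i + 1) (D + 1)) with h | h
  · rw [G_lt h]
  · rw [G_ge h]
    have h0 := b_pos' i D
    have h1 := ih (T - b (i + 1) (D + 1)) (by omega) (i + 1)
    have h2 : f (i + 2) (T - b (i + 1) (D + 1)) ≤ f (i + 1) (T - b (i + 1) (D + 1)) := f_anti _ _
    have h3 := f_sup i (b (i + 1) (D + 1)) (T - b (i + 1) (D + 1))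
    rw [f_full, show b (i + 1) (D + 1) + (T - b (i + 1) (D + 1)) = T by omega] at h3
    have h4 : G D (i + 1) (T - b (i + 1) (D + 1)) ≤ f (i + 2) (T - b (i + 1) (D + 1)) := h1
    omega

theorem G_incr (D : ℕ) : ∀ T i u v, v + u = b (i + 1) (D + 1) →
    G D i (T + u) + f (i + 1) v ≤ G D i T + b (i + 2) (D + 1) := by
  intro T
  induction T using Nat.strong_induction_on with
  | _ T ih =>
  intro i u v huv
  have h0 := b_pos' i D
  rcases Nat.lt_or_ge T (b (i + 1) (D + 1)) with h | h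
  · rcases Nat.lt_or_ge (b (i + 1) (D + 1)) (T + u) with h' | h'
    · obtain ⟨u2, hu2⟩ : ∃ u2, T = v + u2 := ⟨T - v, by omega⟩
      have e1 : T + u - b (i + 1) (D + 1) = u2 := by omega
      rw [G_ge h'.le, e1, G_lt h]
      have h1 : G D (i + 1) u2 = f (i + 2) u2 := G_le (by have := b_step i D; show u2 ≤ b (i + 2) (D + 1); omega)
      have h2 : f (i + 2) u2 ≤ f (i + 1) u2 := f_anti _ _
      have h3 := f_sup i v u2
      rw [hu2]
      omega
    · obtain ⟨w, hw⟩ : ∃ w, v = T + w := ⟨v - T, by omega⟩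
      rw [G_le h', G_lt h, hw]
      exact f_win i (D + 1) T u w (by omega)
  · have e1 : T + u - b (i + 1) (D + 1) = T - b (i + 1) (D + 1) + u := by omega
    rw [G_ge h, G_ge (by omega : b (i + 1) (D + 1) ≤ T + u), e1]
    have e2 : b (i + 2) (D + 1) = b (i + 2) D + b (i + 1) (D + 1) := b_succ_succ _ _
    have e3 : b (i + 3) (D + 1) = b (i + 3) D + b (i + 2) (D + 1) := b_succ_succ _ _
    have h1 : G D (i + 1) (T - b (i + 1) (D + 1) + u) + f (i + 2) (b (i + 2) D + v) ≤
      G D (i + 1) (T - b (i + 1) (D + 1)) + b (i + 3) (D + 1) :=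
      ih (T - b (i + 1) (D + 1)) (by omega) (i + 1) u (b (i + 2) D + v)
      (by show b (i + 2) D + v + u = b (i + 2) (D + 1); omega)
    have h2 : f (i + 2) (b (i + 2) D + v) = b (i + 3) D + f (i + 1) v := f_rec (by omega)
    omega

/-- the shift of windows -/
theorem G_next {D i x T : ℕ} (hx : x ≤ b (i + 1) (D + 1)) :
    f (i + 1) x + G D (i + 1) T ≤ G D i (x + T) := by
  have e2 : b (i + 2) (D + 1) = b (i + 2) D + b (i + 1) (D + 1) := b_succ_succ _ _
  have e3 : b (i + 3) (D + 1) = b (i + 3) D + b (i + 2) (D + 1) := b_succ_succ _ _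
  rcases Nat.lt_or_ge (x + T) (b (i + 1) (D + 1)) with h | h
  · have h1 : G D (i + 1) T = f (i + 2) T :=
      G_lt (by have := b_step i D; show T < b (i + 2) (D + 1); omega)
    have h2 : f (i + 2) T ≤ f (i + 1) T := f_anti _ _
    have h3 := f_sup i x T
    rw [G_lt h]; omega
  · obtain ⟨T', hT'⟩ : ∃ T', x + T = b (i + 1) (D + 1) + T' := ⟨x + T - b (i + 1) (D + 1), by omega⟩
    obtain ⟨u, hu⟩ : ∃ u, x + u = b (i + 1) (D + 1) := ⟨b (i + 1) (D + 1) - x, by omega⟩
    have h1 : G D (i + 1) (T' + u) + f (i + 2) (b (i + 2) D + x) ≤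
      G D (i + 1) T' + b (i + 3) (D + 1) :=
      G_incr D T' (i + 1) u (b (i + 2) D + x)
        (by show b (i + 2) D + x + u = b (i + 2) (D + 1); omega)
    have h2 : f (i + 2) (b (i + 2) D + x) = b (i + 3) D + f (i + 1) x := f_rec (by omega)
    rw [G_ge h, hT', Nat.add_sub_cancel_left, show T = T' + u by omega]
    omega

theorem G_next_strict {D i x T : ℕ} (hx : x < b (i + 1) (D + 1))
    (h : b (i + 1) (D + 1) ≤ x + T) (hT : T < b (i + 2) (D + 1)) :
    f (i + 1) x + G D (i + 1) T + 1 ≤ G D i (x + T) := by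
  have e2 : b (i + 2) (D + 1) = b (i + 2) D + b (i + 1) (D + 1) := b_succ_succ _ _
  have e3 : b (i + 3) (D + 1) = b (i + 3) D + b (i + 2) (D + 1) := b_succ_succ _ _
  obtain ⟨T', hT'⟩ : ∃ T', x + T = b (i + 1) (D + 1) + T' := ⟨x + T - b (i + 1) (D + 1), by omega⟩
  obtain ⟨u, hu⟩ : ∃ u, x + u = b (i + 1) (D + 1) := ⟨b (i + 1) (D + 1) - x, by omega⟩
  obtain ⟨w, hw⟩ : ∃ w, b (i + 2) (D + 1) = T + w := ⟨b (i + 2) (D + 1) - T, by omega⟩
  have h1 : f (i + 2) (T' + u) + f (i + 2) (T' + w) + 1 ≤ f (i + 2) T' + b (i + 3) (D + 1) :=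
    f_win_strict (i + 1) (D + 1) T' u w (by show T' + u + w = b (i + 2) (D + 1); omega)
      (by omega) (by omega)
  have h2 : f (i + 2) (b (i + 2) D + x) = b (i + 3) D + f (i + 1) x := f_rec (by omega)
  have h3 : T' + w = b (i + 2) D + x := by omega
  have h4 : G D (i + 1) T = f (i + 2) T := G_lt hT
  have h5 : G D (i + 1) T' = f (i + 2) T' := G_lt (by show T' < b (i + 2) (D + 1); omega)
  rw [G_ge h, hT', Nat.add_sub_cancel_left, h4, h5]
  rw [h3, h2] at h1
  rw [show T = T' + u by omega]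
  omega

open Finset in
/-- bound for sequences; `n i` is the number of elements of degree `i + 1` -/
theorem seq_bound (D N : ℕ) (n : ℕ → ℕ) : ∀ j ≤ N, (∀ i, j ≤ i → n i ≤ b (i + 1) (D + 1)) →
    ∑ i ∈ Ico j N, f (i + 1) (n i) ≤ G D j (∑ i ∈ Ico j N, n i) := by
  intro j hj
  induction hj using Nat.decreasingInduction with
  | self => intro _; simp
  | of_succ j hj ih =>
    intro hn
    rw [sum_eq_sum_Ico_succ_bot hj, sum_eq_sum_Ico_succ_bot hj]
    have h1 := ih (fun i hi => hn i (by omega))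
    have h2 := G_next (T := ∑ i ∈ Ico (j + 1) N, n i) (hn j le_rfl)
    omega

open Finset in
theorem seq_bound_strict (D N : ℕ) (n : ℕ → ℕ) : ∀ j ≤ N,
    (∀ i, j ≤ i → n i < b (i + 1) (D + 1)) → b (j + 1) (D + 1) ≤ ∑ i ∈ Ico j N, n i →
    ∑ i ∈ Ico j N, f (i + 1) (n i) < G D j (∑ i ∈ Ico j N, n i) := by
  intro j hj
  induction hj using Nat.decreasingInduction with
  | self => intro _ h; have := b_pos' N D; simp at h; omega
  | of_succ j hj ih =>
    intro hn hT
    rw [sum_eq_sum_Ico_succ_bot hj] at hT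
    rw [sum_eq_sum_Ico_succ_bot hj, sum_eq_sum_Ico_succ_bot hj]
    rcases Nat.lt_or_ge (∑ i ∈ Ico (j + 1) N, n i) (b (j + 2) (D + 1)) with h | h
    · have h1 := seq_bound D N n (j + 1) hj (fun i hi => (hn i (by omega)).le)
      have h2 := G_next_strict (hn j le_rfl) hT h
      omega
    · have h1 := ih (fun i hi => hn i (by omega)) h
      have h2 := G_next (T := ∑ i ∈ Ico (j + 1) N, n i) (hn j le_rfl).le
      omega

open Finset in
/-- value of the greedy filling -/
theorem G_fill (D R s : ℕ) (hs : s < b (R + 1) (D + 1)) : ∀ j ≤ R,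
    G D j (∑ i ∈ Ico j R, b (i + 1) (D + 1) + s) =
      ∑ i ∈ Ico j R, b (i + 2) (D + 1) + f (R + 1) s := by
  intro j hj
  induction hj using Nat.decreasingInduction with
  | self => simp [G_lt hs]
  | of_succ j hj ih =>
    rw [sum_eq_sum_Ico_succ_bot hj, sum_eq_sum_Ico_succ_bot hj, G_ge (by omega)]
    rw [show b (j + 1) (D + 1) + ∑ i ∈ Ico (j + 1) R, b (i + 1) (D + 1) + s - b (j + 1) (D + 1) =
      ∑ i ∈ Ico (j + 1) R, b (i + 1) (D + 1) + s by omega, ih]
    ring

open Finset in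
/-- The main numerical statement. -/
theorem final_bound {E R N s : ℕ} {n : ℕ → ℕ} (hR : R ≤ N) (h0 : n 0 ≤ E + 1)
    (hgr : ∀ i, n (i + 1) ≤ f (i + 1) (n i))
    (hsum : ∑ i ∈ Ico 0 N, n i = ∑ i ∈ Ico 0 R, b (i + 1) (E + 1) + s)
    (hs : s < b (R + 1) (E + 1)) :
    ∑ i ∈ Ico 0 N, f (i + 1) (n i) ≤ ∑ i ∈ Ico 0 R, b (i + 2) (E + 1) + f (R + 1) s ∧
    (∑ i ∈ Ico 0 N, f (i + 1) (n i) = ∑ i ∈ Ico 0 R, b (i + 2) (E + 1) + f (R + 1) s →
      (∀ i < R, n i = b (i + 1) (E + 1)) ∧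
      ∑ i ∈ Ico R N, n i = s ∧ ∑ i ∈ Ico R N, f (i + 1) (n i) = f (R + 1) s ∧
      ∀ d, b (R + 1) d ≤ s → b (R + 1) d ≤ n R) := by
  have hgrow : ∀ D j, n j ≤ b (j + 1) (D + 1) → ∀ i, j ≤ i → n i ≤ b (i + 1) (D + 1) := by
    intro D j hj i hi
    induction hi with
    | refl => exact hj
    | @step m hi ih =>
      refine (hgr _).trans ?_
      have := f_mono m ih
      rwa [f_full] at this
  have hgrow' : ∀ D j, n j < b (j + 1) (D + 1) → ∀ i, j ≤ i → n i < b (i + 1) (D + 1) := by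
    intro D j hj i hi
    induction hi with
    | refl => exact hj
    | @step m hi ih =>
      refine (hgr _).trans_lt ?_
      have := f_strictMono m ih
      rwa [f_full] at this
  have hall : ∀ i, n i ≤ b (i + 1) (E + 1) := fun i =>
    hgrow E 0 (by simpa using h0) i (Nat.zero_le _)
  have hb0 := seq_bound E N n 0 (Nat.zero_le _) (fun i _ => hall i)
  rw [hsum, G_fill E R s hs 0 (Nat.zero_le _)] at hb0
  refine ⟨hb0, fun heq => ?_⟩
  -- all degrees `< R` are full
  have key : ∀ j ≤ R, (∀ i < j, n i = b (i + 1) (E + 1)) ∧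
      ∑ i ∈ Ico j N, n i = ∑ i ∈ Ico j R, b (i + 1) (E + 1) + s ∧
      ∑ i ∈ Ico j N, f (i + 1) (n i) = ∑ i ∈ Ico j R, b (i + 2) (E + 1) + f (R + 1) s := by
    intro j
    induction j with
    | zero => intro _; exact ⟨by simp, hsum, heq⟩
    | succ j ih =>
      intro hj
      obtain ⟨h1, h2, h3⟩ := ih (by omega)
      have hjN : j < N := by omega
      have hfull : n j = b (j + 1) (E + 1) := by
        by_contra hne
        have hlt : n j < b (j + 1) (E + 1) := lt_of_le_of_ne (hall j) hne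
        have h4 := seq_bound_strict E N n j hjN.le (hgrow' E j hlt)
          (by rw [h2, sum_eq_sum_Ico_succ_bot (by omega : j < R)]; omega)
        rw [h2, G_fill E R s hs j (by omega), h3] at h4
        omega
      rw [sum_eq_sum_Ico_succ_bot hjN, sum_eq_sum_Ico_succ_bot (by omega : j < R), hfull] at h2
      rw [sum_eq_sum_Ico_succ_bot hjN, sum_eq_sum_Ico_succ_bot (by omega : j < R), hfull,
        f_full] at h3
      refine ⟨fun i hi => ?_, by omega, by omega⟩
      rcases Nat.lt_or_ge i j with h | h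
      · exact h1 i h
      · rw [show i = j by omega]; exact hfull
  obtain ⟨h1, h2, h3⟩ := key R le_rfl
  simp only [Ico_self, sum_empty, Nat.zero_add] at h2 h3
  refine ⟨h1, h2, h3, fun d hd => ?_⟩
  by_contra hlt
  rw [not_le] at hlt
  obtain ⟨D, rfl⟩ : ∃ D, d = D + 1 := by
    rcases d with _ | D
    · simp at hlt
    · exact ⟨D, rfl⟩
  have h4 := seq_bound_strict D N n R hR (hgrow' D R hlt) (by rw [h2]; exact hd)
  rw [h2, h3] at h4
  have h5 := G_le_f D s R
  omega

end NS57
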