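import Pool.Agent.Helper57.NS.Ideal

/-!
The case `r = 2`: structure of the extremal order ideals.
-/

namespace NS57

open Finset
open scoped Pointwise

variable {e : ℕ}

/-- monomials of degree `k` in the variables `D` -/
def monD (D : Finset (Fin e)) (k : ℕ) : Finset (Multiset (Fin e)) :=
  (univ : Finset (Sym {x // x ∈ D} k)).image fun M => (Sym.toMultiset M).map Subtype.val

theorem mem_monD {D : Finset (Fin e)} {k : ℕ} {M : Multiset (Fin e)} :
    M ∈ monD D k ↔ M.card = k ∧ ∀ x ∈ M, x ∈ D := by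
  simp only [monD, mem_image, mem_univ, true_and]
  constructor
  · rintro ⟨N, rfl⟩
    refine ⟨by rw [Multiset.card_map]; exact N.2, fun x hx => ?_⟩
    obtain ⟨y, _, rfl⟩ := Multiset.mem_map.1 hx
    exact y.2
  · rintro ⟨h1, h2⟩
    lift M to Multiset {x // x ∈ D} using h2
    exact ⟨⟨M, by simpa using h1⟩, rfl⟩

theorem card_monD (D : Finset (Fin e)) (k : ℕ) : (monD D k).card = b k D.card := by
  have hinj : Function.Injective fun M : Sym {x // x ∈ D} k =>
      (Sym.toMultiset M).map (Subtype.val : {x // x ∈ D} → Fin e) :=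
    (Multiset.map_injective Subtype.val_injective).comp Sym.coe_injective
  rw [monD, card_image_of_injective _ hinj, card_univ,
    Sym.card_sym_eq_multichoose, Fintype.card_coe, b]

theorem f_two_lt_aux (n : ℕ) : f 2 (n + 1) ≤ f 2 n + (n + 1) := by
  obtain ⟨d, x, hn, hx⟩ : ∃ d x, n = b 2 d + x ∧ x < b 1 (d + 1) := exists_block 1 n
  have h1 : f 2 (b 2 d + x) = b 3 d + f 1 x := f_rec (by rw [Nat.zero_add]; omega)
  have h2 : f 2 (b 2 d + (x + 1)) = b 3 d + f 1 (x + 1) := f_rec (by rw [Nat.zero_add]; omega)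
  have h3 := f_one_succ x
  rw [hn, h1, add_assoc, h2]
  omega

theorem f_two_lt (n : ℕ) : f 2 (n + 2) < f 1 (n + 2) := by
  induction n with
  | zero =>
    have h1 : f 2 (b 2 1 + 1) = b 3 1 + f 1 1 := f_rec (by rw [b_one_left]; omega)
    have h2 := two_f_one 1
    have h3 := two_f_one 2
    rw [b_one_right, b_one_right] at h1
    simp only [Nat.reduceAdd, Nat.zero_add] at *
    omega
  | succ n ih =>
    have h1 := f_two_lt_aux (n + 2)
    have h2 := f_one_succ (n + 2)
    simp only [Nat.add_assoc, Nat.reduceAdd] at *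
    rw [show n + (1 + 2) = n + 3 by ring]
    omega

theorem sum_f_le (n : ℕ → ℕ) (i0 N : ℕ) :
    ∑ i ∈ Ico i0 N, f (i + 1) (n i) ≤ f (i0 + 1) (∑ i ∈ Ico i0 N, n i) := by
  have h : ∀ s : Finset ℕ, (∀ i ∈ s, i0 ≤ i) →
      ∑ i ∈ s, f (i + 1) (n i) ≤ f (i0 + 1) (∑ i ∈ s, n i) := by
    intro s
    induction s using Finset.induction_on with
    | empty => intro _; simp
    | insert i s hi ih =>
      intro hs
      rw [sum_insert hi, sum_insert hi]
      have h1 := ih (fun j hj => hs j (mem_insert_of_mem hj))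
      have h2 := f_anti_le (hs i (mem_insert_self _ _)) (n i)
      have h3 := f_sup i0 (n i) (∑ j ∈ s, n j)
      omega
  exact h _ fun i hi => (mem_Ico.1 hi).1

variable {B : Finset (Multiset (Fin e))} {m s : ℕ} {a : Fin e → ZMod m}

/-- the structure of an extremal set of quadratic monomials -/
theorem quad_structure {A : Finset (Multiset (Fin e))} (hA : ∀ M ∈ A, M.card = 2) {d t : ℕ}
    (hcard : A.card = b 2 d + t) (htd : t ≤ d) (ht : 1 ≤ t) (hU : (U A).card = f 2 A.card)
    {D : Finset (Fin e)} (hD : D.card = d)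
    (hDA : ∀ M : Multiset (Fin e), M.card = 2 → (∀ x ∈ M, x ∈ D) → M ∈ A) :
    ∃ y, y ∉ D ∧ ∃ T ⊆ insert y D, T.card = t ∧ ∀ c ∈ T, {y, c} ∈ A := by
  have hrec : ∀ x ≤ d + 1, f 2 (b 2 d + x) = b 3 d + f 1 x := fun x hx =>
    f_rec (by rw [b_one_left]; exact hx)
  have hsub : monD D 2 ⊆ A := fun M hM => hDA M (mem_monD.1 hM).1 (mem_monD.1 hM).2
  set R := A \ monD D 2 with hR
  have hRcard : R.card = t := by
    rw [hR, card_sdiff_of_subset hsub, card_monD, hD, hcard]; omega
  -- the number of elements divisible by `y ∉ D`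
  have hp : ∀ y ∉ D, ∀ M ∈ A, y ∈ M → (P1 y A).card = t ∧ ∀ N ∈ R, y ∈ N := by
    intro y hyD M hM hyM
    have hsubR : A.filter (fun M => y ∈ M) ⊆ R := by
      intro N hN
      rw [mem_filter] at hN
      rw [hR, mem_sdiff]
      exact ⟨hN.1, fun h => hyD ((mem_monD.1 h).2 y hN.2)⟩
    have hP := card_P y A
    have hPf : (P0 y A).card + (A.filter fun M => y ∈ M).card = A.card := by
      rw [P0, add_comm, card_filter_add_card_filter_not]
    have hle : (A.filter fun M => y ∈ M).card ≤ t := hRcard ▸ card_le_card hsubR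
    have hpos : 0 < (P1 y A).card := card_pos.2 ⟨M.erase y, by
      rw [mem_P1, Multiset.cons_erase hyM]; exact hM⟩
    obtain ⟨p, hpdef⟩ : ∃ p, (P1 y A).card = p := ⟨_, rfl⟩
    obtain ⟨q, hq⟩ : ∃ q, t = p + q := ⟨t - p, by omega⟩
    have h1 := U_card_le (y := y) (A := A) (r := 1) hA
    have h2 : (U (P0 y A)).card ≤ f 2 (P0 y A).card :=
      macaulay 1 _ (fun M hM => hA M (mem_P0.1 hM).1)
    have h3 : (U (P1 y A)).card ≤ f 1 (P1 y A).card := macaulay 0 _ (P1_card (r := 1) hA)
    have h4 : (A ∩ U (P1 y A)).card ≤ (U (P1 y A)).card := card_le_card inter_subset_right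
    have h5 : (P0 y A).card = b 2 d + q := by omega
    rw [hU, hcard, hrec t (by omega)] at h1
    rw [h5, hrec q (by omega)] at h2
    rw [hpdef] at h3
    have e1 := two_f_one t
    have e2 := two_f_one p
    have e3 := two_f_one q
    have h6 : f 1 t ≤ f 1 q + f 1 p := by omega
    have hq0 : q = 0 := by
      by_contra hne
      have hpq : 1 ≤ p * q := Nat.mul_pos (by omega) (Nat.pos_of_ne_zero hne)
      rw [hq] at e1 h6
      nlinarith
    have h7 : (A.filter fun M => y ∈ M) = R := eq_of_subset_of_card_le hsubR (by omega)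
    refine ⟨by omega, fun N hN => ?_⟩
    rw [← h7, mem_filter] at hN
    exact hN.2
  -- choose `y`
  obtain ⟨M0, hM0⟩ : R.Nonempty := card_pos.1 (by omega)
  have hM0' := hM0
  rw [hR, mem_sdiff, mem_monD] at hM0
  obtain ⟨y, hyM0, hyD⟩ : ∃ y ∈ M0, y ∉ D := by
    by_contra hcon
    push Not at hcon
    exact hM0.2 ⟨hA M0 hM0.1, hcon⟩
  obtain ⟨hpy, hRy⟩ := hp y hyD M0 hM0.1 hyM0
  set T : Finset (Fin e) := univ.filter fun c => ({y, c} : Multiset (Fin e)) ∈ A with hT
  have hP1 : P1 y A = T.image fun c => {c} := by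
    ext N
    rw [mem_P1, mem_image]
    constructor
    · intro hN
      have hc : N.card = 1 := by have := hA _ hN; simpa using this
      obtain ⟨c, rfl⟩ := Multiset.card_eq_one.1 hc
      exact ⟨c, by rw [hT, mem_filter]; exact ⟨mem_univ _, hN⟩, rfl⟩
    · rintro ⟨c, hc, rfl⟩
      rw [hT, mem_filter] at hc
      exact hc.2
  have hTcard : T.card = t := by
    rw [hP1, card_image_of_injective _ (fun a b h => by simpa using h)] at hpy
    exact hpy
  refine ⟨y, hyD, T, fun c hc => ?_, hTcard, fun c hc => (mem_filter.1 hc).2⟩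
  -- `T ⊆ insert y D`
  rw [mem_insert]
  by_contra hcon
  push Not at hcon
  obtain ⟨hcy, hcD⟩ := hcon
  have hyc : ({y, c} : Multiset (Fin e)) ∈ A := (mem_filter.1 hc).2
  obtain ⟨_, hRc⟩ := hp c hcD _ hyc (by simp)
  -- every element of `A` containing an element outside `D` is `{y, c}`
  have hout : ∀ z ∉ D, ∀ M ∈ A, z ∈ M → M = {y, c} := by
    intro z hz M hM hzM
    have hMR : M ∈ R := by
      rw [hR, mem_sdiff]; exact ⟨hM, fun h => hz ((mem_monD.1 h).2 z hzM)⟩
    have h1 := hRy M hMR
    have h2 := hRc M hMR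
    obtain ⟨N, rfl⟩ := Multiset.exists_cons_of_mem h1
    have h3 : N.card = 1 := by have := hA _ hM; simpa using this
    obtain ⟨w, rfl⟩ := Multiset.card_eq_one.1 h3
    have h4 : c = w := by
      rw [Multiset.mem_cons, Multiset.mem_singleton] at h2
      exact h2.resolve_left hcy
    rw [h4]; rfl
  have hyy : ({y, y} : Multiset (Fin e)) ∉ A := fun h => by
    have := hout y hyD _ h (by simp)
    have h2 : c ∈ ({y, y} : Multiset (Fin e)) := by rw [this]; simp
    simp at h2; exact hcy h2
  have hcc : ({c, c} : Multiset (Fin e)) ∉ A := fun h => by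
    have := hout c hcD _ h (by simp)
    have h2 : y ∈ ({c, c} : Multiset (Fin e)) := by rw [this]; simp
    simp at h2; exact hcy h2.symm
  have hsubU : U A ⊆ monD D 3 := by
    intro N hN
    rw [mem_U] at hN
    obtain ⟨hN0, hN1⟩ := hN
    have hNc : N.card = 3 := by
      obtain ⟨x, hx⟩ := Multiset.exists_mem_of_ne_zero hN0
      have := hA _ (hN1 x hx)
      rw [Multiset.card_erase_of_mem hx] at this
      have h4 : N.card.pred = N.card - 1 := rfl
      omega
    rw [mem_monD]
    refine ⟨hNc, fun z hz => ?_⟩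
    by_contra hzD
    obtain ⟨N', rfl⟩ := Multiset.exists_cons_of_mem hz
    have hN'c : N'.card = 2 := by simpa using hNc
    obtain ⟨u, v, rfl⟩ := Multiset.card_eq_two.1 hN'c
    have h1 : (z ::ₘ {v} : Multiset (Fin e)) ∈ A := by
      have := hN1 u (by simp)
      have h5 : (z ::ₘ {u, v} : Multiset (Fin e)) = u ::ₘ (z ::ₘ {v}) := by
        rw [Multiset.cons_swap]; rfl
      rwa [h5, Multiset.erase_cons_head] at this
    have h2 : (z ::ₘ {u} : Multiset (Fin e)) ∈ A := by
      have := hN1 v (by simp)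
      have h5 : (z ::ₘ {u, v} : Multiset (Fin e)) = v ::ₘ (z ::ₘ {u}) := by
        rw [Multiset.cons_swap, Multiset.pair_comm]; rfl
      rwa [h5, Multiset.erase_cons_head] at this
    have h6 : ({u, v} : Multiset (Fin e)) ∈ A := by
      have := hN1 z (by simp)
      rwa [Multiset.erase_cons_head] at this
    have h3 := hout z hzD _ h1 (by simp)
    have h4 := hout z hzD _ h2 (by simp)
    have huv : u = v := by
      have h7 : (z ::ₘ {v} : Multiset (Fin e)) = z ::ₘ {u} := by rw [h3, h4]
      simpa using h7.symm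
    subst huv
    have hz' : z = y ∨ z = c := by
      have : z ∈ ({y, c} : Multiset (Fin e)) := by rw [← h3]; simp
      simpa using this
    rcases hz' with rfl | rfl
    · have h8 : u = c := by
        have h7 : (z ::ₘ {u} : Multiset (Fin e)) = z ::ₘ {c} := h3
        simpa using h7
      subst h8
      exact hcc h6
    · have h8 : u = y := by
        have h7 : (z ::ₘ {u} : Multiset (Fin e)) = z ::ₘ {y} := by
          rw [h3]; exact Multiset.pair_comm _ _
        simpa using h7
      subst h8
      exact hyy h6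
  have h1 := card_le_card hsubU
  rw [card_monD, hD, hU, hcard, hrec t (by omega)] at h1
  have h2 := le_f 0 t
  simp only [Nat.zero_add] at h2
  omega


theorem Tile.res_inj (hB : Tile e m B a) {M N : Multiset (Fin e)} (hM : M ∈ B) (hN : N ∈ B)
    (h : (M.map a).sum = (N.map a).sum) : M = N := hB.inj M hM N hN h

/-- the Sidon set attached to `D` -/
theorem sidon_of_clique (hB : Tile e m B a) {D : Finset (Fin e)}
    (hD : ∀ M : Multiset (Fin e), M.card = 2 → (∀ x ∈ M, x ∈ D) → M ∈ B) :
    let Q := monD D 0 ∪ monD D 1 ∪ monD D 2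
    (∀ M ∈ Q, M ∈ B) ∧ Q.card = (D.card + 2).choose 2 ∧ (insert 0 (D.image a)).card = D.card + 1 ∧
    insert 0 (D.image a) + insert 0 (D.image a) = Q.image fun M => (M.map a).sum := by
  intro Q
  have hQB : ∀ M ∈ Q, M ∈ B := by
    intro M hM
    simp only [Q, mem_union, mem_monD] at hM
    rcases hM with (⟨h, _⟩ | ⟨h, _⟩) | ⟨h, h'⟩
    · rw [Multiset.card_eq_zero] at h; rw [h]; exact hB.zero
    · obtain ⟨x, rfl⟩ := Multiset.card_eq_one.1 h; exact hB.one x
    · exact hD M h h'
  refine ⟨hQB, ?_, ?_, ?_⟩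
  · rw [card_union_of_disjoint, card_union_of_disjoint, card_monD, card_monD, card_monD]
    · have h1 : b 2 (D.card + 1) = b 2 D.card + b 1 (D.card + 1) := b_succ_succ _ _
      rw [b_one_left] at h1
      rw [b_zero, b_one_left, ← b_two (D.card + 1)] at *
      omega
    · rw [disjoint_left]; intro M h1 h2; rw [mem_monD] at h1 h2; omega
    · rw [disjoint_left]; intro M h1 h2; rw [mem_union, mem_monD, mem_monD] at h1
      rw [mem_monD] at h2; omega
  · have hinj : Set.InjOn a D := by
      intro x _ y _ h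
      have := hB.res_inj (hB.one x) (hB.one y) (by simpa using h)
      simpa using this
    rw [card_insert_of_notMem, card_image_of_injOn hinj]
    intro h0
    obtain ⟨x, _, hx⟩ := mem_image.1 h0
    have := hB.res_inj (hB.one x) hB.zero (by simpa using hx)
    simp at this
  · ext z
    simp only [Finset.mem_add, mem_insert, mem_image, Q, mem_union, mem_monD]
    constructor
    · rintro ⟨x, hx, y, hy, rfl⟩
      rcases hx with rfl | ⟨i, hi, rfl⟩ <;> rcases hy with rfl | ⟨j, hj, rfl⟩
      · exact ⟨0, by simp, by simp⟩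
      · exact ⟨{j}, by simp [hj], by simp⟩
      · exact ⟨{i}, by simp [hi], by simp⟩
      · exact ⟨{i, j}, by simp [hi, hj], by simp⟩
    · rintro ⟨M, hM, rfl⟩
      rcases hM with (⟨h, _⟩ | ⟨h, h'⟩) | ⟨h, h'⟩
      · rw [Multiset.card_eq_zero] at h; subst h
        exact ⟨0, Or.inl rfl, 0, Or.inl rfl, by simp⟩
      · obtain ⟨x, rfl⟩ := Multiset.card_eq_one.1 h
        exact ⟨a x, Or.inr ⟨x, h' x (by simp), rfl⟩, 0, Or.inl rfl, by simp⟩
      · obtain ⟨x, y, rfl⟩ := Multiset.card_eq_two.1 h
        exact ⟨a x, Or.inr ⟨x, h' x (by simp), rfl⟩, a y, Or.inr ⟨y, h' y (by simp), rfl⟩, by simp⟩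

theorem cond_of_eq (he : 1 ≤ e) (hB : Tile e m B a) (hm : m = 1 + e + s) (hs : s < b 2 e)
    (heq : (minNon B).card + s = b 2 e + f 2 s) : Cond m s := by
  have hI := hB.ideal
  obtain ⟨h1, N, hN1, hN, hsum, hfsum, hUeq, hcl⟩ := (hI.bound (R := 1) (s := s) he
    (by rw [hB.card, hm]; simp) hs).2 heq
  obtain ⟨d, t, hst, htd⟩ : ∃ d t, s = b 2 d + t ∧ t < b 1 (d + 1) := exists_block 1 s
  rw [b_one_left] at htd
  have hrec : ∀ x ≤ d + 1, f 2 (b 2 d + x) = b 3 d + f 1 x := fun x hx =>
    f_rec (by rw [Nat.zero_add, b_one_left]; exact hx)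
  have hn2 := hcl d (by show b 2 d ≤ s; omega)
  have hU2 : (U (deg B 2)).card = f 2 (deg B 2).card := hUeq 1 le_rfl
  have hdegc : ∀ M ∈ deg B 2, M.card = 2 := fun M hM => (mem_deg.1 hM).2
  obtain ⟨D, hD, hDB⟩ := clique 1 (deg B 2) hdegc hU2 d hn2
  have hDB' : ∀ M : Multiset (Fin e), M.card = 2 → (∀ x ∈ M, x ∈ D) → M ∈ B := fun M h h' =>
    (mem_deg.1 (hDB M h h')).1
  obtain ⟨q1, q2, q3, q4⟩ := sidon_of_clique hB hDB'
  set Q := monD D 0 ∪ monD D 1 ∪ monD D 2 with hQ
  have hAA : (insert 0 (D.image a) + insert 0 (D.image a)).card = (d + 2).choose 2 := by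
    rw [q4, card_image_of_injOn, q2, hD]
    intro M hM N hN h
    exact hB.res_inj (q1 M hM) (q1 N hN) h
  refine ⟨d, t, by omega, by rw [hst, b_two], insert 0 (D.image a), mem_insert_self _ _,
    by rw [q3, hD], hAA, ?_⟩
  rcases Nat.eq_zero_or_pos t with ht | ht
  · exact Or.inl ht
  right
  -- the number of quadratic elements
  have hn2' : b 2 d ≤ (deg B 2).card := hn2
  obtain ⟨t', ht'⟩ : ∃ t', (deg B 2).card = b 2 d + t' := ⟨(deg B 2).card - b 2 d, by omega⟩
  have hN2 : 1 < N := by
    by_contra hcon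
    have : N = 1 := by omega
    rw [this] at hsum
    simp at hsum
    omega
  rw [sum_eq_sum_Ico_succ_bot hN2] at hsum hfsum
  have hle := sum_f_le (fun i => (deg B (i + 1)).card) 2 N
  simp only [Nat.reduceAdd] at hsum hfsum hle
  obtain ⟨T, hT⟩ : ∃ T, ∑ i ∈ Ico 2 N, (deg B (i + 1)).card = T := ⟨_, rfl⟩
  rw [hT] at hsum hle
  have htT : t = t' + T := by omega
  have hf1 := hrec t (by omega)
  have hf2 := hrec t' (by omega)
  rw [ht', hf2, hst, hf1] at hfsum
  have e1 := two_f_one t
  have e2 := two_f_one t'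
  have e3 := two_f_one T
  have hf3 : f 1 t ≤ f 1 t' + f 3 T := by omega
  have hcases : T = 0 ∨ (T = 1 ∧ t' = 0) := by
    have h32 : f 3 T ≤ f 2 T := f_anti 1 T
    have h21 : f 2 T ≤ f 1 T := f_anti 0 T
    rcases T with _ | _ | T
    · exact Or.inl rfl
    · right
      refine ⟨rfl, ?_⟩
      rw [htT] at e1 hf3
      by_contra hne
      have : 1 ≤ t' := by omega
      nlinarith
    · exfalso
      have := f_two_lt T
      rw [htT] at e1 hf3
      have h5 : 0 ≤ t' * (T + 2) := Nat.zero_le _
      nlinarith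
  rcases hcases with hT0 | ⟨hT1, ht'0⟩
  · -- `y` and `T`
    left
    have htt : t' = t := by omega
    rw [htt] at ht'
    obtain ⟨y, hyD, W, hWs, hWc, hW⟩ := quad_structure hdegc ht' (by omega) ht hU2 hD hDB
    have hWB : ∀ c ∈ W, ({y, c} : Multiset (Fin e)) ∈ B := fun c hc => (mem_deg.1 (hW c hc)).1
    have hinjW : Set.InjOn a W := by
      intro x _ z _ h
      have := hB.res_inj (hB.one x) (hB.one z) (by simpa using h)
      simpa using this
    refine ⟨a y, insert 0 (W.image a), ?_, mem_insert_self _ _, ?_, ?_⟩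
    · intro z hz
      rw [mem_insert, mem_image] at hz
      rw [mem_insert, mem_insert, mem_image]
      rcases hz with rfl | ⟨c, hc, rfl⟩
      · exact Or.inr (Or.inl rfl)
      · have := hWs hc
        rw [mem_insert] at this
        rcases this with rfl | h
        · exact Or.inl rfl
        · exact Or.inr (Or.inr ⟨c, h, rfl⟩)
    · rw [card_insert_of_notMem, card_image_of_injOn hinjW, hWc]
      intro h0
      obtain ⟨x, _, hx⟩ := mem_image.1 h0
      have := hB.res_inj (hB.one x) hB.zero (by simpa using hx)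
      simp at this
    · rw [disjoint_left]
      intro z hz hz'
      rw [q4, mem_image] at hz'
      obtain ⟨M, hM, rfl⟩ := hz'
      rw [mem_image] at hz
      obtain ⟨w, hw, hw'⟩ := hz
      have hMD : ∀ x ∈ M, x ∈ D := by
        rw [hQ, mem_union, mem_union, mem_monD, mem_monD, mem_monD] at hM
        rcases hM with (h | h) | h <;> exact h.2
      rw [mem_insert, mem_image] at hw
      rcases hw with rfl | ⟨c, hc, rfl⟩
      · have := hB.res_inj (hB.one y) (q1 M hM) (by simpa using hw')
        exact hyD (hMD y (by rw [← this]; simp))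
      · have := hB.res_inj (hWB c hc) (q1 M hM) (by simpa using hw')
        exact hyD (hMD y (by rw [← this]; simp))
  · -- a cube
    right
    refine ⟨by omega, ?_⟩
    rw [ht'0] at ht'
    have hdeg2 : deg B 2 = monD D 2 := by
      symm
      apply eq_of_subset_of_card_le
      · intro M hM; exact hDB M (mem_monD.1 hM).1 (mem_monD.1 hM).2
      · rw [ht', card_monD, hD]; exact le_rfl
    have hempty : ∀ k, deg B k = ∅ → ∀ j, k ≤ j → deg B j = ∅ := by
      intro k hk j hj
      induction hj with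
      | refl => exact hk
      | @step q _ ih =>
        have := hI.deg_succ_subset q
        rw [ih, U_empty, subset_empty] at this
        exact this
    have hc3 : (deg B 3).card = 1 := by
      have h0 : deg B 3 ≠ ∅ := by
        intro h0
        have : ∑ i ∈ Ico 2 N, (deg B (i + 1)).card = 0 := by
          apply sum_eq_zero
          intro i hi
          rw [hempty 3 h0 (i + 1) (by rw [mem_Ico] at hi; omega), card_empty]
        omega
      have h1 : 0 < (deg B 3).card := card_pos.2 (nonempty_iff_ne_empty.2 h0)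
      have h2 : (deg B 3).card ≤ ∑ i ∈ Ico 2 N, (deg B (i + 1)).card := by
        have hN3 : 2 < N := by
          by_contra hcon
          rw [Ico_eq_empty (by omega)] at hT
          simp at hT; omega
        exact single_le_sum (f := fun i => (deg B (i + 1)).card) (fun _ _ => Nat.zero_le _)
          (by rw [mem_Ico]; omega : 2 ∈ Ico 2 N)
      omega
    have hU3 : (U (deg B 3)).card = f 3 (deg B 3).card := hUeq 2 (by omega)
    have hf31 : f 3 1 = 1 := by
      have := f_full 2 1
      rwa [b_one_right, b_one_right] at this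
    rw [hc3, hf31] at hU3
    obtain ⟨M, hM⟩ := card_eq_one.1 hc3
    obtain ⟨P, hP⟩ := card_eq_one.1 hU3
    have hPU : P ∈ U (deg B 3) := by rw [hP]; exact mem_singleton_self _
    rw [mem_U, hM] at hPU
    obtain ⟨hP0, hP1⟩ := hPU
    obtain ⟨x, hx⟩ := Multiset.exists_mem_of_ne_zero hP0
    have hMB : M ∈ B ∧ M.card = 3 := mem_deg.1 (by rw [hM]; exact mem_singleton_self _)
    have hPx : P = x ::ₘ M := by
      rw [← mem_singleton.1 (hP1 x hx), Multiset.cons_erase hx]
    have hall : ∀ z ∈ M, z = x := by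
      intro z hz
      have hzP : z ∈ P := by rw [hPx]; exact Multiset.mem_cons_of_mem hz
      have h3 : P = z ::ₘ M := by
        rw [← mem_singleton.1 (hP1 z hzP), Multiset.cons_erase hzP]
      rw [hPx] at h3
      exact ((Multiset.cons_inj_left M).1 h3).symm
    have hMrep : M = Multiset.replicate 3 x := by
      rw [Multiset.eq_replicate]; exact ⟨hMB.2, hall⟩
    have hxx : Multiset.replicate 2 x ∈ deg B 2 := by
      rw [mem_deg]
      refine ⟨hB.down M hMB.1 _ ?_, by simp⟩
      rw [hMrep]
      exact (Multiset.replicate_le_replicate x).2 (by omega)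
    have hxD : x ∈ D := by
      rw [hdeg2, mem_monD] at hxx
      exact hxx.2 x (by simp)
    refine ⟨a x, mem_insert_of_mem (mem_image_of_mem a hxD), ?_⟩
    rw [q4, mem_image]
    rintro ⟨M', hM', hres⟩
    have h1 : M' = M := hB.res_inj (q1 M' hM') hMB.1 (by
      rw [hres, hMrep, Multiset.map_replicate, Multiset.sum_replicate, nsmul_eq_mul]; norm_num)
    have h2 : M'.card ≤ 2 := by
      rw [hQ, mem_union, mem_union, mem_monD, mem_monD, mem_monD] at hM'
      omega
    rw [h1] at h2
    omega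

end NS57
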